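import Pool.Agent.T2H23.ED.Stm

/-!
# Package CNT : the count
-/

set_option autoImplicit false

noncomputable section

open Polynomial

namespace Pool.Agent.T2H23.ED

namespace PkgCNT

/-- the coefficients are unique -/
lemma uni (d : ℕ) (hd : 4 ≤ d) (u : V d) (p q a b a' b' : ℂ) (hp : p ≠ 0) (hpq : p ≠ q)
    (hs : p + q ≠ 0) (h1 : DR d u p q a b) (h2 : DR d u p q a' b') : a = a' ∧ b = b' := by
  obtain ⟨h, -, h1⟩ := h1
  obtain ⟨h', -, h2⟩ := h2
  have key : C (a - a') * (X + C p) ^ d + C (b - b') * (X + C q) ^ d =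
      (X - C p) ^ 2 * ((X - C q) ^ 2 * (h' - h)) := by
    have h3 := h1.symm.trans h2
    rw [C_sub, C_sub]
    linear_combination h3
  have e1 := congrArg (eval p) key
  have e2 := congrArg (fun P => (derivative P).eval p) key
  simp only [derivative_add, derivative_mul, derivative_C, derivative_pow, derivative_X_add_C,
    derivative_X_sub_C, eval_add, eval_mul, eval_pow, eval_C, eval_X, eval_sub, eval_natCast,
    zero_mul, zero_add, mul_one, sub_self] at e1 e2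
  have hdc : ((d : ℕ) : ℂ) ≠ 0 := by
    exact_mod_cast (by omega : d ≠ 0)
  have e3 : (a - a') * (p + p) ^ (d - 1) + (b - b') * (q + p) ^ (d - 1) = 0 := by
    have : (d : ℂ) * ((a - a') * (p + p) ^ (d - 1) + (b - b') * (q + p) ^ (d - 1)) = 0 := by
      have h4 : (2 : ℕ) - 1 ≠ 0 := by norm_num
      simp at e2
      rw [add_comm q p]
      linear_combination e2
    exact (mul_eq_zero.1 this).resolve_left hdc
  have e4 : (a - a') * (p + p) ^ d + (b - b') * (q + p) ^ d = 0 := by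
    rw [add_comm q p]
    simpa using e1
  obtain ⟨m, rfl⟩ : ∃ m, d = m + 1 := ⟨d - 1, by omega⟩
  rw [Nat.add_sub_cancel] at e3
  rw [pow_succ, pow_succ] at e4
  have e5 : (b - b') * ((q + p) ^ m * (q - p)) = 0 := by
    linear_combination e4 - 2 * p * e3
  have hb : b = b' := by
    have h6 : (q + p) ^ m * (q - p) ≠ 0 :=
      mul_ne_zero (pow_ne_zero _ (by rwa [add_comm])) (sub_ne_zero.2 hpq.symm)
    exact sub_eq_zero.1 ((mul_eq_zero.1 e5).resolve_right h6)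
  refine ⟨?_, hb⟩
  rw [hb, sub_self, zero_mul, add_zero] at e3
  have h7 : (p + p) ^ m ≠ 0 := pow_ne_zero _ (by
    rw [← two_mul]
    exact mul_ne_zero two_ne_zero hp)
  exact sub_eq_zero.1 ((mul_eq_zero.1 e3).resolve_right h7)

lemma dr_swap {d : ℕ} {u : V d} {p q a b : ℂ} (h : DR d u p q a b) : DR d u q p b a := by
  obtain ⟨h, h1, h2⟩ := h
  exact ⟨h, h1, by rw [h2]; ring⟩

lemma deg_le (d : ℕ) (p q a b : ℂ) :
    (C a * (X + C p) ^ d + C b * (X + C q) ^ d : ℂ[X]).natDegree ≤ d := by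
  have h1 : ∀ r s : ℂ, (C r * (X + C s) ^ d : ℂ[X]).natDegree ≤ d := by
    intro r s
    refine (natDegree_C_mul_le _ _).trans ?_
    refine natDegree_pow_le.trans ?_
    rw [natDegree_X_add_C, mul_one]
  exact natDegree_add_le_of_degree_le (h1 _ _) (h1 _ _)

end PkgCNT

open PkgCNT in
theorem pCNT (hGEO : S_GEO) (hGEC : S_GEC) (hK1 : S_K1) (hK2 : S_K2) (hK3 : S_K3) (hK5 : S_K5) :
    S_CNT := by
  classical
  intro d n hd u T hT hgood hdeg h0 h1 hsim
  have hT0 : T ≠ 0 := by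
    intro h
    rw [h, eval_zero] at h0
    exact h0 rfl
  -- the roots
  have hroot : ∀ θ : ℂ, θ ≠ 0 → θ ≠ 1 → ((RU d u).eval θ = 0 ↔ T.eval θ = 0) := by
    intro θ hθ0 hθ1
    rw [hT, eval_mul, eval_mul, eval_pow, eval_pow, eval_sub, eval_X, eval_one]
    have h2 : θ ^ (d - 1) * (θ - 1) ^ (5 * d) ≠ 0 :=
      mul_ne_zero (pow_ne_zero _ hθ0) (pow_ne_zero _ (sub_ne_zero.2 hθ1))
    constructor
    · intro h
      exact (mul_eq_zero.1 h).resolve_left h2
    · intro h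
      rw [h, mul_zero]
  have hder : ∀ θ : ℂ, θ ≠ 0 → θ ≠ 1 → T.eval θ = 0 → (derivative (RU d u)).eval θ = 0 →
      (derivative T).eval θ = 0 := by
    intro θ hθ0 hθ1 h2 h3
    rw [hT, derivative_mul, eval_add, eval_mul, eval_mul, h2, mul_zero, zero_add, eval_mul,
      eval_pow, eval_pow, eval_sub, eval_X, eval_one] at h3
    have h4 : θ ^ (d - 1) * (θ - 1) ^ (5 * d) ≠ 0 :=
      mul_ne_zero (pow_ne_zero _ hθ0) (pow_ne_zero _ (sub_ne_zero.2 hθ1))
    exact (mul_eq_zero.1 h3).resolve_left h4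
  have hZcard : T.roots.toFinset.card = n := by
    rw [Multiset.toFinset_card_of_nodup]
    · rw [← hdeg]
      exact (Polynomial.splits_iff_card_roots.1 (IsAlgClosed.splits T))
    · rw [Multiset.nodup_iff_count_le_one]
      intro θ
      rw [count_roots]
      by_contra h2
      have h3 := (one_lt_rootMultiplicity_iff_isRoot hT0).1 (not_le.1 h2)
      exact hsim θ h3.1 h3.2
  have hZ : ∀ θ : ℂ, θ ∈ T.roots.toFinset ↔ T.eval θ = 0 := by
    intro θ
    rw [Multiset.mem_toFinset, mem_roots hT0]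
    rfl
  have hz0 : ∀ θ : ℂ, T.eval θ = 0 → θ ≠ 0 := by
    intro θ h h2
    rw [h2] at h
    exact h0 h
  have hz1 : ∀ θ : ℂ, T.eval θ = 0 → θ ≠ 1 := by
    intro θ h h2
    rw [h2] at h
    exact h1 h
  -- the pairs
  set S : Set (ℂ × ℂ) := {x | x.1 ≠ x.2 ∧ ∃ a b : ℂ, DR d u x.1 x.2 a b} with hS
  have hS1 : ∀ x ∈ S, x.1 ≠ 0 ∧ x.2 ≠ 0 ∧ x.1 + x.2 ≠ 0 := by
    intro x hx
    obtain ⟨-, a, b, h⟩ := hx
    obtain ⟨h2, h3, h4, -, -⟩ := hgood.2.2.1 x.1 x.2 a b h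
    exact ⟨h2, h3, h4⟩
  have hS2 : ∀ x ∈ S, x.2 / x.1 ≠ 0 ∧ x.2 / x.1 ≠ 1 ∧ vA d u (x.2 / x.1) x.1 = 0 ∧
      vB d u (x.2 / x.1) x.1 = 0 := by
    intro x hx
    obtain ⟨h2, h3, h4⟩ := hS1 x hx
    have h5 : x.2 / x.1 ≠ 0 := div_ne_zero h3 h2
    have h6 : x.2 / x.1 ≠ 1 := by
      intro h
      rw [div_eq_one_iff_eq h2] at h
      exact hx.1 h.symm
    refine ⟨h5, h6, ?_⟩
    refine (hK1 d hd u x.1 (x.2 / x.1) h2 h5 h6).1 ?_
    rw [div_mul_cancel₀ _ h2]
    exact hx.2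
  have hbij : Set.BijOn (fun x : ℂ × ℂ => x.2 / x.1) S (T.roots.toFinset : Set ℂ) := by
    refine ⟨?_, ?_, ?_⟩
    · intro x hx
      obtain ⟨h2, h3, h4, h5⟩ := hS2 x hx
      rw [Finset.mem_coe, hZ]
      exact (hroot _ h2 h3).1 (hK3 d (by omega) u _ x.1 h4 h5).1
    · intro x hx y hy hxy
      obtain ⟨h2, h3, h4, h5⟩ := hS2 x hx
      obtain ⟨-, -, h6, h7⟩ := hS2 y hy
      have hxy' : x.2 / x.1 = y.2 / y.1 := hxy
      rw [← hxy'] at h6 h7
      have hTz : T.eval (x.2 / x.1) = 0 := (hroot _ h2 h3).1 (hK3 d (by omega) u _ x.1 h4 h5).1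
      have h8 : y.1 = x.1 := by
        by_contra hne
        have h9 := (hK3 d (by omega) u _ x.1 h4 h5).2 y.1 hne h6 h7
        exact hsim _ hTz (hder _ h2 h3 hTz h9)
      have hx0 := (hS1 x hx).1
      rw [h8, div_left_inj' hx0] at hxy'
      exact Prod.ext h8.symm hxy'
    · intro θ hθ
      rw [Finset.mem_coe, hZ] at hθ
      have hθ0 := hz0 θ hθ
      have hθ1 := hz1 θ hθ
      obtain ⟨p, hp, h2, h3⟩ := hK2 d hd u θ hgood.1 hgood.2.1 hθ0 hθ1 ((hroot θ hθ0 hθ1).2 hθ)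
      have h4 := (hK1 d hd u p θ hp hθ0 hθ1).2 ⟨h2, h3⟩
      refine ⟨(p, θ * p), ⟨?_, h4⟩, ?_⟩
      · intro h5
        have h5' : p = θ * p := h5
        apply hθ1
        have h6 : (θ - 1) * p = 0 := by linear_combination -h5'
        exact sub_eq_zero.1 ((mul_eq_zero.1 h6).resolve_right hp)
      · show θ * p / p = θ
        rw [mul_div_cancel_right₀ _ hp]
  have hSfin : S.Finite := by
    rw [hbij.finite_iff_finite]
    exact Finset.finite_toSet _
  have hScard : hSfin.toFinset.card = n := by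
    rw [← Set.ncard_eq_toFinset_card S hSfin, hbij.ncard_eq, Set.ncard_coe_finset, hZcard]
  -- the choice of the coefficients
  have hch : ∀ x : ℂ × ℂ, ∃ ab : ℂ × ℂ, x ∈ S → DR d u x.1 x.2 ab.1 ab.2 := by
    intro x
    by_cases hx : x ∈ S
    · obtain ⟨-, a, b, h⟩ := hx
      exact ⟨(a, b), fun _ => h⟩
    · exact ⟨(0, 0), fun h => absurd h hx⟩
  choose ab hab using hch
  have huni : ∀ x ∈ S, ∀ a b : ℂ, DR d u x.1 x.2 a b → a = (ab x).1 ∧ b = (ab x).2 := by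
    intro x hx a b h
    obtain ⟨h2, h3, h4⟩ := hS1 x hx
    exact uni d hd u x.1 x.2 a b _ _ h2 hx.1 h4 h (hab x hx)
  have hab0 : ∀ x ∈ S, (ab x).1 ≠ 0 ∧ (ab x).2 ≠ 0 := by
    intro x hx
    obtain ⟨-, -, -, h5, h6⟩ := hgood.2.2.1 x.1 x.2 _ _ (hab x hx)
    exact ⟨h5, h6⟩
  set ψ : ℂ × ℂ → V d := fun x =>
    vec d (C (ab x).1 * (X + C x.1) ^ d + C (ab x).2 * (X + C x.2) ^ d) with hψ
  have hswap : ∀ x ∈ S, x.swap ∈ S := by
    intro x hx
    refine ⟨fun h => hx.1 h.symm, ?_⟩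
    obtain ⟨a, b, h⟩ := hx.2
    exact ⟨b, a, dr_swap h⟩
  have hψswap : ∀ x ∈ S, ψ x.swap = ψ x := by
    intro x hx
    obtain ⟨h2, h3⟩ := huni x.swap (hswap x hx) _ _ (dr_swap (hab x hx))
    rw [hψ]
    simp only [Prod.fst_swap, Prod.snd_swap]
    rw [← h2, ← h3, add_comm]
  have hcrit : Crit2 d u = ψ '' S := by
    apply Set.Subset.antisymm
    · intro c hc
      rcases hGEO d hd u hgood.2.1 c hc with ⟨p, q, a, b, h, hpq, ha, hb, hh, hcc, hu⟩ |
        ⟨p, a, b, h, hh, hu⟩ | ⟨p, a, b, h, hh, hu⟩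
      · have hx : ((p, q) : ℂ × ℂ) ∈ S := ⟨hpq, a, b, h, hh, hu⟩
        refine ⟨(p, q), hx, ?_⟩
        obtain ⟨h2, h3⟩ := huni (p, q) hx a b ⟨h, hh, hu⟩
        rw [hψ]
        simp only []
        rw [← h2, ← h3, ← hcc, vec_PU]
      · exact absurd hu (hgood.2.2.2.1 p a b h hh)
      · exact absurd hu (hgood.2.2.2.2 p a b h hh)
    · rintro c ⟨x, hx, rfl⟩
      obtain ⟨h2, h3⟩ := hab0 x hx
      exact hGEC d hd u x.1 x.2 _ _ hx.1 h2 h3 (hab x hx)
  have hfin : (Crit2 d u).Finite := by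
    rw [hcrit]
    exact hSfin.image _
  refine ⟨hfin, ?_⟩
  have himg : (Crit2 d u).ncard = (hSfin.toFinset.image ψ).card := by
    rw [hcrit, ← Set.ncard_coe_finset]
    congr 1
    rw [Finset.coe_image, Set.Finite.coe_toFinset]
  rw [himg, ← hScard, Finset.card_eq_sum_card_image ψ hSfin.toFinset]
  have hfib : ∀ c ∈ hSfin.toFinset.image ψ, (hSfin.toFinset.filter fun x => ψ x = c).card = 2 := by
    intro c hc
    rw [Finset.mem_image] at hc
    obtain ⟨x, hx, rfl⟩ := hc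
    rw [Set.Finite.mem_toFinset] at hx
    have hne : x ≠ x.swap := by
      intro h
      have := congrArg Prod.fst h
      exact hx.1 this
    rw [← Finset.card_pair hne]
    congr 1
    ext y
    rw [Finset.mem_filter, Set.Finite.mem_toFinset, Finset.mem_insert, Finset.mem_singleton]
    constructor
    · rintro ⟨hy, hxy⟩
      have h2 : C (ab y).1 * (X + C y.1) ^ d + C (ab y).2 * (X + C y.2) ^ d =
          C (ab x).1 * (X + C x.1) ^ d + C (ab x).2 * (X + C x.2) ^ d := by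
        rw [← PU_vec d _ (deg_le d y.1 y.2 (ab y).1 (ab y).2),
          ← PU_vec d _ (deg_le d x.1 x.2 (ab x).1 (ab x).2)]
        exact congrArg (PU d) hxy
      rcases hK5 d (by omega) _ _ _ _ _ _ _ _ hy.1 hx.1 (hab0 y hy).1 (hab0 y hy).2
        (hab0 x hx).1 (hab0 x hx).2 h2 with h3 | h3
      · exact Or.inl (Prod.ext h3.1 h3.2.1)
      · exact Or.inr (Prod.ext h3.1 h3.2.1)
    · rintro (rfl | rfl)
      · exact ⟨hx, rfl⟩
      · exact ⟨hswap x hx, hψswap x hx⟩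
  rw [Finset.sum_congr rfl hfib, Finset.sum_const, smul_eq_mul, mul_comm]

end Pool.Agent.T2H23.ED
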