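import Pool.Agent.T2H23.ED.Stm

/-!
# Packages MEM, L1, L2, L5 and a version of CH for families of polynomials
-/

set_option autoImplicit false

noncomputable section

open Polynomial

namespace Pool.Agent.T2H23.ED

namespace PkgMEM

lemma pw_smul (d : ℕ) (α : ℂ) (l : ℂ × ℂ) : pw d (α * l.1, α * l.2) = α ^ d • pw d l := by
  funext i
  rw [Pi.smul_apply, smul_eq_mul]
  unfold pw
  have h : α ^ d = α ^ (d - (i : ℕ)) * α ^ (i : ℕ) := by
    rw [← pow_add, Nat.sub_add_cancel (by omega)]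
  simp only [mul_pow]
  rw [h]
  ring

end PkgMEM

open PkgMEM in
theorem pMEM : S_MEM := by
  intro d hd a b l l' P hP
  obtain ⟨α, hα⟩ := IsAlgClosed.exists_pow_nat_eq a hd
  obtain ⟨β, hβ⟩ := IsAlgClosed.exists_pow_nat_eq b hd
  have := hP (α * l.1, α * l.2) (β * l'.1, β * l'.2)
  rw [pw_smul, pw_smul, hα, hβ] at this
  exact this

namespace PkgCUR

/-- the curve of coefficient vectors of a polynomial in `t` with coefficients in `ℂ[X]` -/
def gam (G : ℂ[X][X]) (i : ℕ) : ℂ[X] := ∑ j ∈ Finset.range (G.natDegree + 1), C ((G.coeff j).coeff i) * X ^ j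

lemma gam_eval (G : ℂ[X][X]) (i : ℕ) (t : ℂ) : (gam G i).eval t = (G.eval (C t)).coeff i := by
  unfold gam
  rw [eval_finsetSum, eval_eq_sum_range, finsetSum_coeff]
  refine Finset.sum_congr rfl fun j _ => ?_
  rw [eval_mul, eval_C, eval_pow, eval_X, ← C_pow, coeff_mul_C]

lemma gam_coeff (G : ℂ[X][X]) (i j : ℕ) : (gam G i).coeff j = (G.coeff j).coeff i := by
  unfold gam
  rw [finsetSum_coeff]
  by_cases hj : j < G.natDegree + 1
  · rw [Finset.sum_eq_single j]
    · rw [coeff_C_mul_X_pow, if_pos rfl]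
    · intro k _ hk
      rw [coeff_C_mul_X_pow, if_neg (fun h => hk h.symm)]
    · intro h
      exact absurd (Finset.mem_range.2 hj) h
  · rw [Finset.sum_eq_zero, coeff_eq_zero_of_natDegree_lt (by omega : G.natDegree < j), coeff_zero]
    intro k hk
    have := Finset.mem_range.1 hk
    rw [coeff_C_mul_X_pow, if_neg (by omega)]

/-- curves of polynomials: `G` is a polynomial in `t` with coefficients in `ℂ[X]` -/
theorem cur (hCH : S_CH) (d : ℕ) (G : ℂ[X][X]) (h : ∀ t : ℂ, t ≠ 0 → vec d (G.eval (C t)) ∈ Sec d) :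
    vec d (G.coeff 0) ∈ Sec d ∧ vec d (G.coeff 1) ∈ Tan d (vec d (G.coeff 0)) := by
  have h1 := hCH d (fun i => gam G i) (fun t ht => by
    have : (fun i : Fin (d + 1) => (gam G i).eval t) = vec d (G.eval (C t)) := by
      funext i
      exact gam_eval G i t
    rw [this]
    exact h t ht)
  have h2 : (fun i : Fin (d + 1) => (gam G i).eval 0) = vec d (G.coeff 0) := by
    funext i
    rw [← coeff_zero_eq_eval_zero, gam_coeff]
    rfl
  have h3 : (fun i : Fin (d + 1) => (derivative (gam G i)).eval 0) = vec d (G.coeff 1) := by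
    funext i
    rw [← coeff_zero_eq_eval_zero, coeff_derivative, gam_coeff]
    simp [vec]
  rw [h2, h3] at h1
  exact h1

end PkgCUR

open PkgCUR

theorem pL1 (hCH : S_CH) (hMEM : S_MEM) (hSPAN : S_SPAN) : S_L1 := by
  intro d hd a l
  refine hSPAN d _ fun l' => ?_
  have h := (cur hCH d (C (PU d (a • pw d l)) + C (PU d (pw d l')) * X) (fun t _ => ?_)).2
  · simp only [coeff_add, coeff_C_mul, coeff_C_zero, coeff_X_zero, mul_zero, add_zero, vec_PU,
      coeff_C_succ, coeff_X_one, mul_one, zero_add] at h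
    exact h
  · simp only [eval_add, eval_C, eval_mul, eval_X]
    rw [mul_comm, vec_add, vec_C_mul, vec_PU, vec_PU]
    exact hMEM d hd a t l l'

theorem pL2 (hCH : S_CH) (hMEM : S_MEM) : S_L2 := by
  intro d hd a b l l' m ha
  obtain ⟨e, rfl⟩ : ∃ e, d = e + 1 := ⟨d - 1, by omega⟩
  set L : ℂ[X] := C l.1 + C l.2 * X with hL
  set M : ℂ[X] := C m.1 + C m.2 * X with hM
  set G : ℂ[X][X] := C (C a) * (C L + C M * X) ^ (e + 1) + C (PU (e + 1) (b • pw (e + 1) l')) with hG
  have h0 : G.coeff 0 = C a * L ^ (e + 1) + PU (e + 1) (b • pw (e + 1) l') := by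
    rw [coeff_zero_eq_eval_zero, hG]
    simp
  have h1 : G.coeff 1 = C (a * (e + 1)) * (L ^ e * M) := by
    have h2 : G.coeff 1 = (derivative G).eval 0 := by
      rw [← coeff_zero_eq_eval_zero, coeff_derivative]
      simp
    rw [h2, hG]
    simp [derivative_pow]
    ring
  have h := (cur hCH (e + 1) G (fun t _ => ?_)).2
  · rw [h0, h1, vec_add, vec_C_mul, vec_C_mul, vec_PU, ← pw_eq] at h
    have h3 := (Tan (e + 1) (a • pw (e + 1) l + b • pw (e + 1) l')).smul_mem
      ((a * (e + 1))⁻¹) h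
    rw [smul_smul, inv_mul_cancel₀, one_smul] at h3
    · exact h3
    · refine mul_ne_zero ha ?_
      exact_mod_cast Nat.succ_ne_zero e
  · rw [hG]
    simp only [eval_add, eval_C, eval_mul, eval_X, eval_pow]
    rw [vec_add, vec_C_mul, vec_PU]
    have h4 : L + M * C t = C (l.1 + t * m.1) + C (l.2 + t * m.2) * X := by
      rw [hL, hM]
      simp only [C_add, C_mul]
      ring
    rw [h4]
    have h5 := pw_eq (e + 1) (l.1 + t * m.1, l.2 + t * m.2)
    rw [← h5]
    exact hMEM _ hd a b _ _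

namespace PkgL5

/-- `a + b X` is in the variety -/
lemma mem_inf (hCH : S_CH) (hMEM : S_MEM) (d : ℕ) (hd : 2 ≤ d) (a b : ℂ) :
    vec d (C a + C b * X) ∈ Sec d := by
  have hdc : (d : ℂ) ≠ 0 := by exact_mod_cast (by omega : d ≠ 0)
  -- `(1 + t X)^d - 1 = t * R`
  obtain ⟨R, hR⟩ : ∃ R : ℂ[X][X], (1 + X * C X) ^ d - 1 = X * R := by
    have h := sub_dvd_pow_sub_pow (1 + X * C X : ℂ[X][X]) 1 d
    rw [one_pow, add_sub_cancel_left] at h
    exact dvd_trans (dvd_mul_right _ _) h
  have hR0 : R.coeff 0 = C (d : ℂ) * X := by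
    have h1 : (X * R : ℂ[X][X]).coeff 1 = R.coeff 0 := by
      rw [show (1 : ℕ) = 0 + 1 from rfl, coeff_X_mul]
    have h2 : (X * R : ℂ[X][X]).coeff 1 = (derivative (X * R)).eval 0 := by
      rw [← coeff_zero_eq_eval_zero, coeff_derivative]
      simp
    rw [← h1, h2, ← hR]
    simp [derivative_pow]
  have h := (cur hCH d (C (C a) + C (C (b / d)) * R) (fun t ht => ?_)).1
  · have h3 : (C (C a) + C (C (b / d)) * R : ℂ[X][X]).coeff 0 = C a + C b * X := by
      rw [coeff_add, coeff_C_mul, coeff_C_zero, hR0, ← mul_assoc, ← C_mul, div_mul_cancel₀ _ hdc]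
    rw [h3] at h
    exact h
  · have h4 : C t * R.eval (C t) = (1 + C t * X) ^ d - 1 := by
      have := congrArg (eval (C t)) hR
      simp only [eval_sub, eval_pow, eval_add, eval_one, eval_mul, eval_X, eval_C] at this
      exact this.symm
    have h5 : R.eval (C t) = C t⁻¹ * ((1 + C t * X) ^ d - 1) := by
      rw [← h4, ← mul_assoc, ← C_mul, inv_mul_cancel₀ ht, C_1, one_mul]
    rw [eval_add, eval_mul, eval_C, eval_C, h5]
    have h6 : C a + C (b / d) * (C t⁻¹ * ((1 + C t * X) ^ d - 1)) =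
        C (a - b / d * t⁻¹) * (C 1 + C 0 * X) ^ d + C (b / d * t⁻¹) * (C 1 + C t * X) ^ d := by
      simp only [C_sub, C_mul, C_0, C_1, zero_mul, add_zero, one_pow]
      ring
    rw [h6, vec_add, vec_C_mul, vec_C_mul]
    have h7 := pw_eq d (1, 0)
    have h8 := pw_eq d (1, t)
    rw [← h7, ← h8]
    exact hMEM d (by omega) _ _ _ _

end PkgL5

theorem pL5 (hCH : S_CH) (hMEM : S_MEM) : S_L5 := by
  intro d hd a b
  have h := (cur hCH d (C (C a + C b * X) + X) (fun t ht => ?_)).2
  · simp only [coeff_add, coeff_C_zero, coeff_X_zero, add_zero, coeff_C_succ, coeff_X_one,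
      zero_add] at h
    exact h
  · rw [eval_add, eval_C, eval_X]
    have := PkgL5.mem_inf hCH hMEM d hd (a + t) b
    rw [C_add] at this
    convert this using 2
    ring

end Pool.Agent.T2H23.ED
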