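import Pool.Agent.T2H23.ED.Stm

/-! package DEP -/

set_option autoImplicit false

noncomputable section

open Polynomial

namespace Pool.Agent.T2H23.ED

namespace PkgDEP

lemma eval_aeval {e m : ℕ} (φ : Fin e → MvPolynomial (Fin m) ℂ) (z : Fin m → ℂ) (D : MvPolynomial (Fin e) ℂ) :
    MvPolynomial.eval z (MvPolynomial.aeval φ D) = MvPolynomial.eval (fun i => MvPolynomial.eval z (φ i)) D := by
  induction D using MvPolynomial.induction_on with
  | C a => simp
  | add p q hp hq => rw [map_add, map_add, map_add, hp, hq]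
  | mul_X p i hp => rw [map_mul, map_mul, map_mul, hp, MvPolynomial.aeval_X, MvPolynomial.eval_X]

end PkgDEP

theorem pDEP : S_DEP := by
  intro d m hm φ
  by_contra hcon
  push Not at hcon
  have hinj : AlgebraicIndependent ℂ φ := by
    rw [algebraicIndependent_iff]
    intro D hD
    by_contra hD0
    obtain ⟨z, hz⟩ := hcon D hD0
    apply hz
    rw [← PkgDEP.eval_aeval, hD, map_zero]
  have h2 := hinj.cardinalMk_le_trdeg
  rw [MvPolynomial.trdeg_of_isDomain] at h2
  simp at h2
  have h3 : d + 1 ≤ m := by exact_mod_cast h2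
  omega

end Pool.Agent.T2H23.ED
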