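import Pool.Agent.T2H23.ED.Stm

/-! package EXC -/

set_option autoImplicit false

noncomputable section

open Polynomial

namespace Pool.Agent.T2H23.ED

namespace PkgEXC

/-- the variables -/
def zz (d : ℕ) (z : Fin 3 → ℂ) (h : ℂ[X]) : Fin d → ℂ := fun i =>
  if hi : (i : ℕ) < 3 then z ⟨i, hi⟩ else h.coeff ((i : ℕ) - 3)

def ren (d : ℕ) (hd : 3 ≤ d) : MvPolynomial (Fin 3) ℂ →+* MvPolynomial (Fin d) ℂ :=
  (MvPolynomial.rename (Fin.castLE hd)).toRingHom

lemma eval_ren (d : ℕ) (hd : 3 ≤ d) (z : Fin 3 → ℂ) (h : ℂ[X]) :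
    (MvPolynomial.eval (zz d z h)).comp (ren d hd) = MvPolynomial.eval z := by
  apply MvPolynomial.ringHom_ext
  · intro r
    simp [ren]
  · intro i
    simp [ren, zz]

def hh (d : ℕ) : Polynomial (MvPolynomial (Fin d) ℂ) :=
  ∑ i : Fin d, if (i : ℕ) < 3 then 0 else C (MvPolynomial.X i) * X ^ ((i : ℕ) - 3)

lemma hh_map (d : ℕ) (hd : 4 ≤ d) (z : Fin 3 → ℂ) (h : ℂ[X]) (hh' : h.natDegree ≤ d - 4) :
    (hh d).map (MvPolynomial.eval (zz d z h)) = h := by
  unfold hh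
  rw [Polynomial.map_sum]
  have h1 : ∀ i : Fin d, Polynomial.map (MvPolynomial.eval (zz d z h))
      (if (i : ℕ) < 3 then 0 else C (MvPolynomial.X i) * X ^ ((i : ℕ) - 3)) =
      if (i : ℕ) < 3 then 0 else C (h.coeff ((i : ℕ) - 3)) * X ^ ((i : ℕ) - 3) := by
    intro i
    split_ifs with hi
    · simp
    · simp [zz, hi]
  rw [Finset.sum_congr rfl fun i _ => h1 i]
  rw [Fin.sum_univ_eq_sum_range (fun i : ℕ => if i < 3 then (0 : ℂ[X]) else C (h.coeff (i - 3)) * X ^ (i - 3)) d]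
  obtain ⟨e, rfl⟩ : ∃ e, d = 3 + e := ⟨d - 3, by omega⟩
  rw [Finset.sum_range_add]
  simp only [Finset.sum_range_succ, Finset.sum_range_zero]
  simp
  conv_rhs => rw [Polynomial.as_sum_range' h e (by omega)]
  refine Finset.sum_congr rfl fun i _ => ?_
  rw [Polynomial.C_mul_X_pow_eq_monomial]

end PkgEXC

theorem pEXC (hDEP : S_DEP) : S_EXC := by
  intro d hd F G
  obtain ⟨D, hD, h1⟩ := hDEP d d le_rfl (fun i => (F.map (PkgEXC.ren d (by omega)) +
    G.map (PkgEXC.ren d (by omega)) * PkgEXC.hh d).coeff i)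
  refine ⟨D, hD, fun u hu z h hh hc => hu ?_⟩
  rw [← h1 (PkgEXC.zz d z h)]
  congr 2
  funext i
  rw [← Polynomial.coeff_map, Polynomial.map_add, Polynomial.map_mul, Polynomial.map_map, Polynomial.map_map,
    PkgEXC.eval_ren, PkgEXC.hh_map d hd z h hh, ← hc, PU_coeff]

end Pool.Agent.T2H23.ED
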