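import Pool.Agent.T2H23.ED.Stm

set_option autoImplicit false
set_option linter.unusedSimpArgs false

/-! ED package EXP (helper69): expansions at `θ = 1`. -/

noncomputable section

open Polynomial

namespace Pool.Agent.T2H23.ED.PkgEXP

lemma key {Q : ℂ[X]} {n : ℕ} (h : ∀ i < n, (Q.comp (X + C 1)).coeff i = 0) :
    ∃ b : ℂ[X], Q = (X - 1) ^ n * b ∧ b.eval 1 = (Q.comp (X + C 1)).coeff n := by
  obtain ⟨b, hb⟩ := (X_sub_C_pow_dvd_iff (t := (1 : ℂ))).2 (X_pow_dvd_iff.2 h)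
  refine ⟨b, by rw [hb, C_1], ?_⟩
  rw [hb, mul_comp, pow_comp, sub_comp, X_comp, C_comp, add_sub_cancel_right, coeff_X_pow_mul',
    if_pos le_rfl, Nat.sub_self, coeff_zero_eq_eval_zero, eval_comp]
  simp

lemma cm2 (P Q : ℂ[X]) : (P * Q).coeff 2 =
    P.coeff 0 * Q.coeff 2 + P.coeff 1 * Q.coeff 1 + P.coeff 2 * Q.coeff 0 := by
  simp [coeff_mul, Finset.Nat.antidiagonal_succ]
  ring

lemma cm3 (P Q : ℂ[X]) : (P * Q).coeff 3 =
    P.coeff 0 * Q.coeff 3 + P.coeff 1 * Q.coeff 2 + P.coeff 2 * Q.coeff 1 +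
      P.coeff 3 * Q.coeff 0 := by
  simp [coeff_mul, Finset.Nat.antidiagonal_succ]
  ring

lemma cm4 (P Q : ℂ[X]) : (P * Q).coeff 4 =
    P.coeff 0 * Q.coeff 4 + P.coeff 1 * Q.coeff 3 + P.coeff 2 * Q.coeff 2 +
      P.coeff 3 * Q.coeff 1 + P.coeff 4 * Q.coeff 0 := by
  simp [coeff_mul, Finset.Nat.antidiagonal_succ]
  ring

lemma ch2 (k : ℕ) : ((k.choose 2 : ℕ) : ℂ) = k * (k - 1) / 2 := by
  induction k with
  | zero => simp
  | succ k ih =>
    rw [Nat.choose_succ_succ' k 1]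
    push_cast
    rw [ih, Nat.choose_one_right]
    ring

lemma ch3 (k : ℕ) : ((k.choose 3 : ℕ) : ℂ) = k * (k - 1) * (k - 2) / 6 := by
  induction k with
  | zero => simp
  | succ k ih =>
    rw [Nat.choose_succ_succ' k 2]
    push_cast
    rw [ih, ch2]
    ring

lemma ch4 (k : ℕ) : ((k.choose 4 : ℕ) : ℂ) = k * (k - 1) * (k - 2) * (k - 3) / 24 := by
  induction k with
  | zero => simp
  | succ k ih =>
    rw [Nat.choose_succ_succ' k 3]
    push_cast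
    rw [ih, ch3]
    ring

lemma ch5 (k : ℕ) : ((k.choose 5 : ℕ) : ℂ) = k * (k - 1) * (k - 2) * (k - 3) * (k - 4) / 120 := by
  induction k with
  | zero => simp
  | succ k ih =>
    rw [Nat.choose_succ_succ' k 4]
    push_cast
    rw [ih, ch4]
    ring

/-- coefficients of `(X + 1)^k` -/
lemma cX (k n : ℕ) : ((X + C (1 : ℂ)) ^ k).coeff n = ((k.choose n : ℕ) : ℂ) := by
  rw [coeff_X_add_C_pow]
  simp

/-- coefficients of `(X + 2)^m` -/
lemma cX2 (m n : ℕ) :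
    ((X + C (2 : ℂ)) ^ m).coeff n = 2 ^ m / 2 ^ n * ((m.choose n : ℕ) : ℂ) := by
  rw [coeff_X_add_C_pow]
  by_cases h : n ≤ m
  · rw [pow_sub₀ _ two_ne_zero h]
    rfl
  · rw [Nat.choose_eq_zero_of_lt (by omega)]
    simp

/-- coefficients of `k (X + 1)^(k-1)` -/
lemma cXk (k n : ℕ) : (C (k : ℂ) * (X + C (1 : ℂ)) ^ (k - 1)).coeff n =
    ((n : ℂ) + 1) * ((k.choose (n + 1) : ℕ) : ℂ) := by
  rw [coeff_C_mul, cX]
  rcases k with _ | k
  · simp
  · rw [Nat.add_sub_cancel]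
    have := Nat.add_one_mul_choose_eq k n
    have h2 : ((k : ℂ) + 1) * (k.choose n : ℂ) = ((k + 1).choose (n + 1) : ℂ) * (n + 1) := by
      exact_mod_cast this
    push_cast
    rw [h2]
    ring

end PkgEXP

open PkgEXP

theorem pEXP : S_EXP := by
  intro d k hd hk
  obtain ⟨m, rfl⟩ : ∃ m, d = m + 1 := ⟨d - 1, by omega⟩
  have hd0 : (((m + 1 : ℕ) : ℂ)) ≠ 0 := by exact_mod_cast (by omega : m + 1 ≠ 0)
  set D : ℂ := ((m + 1 : ℕ) : ℂ) with hD
  have hm : (m : ℂ) = D - 1 := by rw [hD]; push_cast; ring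
  -- the pieces
  obtain ⟨p, hp⟩ : ∃ p : ℂ[X], p = (X + C 1) ^ k := ⟨_, rfl⟩
  obtain ⟨q, hq⟩ : ∃ q : ℂ[X], q = C (k : ℂ) * (X + C 1) ^ (k - 1) := ⟨_, rfl⟩
  obtain ⟨r, hr⟩ : ∃ r : ℂ[X], r = (X + C 1) ^ m := ⟨_, rfl⟩
  obtain ⟨s, hs⟩ : ∃ s : ℂ[X], s = (X + C 2) ^ m := ⟨_, rfl⟩
  obtain ⟨α, hα⟩ : ∃ α : ℂ, α = (2 : ℂ) ^ m * (2 * (k : ℂ) / D - 1) := ⟨_, rfl⟩
  have h12 : (1 : ℂ[X]) + (X + C 1) = X + C 2 := by
    rw [show (2 : ℂ) = 1 + 1 by norm_num, C_add, C_1]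
    ring
  have hF : (ff (m + 1) k).comp (X + C 1) = C α * p - s * (C (k / D) * (X + C 2) - 1) := by
    unfold ff
    simp only [sub_comp, mul_comp, pow_comp, add_comp, C_comp, X_comp, one_comp,
      Nat.add_sub_cancel]
    rw [h12, hp, hs, hα]
  have hG : (gg (m + 1) k).comp (X + C 1) =
      C α * r - s * (C (1 / D) * (X + C 2) * q - p) := by
    unfold gg
    simp only [sub_comp, mul_comp, pow_comp, add_comp, C_comp, X_comp, one_comp,
      Nat.add_sub_cancel]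
    rw [h12, hp, hq, hr, hs, hα]
    have : C ((k : ℂ) / D) = C (1 / D) * C (k : ℂ) := by
      rw [← C_mul]
      congr 1
      ring
    rw [this]
    ring
  have p0 : p.coeff 0 = 1 := by rw [hp, cX]; simp
  have p1 : p.coeff 1 = k := by rw [hp, cX]; simp
  have p2 : p.coeff 2 = k * (k - 1) / 2 := by rw [hp, cX, ch2]
  have p3 : p.coeff 3 = k * (k - 1) * (k - 2) / 6 := by rw [hp, cX, ch3]
  have p4 : p.coeff 4 = k * (k - 1) * (k - 2) * (k - 3) / 24 := by rw [hp, cX, ch4]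
  have q0 : q.coeff 0 = k := by rw [hq, cXk]; simp
  have q1 : q.coeff 1 = k * (k - 1) := by rw [hq, cXk, ch2]; push_cast; ring
  have q2 : q.coeff 2 = k * (k - 1) * (k - 2) / 2 := by rw [hq, cXk, ch3]; push_cast; ring
  have q3 : q.coeff 3 = k * (k - 1) * (k - 2) * (k - 3) / 6 := by
    rw [hq, cXk, ch4]; push_cast; ring
  have q4 : q.coeff 4 = k * (k - 1) * (k - 2) * (k - 3) * (k - 4) / 24 := by
    rw [hq, cXk, ch5]; push_cast; ring
  have r0 : r.coeff 0 = 1 := by rw [hr, cX]; simp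
  have r1 : r.coeff 1 = D - 1 := by rw [hr, cX]; simp [hm]
  have r2 : r.coeff 2 = (D - 1) * (D - 2) / 2 := by rw [hr, cX, ch2, hm]; ring
  have r3 : r.coeff 3 = (D - 1) * (D - 2) * (D - 3) / 6 := by rw [hr, cX, ch3, hm]; ring
  have r4 : r.coeff 4 = (D - 1) * (D - 2) * (D - 3) * (D - 4) / 24 := by
    rw [hr, cX, ch4, hm]; ring
  have s0 : s.coeff 0 = 2 ^ m := by rw [hs, cX2]; simp
  have s1 : s.coeff 1 = 2 ^ m * ((D - 1) / 2) := by rw [hs, cX2]; simp [hm]; ring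
  have s2 : s.coeff 2 = 2 ^ m * ((D - 1) * (D - 2) / 8) := by rw [hs, cX2, ch2, hm]; ring
  have s3 : s.coeff 3 = 2 ^ m * ((D - 1) * (D - 2) * (D - 3) / 48) := by
    rw [hs, cX2, ch3, hm]; ring
  have s4 : s.coeff 4 = 2 ^ m * ((D - 1) * (D - 2) * (D - 3) * (D - 4) / 384) := by
    rw [hs, cX2, ch4, hm]; ring
  set F : ℂ[X] := (ff (m + 1) k).comp (X + C 1) with hFd
  set G : ℂ[X] := (gg (m + 1) k).comp (X + C 1) with hGd
  have x0 : (X : ℂ[X]).coeff 0 = 0 := coeff_X_zero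
  have x1 : (X : ℂ[X]).coeff 1 = 1 := coeff_X_one
  have x2 : (X : ℂ[X]).coeff 2 = 0 := by rw [coeff_X]; norm_num
  have x3 : (X : ℂ[X]).coeff 3 = 0 := by rw [coeff_X]; norm_num
  have x4 : (X : ℂ[X]).coeff 4 = 0 := by rw [coeff_X]; norm_num
  have c0 : ∀ c : ℂ, (C c).coeff 0 = c := fun c => coeff_C_zero
  have c1 : ∀ c : ℂ, (C c).coeff 1 = 0 := fun c => by rw [coeff_C]; norm_num
  have c2 : ∀ c : ℂ, (C c).coeff 2 = 0 := fun c => by rw [coeff_C]; norm_num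
  have c3 : ∀ c : ℂ, (C c).coeff 3 = 0 := fun c => by rw [coeff_C]; norm_num
  have c4 : ∀ c : ℂ, (C c).coeff 4 = 0 := fun c => by rw [coeff_C]; norm_num
  have o0 : (1 : ℂ[X]).coeff 0 = 1 := by rw [← C_1]; exact c0 1
  have o1 : (1 : ℂ[X]).coeff 1 = 0 := by rw [← C_1]; exact c1 1
  have o2 : (1 : ℂ[X]).coeff 2 = 0 := by rw [← C_1]; exact c2 1
  have o3 : (1 : ℂ[X]).coeff 3 = 0 := by rw [← C_1]; exact c3 1
  have o4 : (1 : ℂ[X]).coeff 4 = 0 := by rw [← C_1]; exact c4 1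
  have F0 : F.coeff 0 = α - 2 ^ m * (2 * k / D - 1) := by
    rw [hF]
    simp only [coeff_sub, coeff_add, mul_coeff_zero, mul_coeff_one, cm2, cm3, cm4, x0, x1, x2, x3,
      x4, c0, c1, c2, c3, c4, o0, o1, o2, o3, o4, p0, s0]
    ring
  have F1 : F.coeff 1 = α * k - 2 ^ m * (k / D + (D - 1) / 2 * (2 * k / D - 1)) := by
    rw [hF]
    simp only [coeff_sub, coeff_add, mul_coeff_zero, mul_coeff_one, cm2, cm3, cm4, x0, x1, x2, x3,
      x4, c0, c1, c2, c3, c4, o0, o1, o2, o3, o4, p0, p1, s0, s1]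
    ring
  have F2 : F.coeff 2 = α * (k * (k - 1) / 2) - 2 ^ m * ((D - 1) / 2 * (k / D) +
      (D - 1) * (D - 2) / 8 * (2 * k / D - 1)) := by
    rw [hF]
    simp only [coeff_sub, coeff_add, mul_coeff_zero, mul_coeff_one, cm2, cm3, cm4, x0, x1, x2, x3,
      x4, c0, c1, c2, c3, c4, o0, o1, o2, o3, o4, p0, p1, p2, s0, s1, s2]
    ring
  have F3 : F.coeff 3 = α * (k * (k - 1) * (k - 2) / 6) - 2 ^ m * ((D - 1) * (D - 2) / 8 * (k / D) +
      (D - 1) * (D - 2) * (D - 3) / 48 * (2 * k / D - 1)) := by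
    rw [hF]
    simp only [coeff_sub, coeff_add, mul_coeff_zero, mul_coeff_one, cm2, cm3, cm4, x0, x1, x2, x3,
      x4, c0, c1, c2, c3, c4, o0, o1, o2, o3, o4, p0, p1, p2, p3, s0, s1, s2, s3]
    ring
  have F4 : F.coeff 4 = α * (k * (k - 1) * (k - 2) * (k - 3) / 24) -
      2 ^ m * ((D - 1) * (D - 2) * (D - 3) / 48 * (k / D) +
      (D - 1) * (D - 2) * (D - 3) * (D - 4) / 384 * (2 * k / D - 1)) := by
    rw [hF]
    simp only [coeff_sub, coeff_add, mul_coeff_zero, mul_coeff_one, cm2, cm3, cm4, x0, x1, x2, x3,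
      x4, c0, c1, c2, c3, c4, o0, o1, o2, o3, o4, p0, p1, p2, p3, p4, s0, s1, s2, s3, s4]
    ring
  have hAD : (((m + 1 : ℕ) : ℂ) - 2) = D - 2 := rfl
  -- first part
  have hA : ∀ i < 1, ((ff (m + 1) k - gg (m + 1) k).comp (X + C 1)).coeff i = 0 := by
    intro i hi
    obtain rfl : i = 0 := by omega
    rw [sub_comp, ← hFd, ← hGd, coeff_sub, F0, hG]
    simp only [coeff_sub, coeff_add, mul_coeff_zero, mul_coeff_one, cm2, cm3, cm4, x0, x1, x2, x3,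
      x4, c0, c1, c2, c3, c4, o0, o1, o2, o3, o4, p0, q0, r0, s0]
    field_simp
    ring
  obtain ⟨a, ha, ha1⟩ := key hA
  obtain ⟨Q, hQ⟩ : ∃ Q : ℂ[X], Q = 2 * (X + 1) * (ff (m + 1) k + gg (m + 1) k) +
    C (D - 2) * (X - 1) * (ff (m + 1) k - gg (m + 1) k) := ⟨_, rfl⟩
  have hQc : Q.comp (X + C 1) = C 2 * (X + C 2) * (F + G) + C (D - 2) * X * (F - G) := by
    have e2 : (2 : ℂ[X]) = C 2 := (map_ofNat C 2).symm
    rw [hQ, e2]
    simp only [sub_comp, mul_comp, pow_comp, add_comp, C_comp, X_comp, one_comp]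
    rw [← hFd, ← hGd, add_comm (X + C (1:ℂ)) 1, h12, C_1]
    ring
  have hB : ∀ i < 4, (Q.comp (X + C 1)).coeff i = 0 := by
    intro i hi
    rw [hQc, hG]
    interval_cases i
    · simp only [coeff_sub, coeff_add, mul_coeff_zero, mul_coeff_one, cm2, cm3, cm4, x0, x1, x2,
        x3, x4, c0, c1, c2, c3, c4, o0, o1, o2, o3, o4, p0, p1, p2, p3, p4, q0, q1, q2, q3, q4,
        r0, r1, r2, r3, r4, s0, s1, s2, s3, s4, F0, F1, F2, F3, F4, hα]
      field_simp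
      ring
    · simp only [coeff_sub, coeff_add, mul_coeff_zero, mul_coeff_one, cm2, cm3, cm4, x0, x1, x2,
        x3, x4, c0, c1, c2, c3, c4, o0, o1, o2, o3, o4, p0, p1, p2, p3, p4, q0, q1, q2, q3, q4,
        r0, r1, r2, r3, r4, s0, s1, s2, s3, s4, F0, F1, F2, F3, F4, hα]
      field_simp
      ring
    · simp only [coeff_sub, coeff_add, mul_coeff_zero, mul_coeff_one, cm2, cm3, cm4, x0, x1, x2,
        x3, x4, c0, c1, c2, c3, c4, o0, o1, o2, o3, o4, p0, p1, p2, p3, p4, q0, q1, q2, q3, q4,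
        r0, r1, r2, r3, r4, s0, s1, s2, s3, s4, F0, F1, F2, F3, F4, hα]
      field_simp
      ring
    · simp only [coeff_sub, coeff_add, mul_coeff_zero, mul_coeff_one, cm2, cm3, cm4, x0, x1, x2,
        x3, x4, c0, c1, c2, c3, c4, o0, o1, o2, o3, o4, p0, p1, p2, p3, p4, q0, q1, q2, q3, q4,
        r0, r1, r2, r3, r4, s0, s1, s2, s3, s4, F0, F1, F2, F3, F4, hα]
      field_simp
      ring
  obtain ⟨b, hb, hb1⟩ := key hB
  refine ⟨a, b, by rw [ha, pow_one], by rw [← hb, hQ], ?_, ?_⟩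
  · rw [ha1, sub_comp, ← hFd, ← hGd, coeff_sub, F1, hG]
    simp only [coeff_sub, coeff_add, mul_coeff_zero, mul_coeff_one, cm2, cm3, cm4, x0, x1, x2, x3,
      x4, c0, c1, c2, c3, c4, o0, o1, o2, o3, o4, p0, p1, q0, q1, r0, r1, s0, s1, hα,
      Nat.add_sub_cancel]
    field_simp
    ring
  · rw [hb1, hQc, hG]
    simp only [coeff_sub, coeff_add, mul_coeff_zero, mul_coeff_one, cm2, cm3, cm4, x0, x1, x2,
      x3, x4, c0, c1, c2, c3, c4, o0, o1, o2, o3, o4, p0, p1, p2, p3, p4, q0, q1, q2, q3, q4,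
      r0, r1, r2, r3, r4, s0, s1, s2, s3, s4, F0, F1, F2, F3, F4, hα, Nat.add_sub_cancel]
    field_simp
    ring

end Pool.Agent.T2H23.ED
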