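import Pool.Agent.T2H23.ED.Stm

/-!
# Package TT and the final assembly
-/

set_option autoImplicit false

noncomputable section

open Polynomial

namespace Pool.Agent.T2H23.ED

theorem pTT (h0 : S_V0) (h1 : S_V1) : S_TT := by
  intro d hd
  have hcop : IsCoprime ((X : (AA d)[X]) ^ (d - 1)) (((X : (AA d)[X]) - 1) ^ (5 * d)) := by
    refine IsCoprime.pow ?_
    exact ⟨1, -1, by ring⟩
  obtain ⟨T, hT⟩ := hcop.mul_dvd (h0 d (by omega)) (h1 d (by omega))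
  exact ⟨T, hT⟩

theorem pFIN (hTT : S_TT) (hGEN : S_GEN) (hCNT : S_CNT) (hTRA : S_TRA) : S_FIN := by
  intro d hd
  have hd2 : 9 * d ≤ 3 * d ^ 2 + 2 := by nlinarith
  obtain ⟨n, hn⟩ : ∃ n, n + 9 * d = 3 * d ^ 2 + 2 := ⟨3 * d ^ 2 + 2 - 9 * d, by omega⟩
  obtain ⟨T, hT⟩ := hTT d hd
  have hg := hGEN d n hd hn T hT
  have h2 : Gen d (fun u => (Crit2 d u).Finite ∧ 2 * (Crit2 d u).ncard = n) := by
    refine gen_mono hg fun u hu => ?_
    obtain ⟨hgood, hdeg, h0, h1, hsim⟩ := hu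
    refine hCNT d n hd u (sp u T) ?_ hgood hdeg h0 h1 hsim
    rw [← sp_RR, hT]
    simp [sp]
  obtain ⟨D, hD, h⟩ := hTRA d n h2
  refine ⟨D, hD, fun u hu => ?_⟩
  obtain ⟨hf, hc⟩ := h u hu
  exact ⟨hf, by omega⟩

end Pool.Agent.T2H23.ED
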