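import Pool.Agent.T2H23.ED.Stm

/-!
# Package GEC : sums of two powers are critical points
-/

set_option autoImplicit false

noncomputable section

open Polynomial

namespace Pool.Agent.T2H23.ED

namespace PkgGEC

lemma tan1 (hL2 : S_L2) (d : ℕ) (hd : 1 ≤ d) (p a : ℂ) (b : ℂ) (l' : ℂ × ℂ) (ha : a ≠ 0) :
    vec d ((X + C p) ^ d) ∈ Tan d (a • pw d (p, 1) + b • pw d l') ∧
    vec d ((X + C p) ^ (d - 1)) ∈ Tan d (a • pw d (p, 1) + b • pw d l') := by
  have h1 := hL2 d hd a b (p, 1) l' (p, 1) ha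
  have h2 := hL2 d hd a b (p, 1) l' (1, 0) ha
  simp only [C_1, one_mul, C_0, zero_mul, add_zero, mul_one] at h1 h2
  rw [add_comm (C p) X] at h1 h2
  rw [← pow_succ, Nat.sub_add_cancel hd] at h1
  exact ⟨h1, h2⟩

end PkgGEC

open PkgGEC in
theorem pGEC (hMEM : S_MEM) (hL2 : S_L2) (hU1 : S_U1) (hU2 : S_U2) : S_GEC := by
  intro d hd u p q a b hpq ha hb hDR
  obtain ⟨h, hh, hu⟩ := hDR
  have hc : vec d (C a * (X + C p) ^ d + C b * (X + C q) ^ d) =
      a • pw d (p, 1) + b • pw d (q, 1) := by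
    rw [vec_add, vec_C_mul, vec_C_mul, pw_one, pw_one]
  have hU := hU1 d hd p q a b hpq ha hb
  have e1 := tan1 hL2 d (by omega) p a b (q, 1) ha
  have e2 := tan1 hL2 d (by omega) q b a (p, 1) hb
  rw [add_comm (b • pw d (q, 1))] at e2
  rw [← hc] at e1 e2
  refine ⟨?_, ?_, ?_⟩
  · rw [hc]
    exact hMEM d (by omega) a b _ _
  · exact hU2 d hd p q hpq _ e1.1 e1.2 e2.1 e2.2 hU
  · intro v hv
    have h1 : vec d (C a * (X + C p) ^ d + C b * (X + C q) ^ d) - u =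
        (-1 : ℂ) • vec d ((X - C p) ^ 2 * (X - C q) ^ 2 * h) := by
      rw [← vec_PU d u, hu, ← vec_sub, ← vec_C_mul]
      congr 1
      simp only [C_neg, C_1]
      ring
    rw [h1, B2_smul_left, hU v hv h hh, mul_zero]

end Pool.Agent.T2H23.ED
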