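import Pool.Agent.T2H23.ED.Stm

/-!
# Package GEN : generic facts
-/

set_option autoImplicit false

noncomputable section

open Polynomial

namespace Pool.Agent.T2H23.ED

theorem pGEN (hGOOD : S_GOOD) (hK1 : S_K1) (hK2 : S_K2) (hK3 : S_K3) (hSYM : S_SYM) (hVAL : S_VAL)
    (hONE : S_ONE) (hPAR : S_PAR) (hSQF : S_SQF) : S_GEN := by
  intro d n hd hn T hT
  have hn0 : 0 < n := by nlinarith
  have hspec : ∀ u : V d,
      RU d u = Polynomial.X ^ (d - 1) * (Polynomial.X - 1) ^ (5 * d) * sp u T := by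
    intro u
    rw [← sp_RR, hT]
    simp [sp]
  have hev : ∀ (u : V d) (r : ℂ), (sp u T).eval r =
      MvPolynomial.eval u (Polynomial.eval (MvPolynomial.C r) T) := by
    intro u r
    unfold sp
    rw [Polynomial.eval_map, ← Polynomial.eval₂_at_apply, MvPolynomial.eval_C]
  have hroot : ∀ (u : V d) (θ : ℂ), θ ≠ 0 → θ ≠ 1 →
      ((RU d u).eval θ = 0 ↔ (sp u T).eval θ = 0) := by
    intro u θ hθ0 hθ1
    rw [hspec u, eval_mul, eval_mul, eval_pow, eval_pow, eval_sub, eval_X, eval_one]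
    have h2 : θ ^ (d - 1) * (θ - 1) ^ (5 * d) ≠ 0 :=
      mul_ne_zero (pow_ne_zero _ hθ0) (pow_ne_zero _ (sub_ne_zero.2 hθ1))
    constructor
    · intro h
      exact (mul_eq_zero.1 h).resolve_left h2
    · intro h
      rw [h, mul_zero]
  obtain ⟨⟨u1, hu1⟩, ⟨u0, hu0⟩⟩ := hVAL d hd
  obtain ⟨u2, hu2⟩ := hONE d hd
  have hD0 : Polynomial.eval (MvPolynomial.C 0) T ≠ 0 := by
    intro h
    apply hu1 _ (hspec u1)
    rw [hev, h, map_zero]
  have hD1 : Polynomial.eval (MvPolynomial.C 1) T ≠ 0 := by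
    intro h
    apply hu2 _ (hspec u2)
    rw [hev, h, map_zero]
  have hG0 : Gen d fun u => (sp u T).eval 0 ≠ 0 :=
    ⟨_, hD0, fun u hu => by beta_reduce; rw [hev]; exact hu⟩
  have hG1 : Gen d fun u => (sp u T).eval 1 ≠ 0 :=
    ⟨_, hD1, fun u hu => by beta_reduce; rw [hev]; exact hu⟩
  have hdeg : ∀ u : V d, (sp u T).eval 0 ≠ 0 → (sp u T).natDegree = n := by
    intro u hu
    obtain ⟨h1, h2⟩ := hSYM d n hd hn u (sp u T) (hspec u)
    refine le_antisymm h1 (le_natDegree_of_ne_zero ?_)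
    rw [h2, coeff_zero_eq_eval_zero]
    exact hu
  have hG : Gen d fun u => Good d u ∧ (sp u T).eval 0 ≠ 0 ∧ (sp u T).eval 1 ≠ 0 :=
    gen_and (hGOOD d hd) (gen_and hG0 hG1)
  obtain ⟨N, φ, τ, g, hg, hpar1, hpar2⟩ := hPAR d hd
  have hS : Gen d fun u => ∀ θ : ℂ, (sp u T).eval θ = 0 → (derivative (sp u T)).eval θ ≠ 0 := by
    refine hSQF (d + 1) N T φ τ g hg ?_ ?_ ?_
    · intro z hz
      obtain ⟨p, a, b, hp, hτ0, hτ1, hDR⟩ := hpar1 z hz
      have h1 := (hK1 d hd _ p _ hp hτ0 hτ1).1 ⟨a, b, hDR⟩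
      have h2 := (hK3 d (by omega) _ _ p h1.1 h1.2).1
      exact (hroot _ _ hτ0 hτ1).1 h2
    · obtain ⟨D, hD, h⟩ := hG
      refine ⟨D, hD, fun u hu => ?_⟩
      obtain ⟨hgood, h0, h1⟩ := h u hu
      refine ⟨?_, ?_⟩
      · have h2 : (sp u T).degree ≠ 0 := by
          intro h3
          have h4 := natDegree_eq_zero_iff_degree_le_zero.2 h3.le
          rw [hdeg u h0] at h4
          omega
        obtain ⟨θ, hθ⟩ := IsAlgClosed.exists_root (sp u T) h2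
        exact ⟨θ, hθ⟩
      · intro θ hθ
        have hθ' : (sp u T).eval θ = 0 := hθ
        have hθ0 : θ ≠ 0 := by
          rintro rfl
          exact h0 hθ'
        have hθ1 : θ ≠ 1 := by
          rintro rfl
          exact h1 hθ'
        obtain ⟨p, hp, h2, h3⟩ := hK2 d hd u θ hgood.1 hgood.2.1 hθ0 hθ1
          ((hroot u θ hθ0 hθ1).2 hθ')
        obtain ⟨a, b, hDR⟩ := (hK1 d hd u p θ hp hθ0 hθ1).2 ⟨h2, h3⟩
        exact hpar2 u p θ a b hDR
    · exact ⟨u0, 0, (hu0 _ (hspec u0)).1, (hu0 _ (hspec u0)).2⟩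
  refine gen_mono (gen_and hG hS) fun u hu => ?_
  obtain ⟨⟨hgood, h0, h1⟩, hs⟩ := hu
  exact ⟨hgood, hdeg u h0, h0, h1, hs⟩

end Pool.Agent.T2H23.ED
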