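import Pool.Agent.T2H23.ED.Stm

set_option autoImplicit false

noncomputable section

open Polynomial

namespace Pool.Agent.T2H23.ED

namespace PkgGEO

lemma sq_dvd (r : ℂ[X]) (p : ℂ) (h0 : r.eval p = 0) (h1 : (derivative r).eval p = 0) :
    (X - C p) ^ 2 ∣ r := by
  obtain ⟨s, hs⟩ := dvd_iff_isRoot.2 h0
  rw [hs, derivative_mul, derivative_sub, derivative_X, derivative_C, sub_zero, one_mul,
    eval_add, eval_mul, eval_sub, eval_X, eval_C, sub_self, zero_mul, add_zero] at h1
  obtain ⟨t, ht⟩ := dvd_iff_isRoot.2 h1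
  exact ⟨t, by rw [hs, ht]; ring⟩

lemma dvd_of (r : ℂ[X]) (p q : ℂ) (hpq : p ≠ q) (h0 : r.eval p = 0)
    (h1 : (derivative r).eval p = 0) (h2 : r.eval q = 0) (h3 : (derivative r).eval q = 0) :
    (X - C p) ^ 2 * (X - C q) ^ 2 ∣ r := by
  refine IsCoprime.mul_dvd ?_ (sq_dvd r p h0 h1) (sq_dvd r q h2 h3)
  exact (isCoprime_X_sub_C_of_isUnit_sub (sub_ne_zero.2 hpq).isUnit).pow

lemma quot_deg (r G h : ℂ[X]) (n m : ℕ) (hG : G.Monic) (hGn : G.natDegree = n)
    (hr : r.natDegree ≤ m) (he : r = G * h) : h.natDegree ≤ m - n := by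
  by_cases h0 : h = 0
  · rw [h0]; simp
  · rw [he, hG.natDegree_mul' h0, hGn] at hr
    omega

lemma vec_mono (d : ℕ) (c : V d) (Q : ℂ[X]) (h : PU d c = Q) : c = vec d Q := by
  rw [← h, vec_PU]

lemma not_top (d : ℕ) (hd : 4 ≤ d) (c : V d) (h : Tan d c = ⊤)
    (h4 : Module.finrank ℂ (Tan d c) = 4) : False := by
  rw [h, finrank_top, Module.finrank_fin_fun] at h4
  omega

end PkgGEO

open PkgGEO

theorem pGEO (hCLS : S_CLS) (hL1 : S_L1) (hL2 : S_L2) (hL4 : S_L4) (hL5 : S_L5)
    (hPR : S_PR) : S_GEO := by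
  intro d hd u hu c hc
  obtain ⟨hsec, hfin, horth⟩ := hc
  obtain ⟨hP1, hP2, hP3⟩ := hPR d (c - u)
  have hw : PU d (c - u) = PU d c - PU d u := PU_sub d c u
  have hd0 : (d : ℂ) ≠ 0 := by exact_mod_cast (show d ≠ 0 by omega)
  -- vanishing of a derivative
  have hder : ∀ j ≤ d, ∀ p : ℂ, vec d ((X + C p) ^ (d - j)) ∈ Tan d c →
      ((derivative^[j]) (PU d (c - u))).eval p = 0 := by
    intro j hj p hp
    rw [← hP1 j hj p, horth _ hp, mul_zero]
  have hlast : vec d 1 ∈ Tan d c → (PU d (c - u)).coeff d = 0 := by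
    intro h
    rw [← hP2, horth _ h]
  have hlast' : vec d X ∈ Tan d c → (PU d (c - u)).coeff (d - 1) = 0 := by
    intro h
    rw [← hP3 (by omega), horth _ h, mul_zero]
  -- tangent vectors by L2
  have tan : ∀ (p a b : ℂ) (l' : ℂ × ℂ), a ≠ 0 → c = a • pw d (p, 1) + b • pw d l' →
      vec d ((X + C p) ^ (d - 0)) ∈ Tan d c ∧ vec d ((X + C p) ^ (d - 1)) ∈ Tan d c := by
    intro p a b l' ha hc
    constructor
    · have := hL2 d (by omega) a b (p, 1) l' (p, 1) ha
      rw [← hc] at this
      convert this using 2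
      simp only [C_1, one_mul, Nat.sub_zero]
      rw [add_comm (C p), ← pow_succ]
      congr 1
      omega
    · have := hL2 d (by omega) a b (p, 1) l' (1, 0) ha
      rw [← hc] at this
      convert this using 2
      simp only [C_1, one_mul, C_0, zero_mul, add_zero, mul_one]
      rw [add_comm (C p)]
  have nontop : ∀ (a : ℂ) (l : ℂ × ℂ), c ≠ a • pw d l := by
    intro a l hc
    refine not_top d hd c ?_ hfin
    rw [hc]
    exact hL1 d (by omega) a l
  rcases hCLS d (by omega) c hsec with ⟨p, q, a, b, hpq, hcP⟩ | ⟨p, a, b, hcP⟩ | ⟨p, a, b, hcP⟩ |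
    ⟨a, b, hcP⟩
  · -- first form
    left
    have hc1 : c = a • pw d (p, 1) + b • pw d (q, 1) := by
      rw [vec_mono d c _ hcP, vec_add, vec_C_mul, vec_C_mul, pw_one, pw_one]
    have ha : a ≠ 0 := by
      rintro rfl
      rw [zero_smul, zero_add] at hc1
      exact nontop _ _ hc1
    have hb : b ≠ 0 := by
      rintro rfl
      rw [zero_smul, add_zero] at hc1
      exact nontop _ _ hc1
    obtain ⟨t1, t2⟩ := tan p a b (q, 1) ha hc1
    obtain ⟨t3, t4⟩ := tan q b a (p, 1) hb (by rw [hc1, add_comm])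
    have r1 := hder 0 (by omega) p t1
    have r2 := hder 1 (by omega) p t2
    have r3 := hder 0 (by omega) q t3
    have r4 := hder 1 (by omega) q t4
    simp only [Function.iterate_zero, id_eq, Function.iterate_one] at r1 r2 r3 r4
    obtain ⟨h, hh⟩ := dvd_of _ p q hpq r1 r2 r3 r4
    have hmon : ((X - C p) ^ 2 * (X - C q) ^ 2 : ℂ[X]).Monic :=
      ((monic_X_sub_C p).pow 2).mul ((monic_X_sub_C q).pow 2)
    have hnd : ((X - C p) ^ 2 * (X - C q) ^ 2 : ℂ[X]).natDegree = 4 := by
      rw [(((monic_X_sub_C p).pow 2)).natDegree_mul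
            ((monic_X_sub_C q).pow 2), natDegree_pow, natDegree_pow, natDegree_X_sub_C,
            natDegree_X_sub_C]
    refine ⟨p, q, a, b, -h, hpq, ha, hb, ?_, hcP, ?_⟩
    · rw [natDegree_neg]
      exact quot_deg _ _ h 4 d hmon hnd (PU_natDegree d (c - u)) hh
    · have : PU d u = PU d c - PU d (c - u) := by rw [hw]; ring
      rw [this, hh, hcP]
      ring
  · -- second form
    right; left
    have hc1 : c = a • pw d (p, 1) + b • pw d (1, 0) := by
      rw [vec_mono d c _ hcP, vec_add, vec_C_mul, pw_one, pw_inf]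
      congr 1
      rw [← vec_C_mul, mul_one]
    have ha : a ≠ 0 := by
      rintro rfl
      rw [zero_smul, zero_add] at hc1
      exact nontop _ _ hc1
    have hb : b ≠ 0 := by
      rintro rfl
      rw [zero_smul, add_zero] at hc1
      exact nontop _ _ hc1
    obtain ⟨t1, t2⟩ := tan p a b (1, 0) ha hc1
    have r1 := hder 0 (by omega) p t1
    have r2 := hder 1 (by omega) p t2
    simp only [Function.iterate_zero, id_eq, Function.iterate_one] at r1 r2
    have hc2 : c = b • pw d (1, 0) + a • pw d (p, 1) := by rw [hc1, add_comm]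
    have t3 : vec d 1 ∈ Tan d c := by
      have := hL2 d (by omega) b a (1, 0) (p, 1) (1, 0) hb
      rw [← hc2] at this
      simpa using this
    have t4 : vec d X ∈ Tan d c := by
      have := hL2 d (by omega) b a (1, 0) (p, 1) (0, 1) hb
      rw [← hc2] at this
      simpa using this
    have r3 := hlast t3
    have r4 := hlast' t4
    have hdeg : (PU d (c - u)).natDegree ≤ d - 2 := by
      rw [natDegree_le_iff_coeff_eq_zero]
      intro N hN
      by_cases h1 : N = d
      · rw [h1]; exact r3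
      · by_cases h2 : N = d - 1
        · rw [h2]; exact r4
        · apply coeff_eq_zero_of_natDegree_lt
          have := PU_natDegree d (c - u)
          omega
    obtain ⟨h, hh⟩ := sq_dvd _ p r1 r2
    have hmon : ((X - C p) ^ 2 : ℂ[X]).Monic := (monic_X_sub_C p).pow 2
    have hnd : ((X - C p) ^ 2 : ℂ[X]).natDegree = 2 := by
      rw [natDegree_pow, natDegree_X_sub_C]
    refine ⟨p, a, b, -h, ?_, ?_⟩
    · rw [natDegree_neg]
      have := quot_deg _ _ h 2 (d - 2) hmon hnd hdeg hh
      omega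
    · have : PU d u = PU d c - PU d (c - u) := by rw [hw]; ring
      rw [this, hh, hcP]
      ring
  · -- third form
    right; right
    have hb : b ≠ 0 := by
      rintro rfl
      rw [C_0, zero_mul, add_zero] at hcP
      refine nontop a (p, 1) ?_
      rw [vec_mono d c _ hcP, vec_C_mul, pw_one]
    have hc1 := vec_mono d c _ hcP
    have t := fun j hj => hL4 d (by omega) p a b hb j hj
    rw [← hc1] at t
    have r : ∀ j ≤ 3, ((derivative^[j]) (PU d (c - u))).eval p = 0 :=
      fun j hj => hder j (by omega) p (t j hj)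
    have hdvd : (X - C p) ^ 4 ∣ PU d (c - u) := by
      by_cases h0 : PU d (c - u) = 0
      · rw [h0]; exact dvd_zero _
      · rw [← le_rootMultiplicity_iff h0]
        exact (lt_rootMultiplicity_iff_isRoot_iterate_derivative h0).2 r
    obtain ⟨h, hh⟩ := hdvd
    have hmon : ((X - C p) ^ 4 : ℂ[X]).Monic := (monic_X_sub_C p).pow 4
    have hnd : ((X - C p) ^ 4 : ℂ[X]).natDegree = 4 := by
      rw [natDegree_pow, natDegree_X_sub_C]
    refine ⟨p, a, b, -h, ?_, ?_⟩
    · rw [natDegree_neg]
      exact quot_deg _ _ h 4 d hmon hnd (PU_natDegree d (c - u)) hh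
    · have : PU d u = PU d c - PU d (c - u) := by rw [hw]; ring
      rw [this, hh, hcP]
      ring
  · -- fourth form
    exfalso
    have hc1 := vec_mono d c _ hcP
    have t := hL5 d (by omega) a b
    rw [← hc1] at t
    have r := hlast t
    rw [hw, coeff_sub, hcP, coeff_add, coeff_C_mul, coeff_X, coeff_C,
      if_neg (by omega), if_neg (by omega)] at r
    have : (PU d u).coeff d = u (Fin.last d) := PU_coeff d u (Fin.last d)
    rw [this] at r
    apply hu
    linear_combination -r

end Pool.Agent.T2H23.ED
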