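import Pool.Agent.T2H23.ED.Stm

/-! package GOOD -/

set_option autoImplicit false

noncomputable section

open Polynomial

namespace Pool.Agent.T2H23.ED

namespace PkgGOOD

lemma genDR (hEXC : S_EXC) (d : ℕ) (hd : 4 ≤ d) (p q a b : MvPolynomial (Fin 3) ℂ) :
    Gen d fun u => ∀ z : Fin 3 → ℂ, ¬ DR d u (MvPolynomial.eval z p) (MvPolynomial.eval z q)
      (MvPolynomial.eval z a) (MvPolynomial.eval z b) := by
  refine gen_mono (hEXC d hd (C a * (X + C p) ^ d + C b * (X + C q) ^ d) ((X - C p) ^ 2 * (X - C q) ^ 2)) ?_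
  rintro u hu z ⟨h, hh, h1⟩
  refine hu z h hh (h1.trans ?_)
  simp

lemma gen_ne (d : ℕ) (i : Fin (d + 1)) : Gen d fun u => u i ≠ 0 :=
  ⟨MvPolynomial.X i, MvPolynomial.X_ne_zero i, fun u hu => by simpa using hu⟩

end PkgGOOD

open PkgGOOD in
theorem pGOOD (hEXC : S_EXC) : S_GOOD := by
  intro d hd
  have g1 := gen_ne d 0
  have g2 := gen_ne d (Fin.last d)
  have h1 := genDR hEXC d hd 0 (MvPolynomial.X 0) (MvPolynomial.X 1) (MvPolynomial.X 2)
  have h2 := genDR hEXC d hd (MvPolynomial.X 0) 0 (MvPolynomial.X 1) (MvPolynomial.X 2)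
  have h3 := genDR hEXC d hd (MvPolynomial.X 0) (-MvPolynomial.X 0) (MvPolynomial.X 1) (MvPolynomial.X 2)
  have h4 := genDR hEXC d hd (MvPolynomial.X 0) (MvPolynomial.X 1) 0 (MvPolynomial.X 2)
  have h5 := genDR hEXC d hd (MvPolynomial.X 0) (MvPolynomial.X 1) (MvPolynomial.X 2) 0
  have h6 := hEXC d hd (C (MvPolynomial.X 1) * (X + C (MvPolynomial.X 0)) ^ d + C (MvPolynomial.X 2))
    ((X - C (MvPolynomial.X 0)) ^ 2)
  have h7 := hEXC d hd (C (MvPolynomial.X 1) * (X + C (MvPolynomial.X 0)) ^ d +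
    C (MvPolynomial.X 2) * (X + C (MvPolynomial.X 0)) ^ (d - 1)) ((X - C (MvPolynomial.X 0)) ^ 4)
  refine gen_mono (gen_and g1 (gen_and g2 (gen_and h1 (gen_and h2 (gen_and h3 (gen_and h4 (gen_and h5
    (gen_and h6 h7)))))))) ?_
  rintro u ⟨k1, k2, k3, k4, k5, k6, k7, k8, k9⟩
  refine ⟨k1, k2, ?_, ?_, ?_⟩
  · intro p q a b hDR
    refine ⟨?_, ?_, ?_, ?_, ?_⟩
    · rintro rfl
      have := k3 ![q, a, b]
      simp at this
      exact this hDR
    · rintro rfl
      have := k4 ![p, a, b]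
      simp at this
      exact this hDR
    · intro hpq
      have hq : q = - p := by linear_combination hpq
      subst hq
      have := k5 ![p, a, b]
      simp at this
      exact this hDR
    · rintro rfl
      have := k6 ![p, q, b]
      simp at this
      exact this hDR
    · rintro rfl
      have := k7 ![p, q, a]
      simp at this
      exact this hDR
  · intro p a b h hh hc
    refine k8 ![p, a, b] h hh (hc.trans ?_)
    simp
  · intro p a b h hh hc
    refine k9 ![p, a, b] h hh (hc.trans ?_)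
    simp

end Pool.Agent.T2H23.ED
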