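import Pool.Agent.T2H23.ED.Stm

set_option autoImplicit false

noncomputable section

open Polynomial

namespace Pool.Agent.T2H23.ED

namespace PkgK1

lemma sq_dvd (r : ℂ[X]) (p : ℂ) (h0 : r.eval p = 0) (h1 : (derivative r).eval p = 0) :
    (X - C p) ^ 2 ∣ r := by
  obtain ⟨s, hs⟩ := dvd_iff_isRoot.2 h0
  rw [hs, derivative_mul, derivative_sub, derivative_X, derivative_C, sub_zero, one_mul,
    eval_add, eval_mul, eval_sub, eval_X, eval_C, sub_self, zero_mul, add_zero] at h1
  obtain ⟨t, ht⟩ := dvd_iff_isRoot.2 h1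
  exact ⟨t, by rw [hs, ht]; ring⟩

lemma dvd_of (r : ℂ[X]) (p q : ℂ) (hpq : p ≠ q) (h0 : r.eval p = 0)
    (h1 : (derivative r).eval p = 0) (h2 : r.eval q = 0) (h3 : (derivative r).eval q = 0) :
    (X - C p) ^ 2 * (X - C q) ^ 2 ∣ r := by
  refine IsCoprime.mul_dvd ?_ (sq_dvd r p h0 h1) (sq_dvd r q h2 h3)
  exact (isCoprime_X_sub_C_of_isUnit_sub (sub_ne_zero.2 hpq).isUnit).pow

lemma DR_iff (d : ℕ) (hd : 4 ≤ d) (u : V d) (p q a b : ℂ) (hpq : p ≠ q) :
    DR d u p q a b ↔
      ((PU d u).eval p = a * (2 * p) ^ d + b * (p + q) ^ d ∧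
       (derivative (PU d u)).eval p = d * (a * (2 * p) ^ (d - 1) + b * (p + q) ^ (d - 1)) ∧
       (PU d u).eval q = a * (p + q) ^ d + b * (2 * q) ^ d ∧
       (derivative (PU d u)).eval q = d * (a * (p + q) ^ (d - 1) + b * (2 * q) ^ (d - 1))) := by
  have ev : ∀ x : ℂ, (C a * (X + C p) ^ d + C b * (X + C q) ^ d : ℂ[X]).eval x =
      a * (x + p) ^ d + b * (x + q) ^ d := by
    intro x; simp
  have dv : ∀ x : ℂ, (derivative (C a * (X + C p) ^ d + C b * (X + C q) ^ d : ℂ[X])).eval x =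
      d * (a * (x + p) ^ (d - 1) + b * (x + q) ^ (d - 1)) := by
    intro x
    simp only [derivative_add, derivative_mul, derivative_C, zero_mul, zero_add,
      derivative_X_add_C_pow, eval_add, eval_mul, eval_C, eval_pow, eval_X]
    ring
  constructor
  · rintro ⟨h, hh, he⟩
    have e1 : ∀ x : ℂ, (PU d u).eval x = a * (x + p) ^ d + b * (x + q) ^ d +
        (x - p) ^ 2 * (x - q) ^ 2 * h.eval x := by
      intro x
      rw [he, eval_add, ev]
      simp
    have e2 : ∀ x : ℂ, (derivative (PU d u)).eval x =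
        d * (a * (x + p) ^ (d - 1) + b * (x + q) ^ (d - 1)) +
        (2 * (x - p) * (x - q) ^ 2 * h.eval x + 2 * (x - p) ^ 2 * (x - q) * h.eval x +
          (x - p) ^ 2 * (x - q) ^ 2 * (derivative h).eval x) := by
      intro x
      rw [he, derivative_add, eval_add, dv]
      congr 1
      simp only [derivative_mul, derivative_pow, derivative_sub, derivative_X, derivative_C,
        sub_zero, mul_one, eval_add, eval_mul, eval_C, eval_pow, eval_X, eval_sub,
        Nat.cast_ofNat]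
      norm_num
      ring
    refine ⟨?_, ?_, ?_, ?_⟩
    · rw [e1]; ring
    · rw [e2]; ring
    · rw [e1]; ring
    · rw [e2]; ring
  · rintro ⟨h1, h2, h3, h4⟩
    set r := PU d u - (C a * (X + C p) ^ d + C b * (X + C q) ^ d) with hr
    have hdvd : (X - C p) ^ 2 * (X - C q) ^ 2 ∣ r := by
      apply dvd_of r p q hpq
      · rw [hr, eval_sub, ev, h1]; ring
      · rw [hr, derivative_sub, eval_sub, dv, h2]; ring
      · rw [hr, eval_sub, ev, h3]; ring
      · rw [hr, derivative_sub, eval_sub, dv, h4]; ring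
    obtain ⟨h, hh⟩ := hdvd
    refine ⟨h, ?_, ?_⟩
    · by_cases h0 : h = 0
      · rw [h0]; simp
      · have hmon : ((X - C p) ^ 2 * (X - C q) ^ 2 : ℂ[X]).Monic :=
          ((monic_X_sub_C p).pow 2).mul ((monic_X_sub_C q).pow 2)
        have e1 : r.natDegree = 4 + h.natDegree := by
          rw [hh, hmon.natDegree_mul' h0, (((monic_X_sub_C p).pow 2)).natDegree_mul
            ((monic_X_sub_C q).pow 2), natDegree_pow, natDegree_pow, natDegree_X_sub_C,
            natDegree_X_sub_C]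
        have hdeg : ∀ (a p : ℂ), (C a * (X + C p) ^ d : ℂ[X]).natDegree ≤ d := by
          intro a p
          refine (natDegree_C_mul_le _ _).trans ?_
          refine (natDegree_pow_le).trans ?_
          rw [natDegree_X_add_C]
          omega
        have e2 : r.natDegree ≤ d := by
          rw [hr]
          refine (natDegree_sub_le _ _).trans (max_le (PU_natDegree d u) ?_)
          exact (natDegree_add_le _ _).trans (max_le (hdeg _ _) (hdeg _ _))
        omega
    · rw [← hh, hr]; ring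

lemma alg (m : ℕ) (hm : 1 ≤ m) (p q s W W1 Z Z1 : ℂ) (hp : p ≠ 0) (hq : q ≠ 0) (hpq : p ≠ q)
    (hs : s = p + q) :
    (∃ a b : ℂ, W = a * (2 * p) ^ (m + 1) + b * s ^ (m + 1) ∧
      W1 = a * (2 * p) ^ m + b * s ^ m ∧ Z = a * s ^ (m + 1) + b * (2 * q) ^ (m + 1) ∧
      Z1 = a * s ^ m + b * (2 * q) ^ m) ↔
    ((2 * p) ^ m * (2 * q * Z1 - Z) = s ^ m * (s * W1 - W) ∧
      (2 * q) ^ m * (2 * p * W1 - W) = s ^ m * (s * Z1 - Z)) := by
  have hqp : q - p ≠ 0 := sub_ne_zero.2 (Ne.symm hpq)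
  constructor
  · rintro ⟨a, b, h1, h2, h3, h4⟩
    rw [h1, h2, h3, h4, hs]
    constructor <;> ring
  · rintro ⟨hA, hB⟩
    by_cases h0 : s = 0
    · have hsm : s ^ m = 0 := by rw [h0, zero_pow (by omega)]
      have hsm1 : s ^ (m + 1) = 0 := by rw [h0, zero_pow (by omega)]
      have h2p : (2 * p) ≠ 0 := mul_ne_zero two_ne_zero hp
      have h2q : (2 * q) ≠ 0 := mul_ne_zero two_ne_zero hq
      rw [hsm, zero_mul] at hA hB
      have hA' : 2 * q * Z1 - Z = 0 := (mul_eq_zero.1 hA).resolve_left (pow_ne_zero _ h2p)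
      have hB' : 2 * p * W1 - W = 0 := (mul_eq_zero.1 hB).resolve_left (pow_ne_zero _ h2q)
      have hWv : W = 2 * p * W1 := by linear_combination -hB'
      have hZv : Z = 2 * q * Z1 := by linear_combination -hA'
      refine ⟨W1 / (2 * p) ^ m, Z1 / (2 * q) ^ m, ?_, ?_, ?_, ?_⟩
      · rw [hsm1, hWv, pow_succ]; field_simp; ring
      · rw [hsm]; field_simp; ring
      · rw [hsm1, hZv, pow_succ]; field_simp; ring
      · rw [hsm]; field_simp; ring
    · have hsm : s ^ m ≠ 0 := pow_ne_zero _ h0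
      set a := (2 * q * Z1 - Z) / (s ^ m * (q - p)) with ha
      set b := (2 * p * W1 - W) / (s ^ m * (p - q)) with hb
      have hpq' : p - q ≠ 0 := sub_ne_zero.2 hpq
      have ea : 2 * q * Z1 - Z = a * (s ^ m * (q - p)) := by
        rw [ha, div_mul_cancel₀ _ (mul_ne_zero hsm hqp)]
      have eb : 2 * p * W1 - W = b * (s ^ m * (p - q)) := by
        rw [hb, div_mul_cancel₀ _ (mul_ne_zero hsm hpq')]
      have ec : s * W1 - W = a * ((2 * p) ^ m * (q - p)) := by
        apply mul_left_cancel₀ hsm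
        rw [← hA, ea]; ring
      have ed : s * Z1 - Z = b * ((2 * q) ^ m * (p - q)) := by
        apply mul_left_cancel₀ hsm
        rw [← hB, eb]; ring
      have e1 : W1 = a * (2 * p) ^ m + b * s ^ m := by
        apply mul_left_cancel₀ hqp
        have : (q - p) * W1 = (s * W1 - W) - (2 * p * W1 - W) := by rw [hs]; ring
        rw [this, ec, eb]; ring
      have e2 : Z1 = a * s ^ m + b * (2 * q) ^ m := by
        apply mul_left_cancel₀ hpq'
        have : (p - q) * Z1 = (s * Z1 - Z) - (2 * q * Z1 - Z) := by rw [hs]; ring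
        rw [this, ed, ea]; ring
      refine ⟨a, b, ?_, e1, ?_, e2⟩
      · have : W = 2 * p * W1 - b * (s ^ m * (p - q)) := by linear_combination -eb
        rw [this, e1, pow_succ, pow_succ]
        linear_combination (- b * s ^ m) * hs
      · have : Z = 2 * q * Z1 - a * (s ^ m * (q - p)) := by linear_combination -ea
        rw [this, e2, pow_succ, pow_succ]
        linear_combination (- a * s ^ m) * hs

lemma eval_PU (d : ℕ) (u : V d) (x : ℂ) :
    (PU d u).eval x = ∑ k : Fin (d + 1), u k * x ^ (k : ℕ) := by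
  unfold PU
  simp [eval_finsetSum]

lemma deriv_PU (d : ℕ) (u : V d) (x : ℂ) :
    (derivative (PU d u)).eval x = ∑ k : Fin (d + 1), u k * ((k : ℕ) * x ^ ((k : ℕ) - 1)) := by
  unfold PU
  simp only [derivative_sum, eval_finsetSum, derivative_C_mul, derivative_X_pow, eval_mul, eval_C,
    eval_pow, eval_X]

lemma vA_eq (d : ℕ) (hd : 1 ≤ d) (u : V d) (p θ : ℂ) : vA d u θ p =
    2 ^ (d - 1) * (2 * (θ * p) * ((derivative (PU d u)).eval (θ * p) / d) -
      (PU d u).eval (θ * p)) -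
    (1 + θ) ^ (d - 1) * ((p + θ * p) * ((derivative (PU d u)).eval p / d) -
      (PU d u).eval p) := by
  have hd0 : (d : ℂ) ≠ 0 := by exact_mod_cast (show d ≠ 0 by omega)
  rw [eval_PU, eval_PU, deriv_PU, deriv_PU]
  unfold vA ff
  rw [Finset.sum_div, Finset.sum_div, Finset.mul_sum, Finset.mul_sum, ← Finset.sum_sub_distrib,
    ← Finset.sum_sub_distrib, Finset.mul_sum, Finset.mul_sum, ← Finset.sum_sub_distrib]
  refine Finset.sum_congr rfl fun k _ => ?_
  simp only [eval_sub, eval_mul, eval_C, eval_pow, eval_add, eval_one, eval_X]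
  rcases Nat.eq_zero_or_pos (k : ℕ) with hk | hk
  · rw [hk]
    simp
    ring
  · obtain ⟨j, hj⟩ : ∃ j, (k : ℕ) = j + 1 := ⟨(k : ℕ) - 1, by omega⟩
    rw [hj]
    simp only [Nat.add_sub_cancel]
    field_simp
    ring

lemma vB_eq (d : ℕ) (hd : 1 ≤ d) (u : V d) (p θ : ℂ) : vB d u θ p =
    2 ^ (d - 1) * θ ^ (d - 1) * (2 * p * ((derivative (PU d u)).eval p / d) -
      (PU d u).eval p) -
    (1 + θ) ^ (d - 1) * ((p + θ * p) * ((derivative (PU d u)).eval (θ * p) / d) -
      (PU d u).eval (θ * p)) := by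
  have hd0 : (d : ℂ) ≠ 0 := by exact_mod_cast (show d ≠ 0 by omega)
  rw [eval_PU, eval_PU, deriv_PU, deriv_PU]
  unfold vB gg
  rw [Finset.sum_div, Finset.sum_div, Finset.mul_sum, Finset.mul_sum, ← Finset.sum_sub_distrib,
    ← Finset.sum_sub_distrib, Finset.mul_sum, Finset.mul_sum, ← Finset.sum_sub_distrib]
  refine Finset.sum_congr rfl fun k _ => ?_
  simp only [eval_sub, eval_mul, eval_C, eval_pow, eval_add, eval_one, eval_X]
  rcases Nat.eq_zero_or_pos (k : ℕ) with hk | hk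
  · rw [hk]
    simp
    ring
  · obtain ⟨j, hj⟩ : ∃ j, (k : ℕ) = j + 1 := ⟨(k : ℕ) - 1, by omega⟩
    rw [hj]
    simp only [Nat.add_sub_cancel]
    field_simp
    ring

end PkgK1

open PkgK1

theorem pK1 : S_K1 := by
  intro d hd u p θ hp hθ hθ1
  have hd0 : (d : ℂ) ≠ 0 := by exact_mod_cast (show d ≠ 0 by omega)
  have hpq : p ≠ θ * p := by
    intro h
    apply hθ1
    have : (θ - 1) * p = 0 := by linear_combination -h
    exact sub_eq_zero.1 ((mul_eq_zero.1 this).resolve_right hp)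
  obtain ⟨m, rfl⟩ : ∃ m, d = m + 1 := ⟨d - 1, by omega⟩
  have key := alg m (by omega) p (θ * p) (p + θ * p) ((PU (m + 1) u).eval p)
    ((derivative (PU (m + 1) u)).eval p / ((m + 1 : ℕ) : ℂ)) ((PU (m + 1) u).eval (θ * p))
    ((derivative (PU (m + 1) u)).eval (θ * p) / ((m + 1 : ℕ) : ℂ)) hp (mul_ne_zero hθ hp) hpq rfl
  have hsp : (1 + θ) ^ m * p ^ m = (p + θ * p) ^ m := by rw [← mul_pow]; congr 1; ring
  have hA : vA (m + 1) u θ p = 0 ↔ (2 * p) ^ m * (2 * (θ * p) *
      ((derivative (PU (m + 1) u)).eval (θ * p) / ((m + 1 : ℕ) : ℂ)) -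
      (PU (m + 1) u).eval (θ * p)) = (p + θ * p) ^ m * ((p + θ * p) *
      ((derivative (PU (m + 1) u)).eval p / ((m + 1 : ℕ) : ℂ)) - (PU (m + 1) u).eval p) := by
    rw [vA_eq (m + 1) (by omega), Nat.add_sub_cancel, ← hsp, mul_pow, ← sub_eq_zero (a := _ * _)]
    constructor
    · intro h
      linear_combination p ^ m * h
    · intro h
      apply mul_left_cancel₀ (pow_ne_zero m hp)
      linear_combination h
  have hB : vB (m + 1) u θ p = 0 ↔ (2 * (θ * p)) ^ m * (2 * p *
      ((derivative (PU (m + 1) u)).eval p / ((m + 1 : ℕ) : ℂ)) -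
      (PU (m + 1) u).eval p) = (p + θ * p) ^ m * ((p + θ * p) *
      ((derivative (PU (m + 1) u)).eval (θ * p) / ((m + 1 : ℕ) : ℂ)) -
      (PU (m + 1) u).eval (θ * p)) := by
    rw [vB_eq (m + 1) (by omega), Nat.add_sub_cancel, ← hsp, mul_pow, mul_pow,
      ← sub_eq_zero (a := _ * _)]
    constructor
    · intro h
      linear_combination p ^ m * h
    · intro h
      apply mul_left_cancel₀ (pow_ne_zero m hp)
      linear_combination h
  rw [hA, hB, ← key]
  constructor
  · rintro ⟨a, b, h⟩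
    obtain ⟨h1, h2, h3, h4⟩ := (DR_iff (m + 1) hd u p (θ * p) a b hpq).1 h
    refine ⟨a, b, h1, ?_, h3, ?_⟩
    · rw [h2, mul_div_cancel_left₀ _ hd0, Nat.add_sub_cancel]
    · rw [h4, mul_div_cancel_left₀ _ hd0, Nat.add_sub_cancel]
  · rintro ⟨a, b, h1, h2, h3, h4⟩
    refine ⟨a, b, (DR_iff (m + 1) hd u p (θ * p) a b hpq).2 ⟨h1, ?_, h3, ?_⟩⟩
    · rw [Nat.add_sub_cancel, ← h2]; field_simp
    · rw [Nat.add_sub_cancel, ← h4]; field_simp

end Pool.Agent.T2H23.ED
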