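import Pool.Agent.T2H23.ED.Stm

/-! package K2 -/

set_option autoImplicit false

noncomputable section

open Polynomial

namespace Pool.Agent.T2H23.ED

namespace PkgK2

lemma ff0 (d : ℕ) (θ : ℂ) : (ff d 0).eval θ = (1 + θ) ^ (d - 1) - 2 ^ (d - 1) := by
  simp [ff]
  ring

lemma gg0 (d : ℕ) (θ : ℂ) : (gg d 0).eval θ = (1 + θ) ^ (d - 1) - 2 ^ (d - 1) * θ ^ (d - 1) := by
  simp [gg]
  ring

lemma ffd (d : ℕ) (hd : 1 ≤ d) (θ : ℂ) : (ff d d).eval θ = - θ * (gg d 0).eval θ := by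
  rw [gg0]
  obtain ⟨e, rfl⟩ : ∃ e, d = e + 1 := ⟨d - 1, by omega⟩
  have hd' : ((e + 1 : ℕ) : ℂ) ≠ 0 := by exact_mod_cast (Nat.succ_ne_zero e)
  unfold ff
  rw [mul_div_assoc, div_self hd']
  simp only [eval_sub, eval_mul, eval_C, eval_pow, eval_X, eval_add, eval_one, Nat.add_sub_cancel]
  ring

lemma ggd (d : ℕ) (hd : 1 ≤ d) (θ : ℂ) : (gg d d).eval θ = - θ ^ (d - 1) * (ff d 0).eval θ := by
  rw [ff0]
  obtain ⟨e, rfl⟩ : ∃ e, d = e + 1 := ⟨d - 1, by omega⟩
  have hd' : ((e + 1 : ℕ) : ℂ) ≠ 0 := by exact_mod_cast (Nat.succ_ne_zero e)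
  unfold gg
  rw [mul_div_assoc, div_self hd']
  simp only [eval_sub, eval_mul, eval_C, eval_pow, eval_X, eval_add, eval_one, Nat.add_sub_cancel]
  ring

lemma not_both (d : ℕ) (hd : 2 ≤ d) (θ : ℂ) (h1 : θ ≠ 1) (hf : (ff d 0).eval θ = 0) (hg : (gg d 0).eval θ = 0) :
    False := by
  rw [ff0] at hf
  rw [gg0] at hg
  have hd' : d - 1 ≠ 0 := by omega
  have e1 : (1 + θ) ^ (d - 1) = 2 ^ (d - 1) := sub_eq_zero.1 hf
  have e2 : θ ^ (d - 1) = 1 := by
    rw [e1] at hg
    have h2 : (2 : ℂ) ^ (d - 1) ≠ 0 := pow_ne_zero _ two_ne_zero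
    apply mul_left_cancel₀ h2
    linear_combination -hg
  have n1 : ‖θ‖ = 1 := by
    have : ‖θ‖ ^ (d - 1) = 1 ^ (d - 1) := by rw [← norm_pow, e2]; simp
    exact (pow_left_inj₀ (norm_nonneg _) zero_le_one hd').1 this
  have n2 : ‖1 + θ‖ = 2 := by
    have : ‖1 + θ‖ ^ (d - 1) = 2 ^ (d - 1) := by rw [← norm_pow, e1]; simp
    exact (pow_left_inj₀ (norm_nonneg _) (by norm_num) hd').1 this
  have q1 : θ.re ^ 2 + θ.im ^ 2 = 1 := by
    have := Complex.sq_norm θ
    rw [n1, Complex.normSq_apply] at this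
    nlinarith
  have q2 : (1 + θ.re) ^ 2 + θ.im ^ 2 = 4 := by
    have := Complex.sq_norm (1 + θ)
    rw [n2, Complex.normSq_apply] at this
    simp at this
    nlinarith
  have q3 : θ.re = 1 := by nlinarith
  have q4 : θ.im = 0 := by
    rw [q3] at q1
    have : θ.im ^ 2 = 0 := by linarith
    exact pow_eq_zero_iff (two_ne_zero) |>.1 this
  exact h1 (Complex.ext (by simp [q3]) (by simp [q4]))

lemma PA_map (d : ℕ) (u : V d) (θ : ℂ) : (PA d u).map (evalRingHom θ) = PU d (fun k => u k * (ff d k).eval θ) := by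
  unfold PA PU
  simp [Polynomial.map_sum]

lemma PB_map (d : ℕ) (u : V d) (θ : ℂ) : (PB d u).map (evalRingHom θ) = PU d (fun k => u k * (gg d k).eval θ) := by
  unfold PB PU
  simp [Polynomial.map_sum]

lemma common (f g : ℂ[X]) (d : ℕ) (hf : f.natDegree ≤ d) (hg : g.natDegree ≤ d) (hfd : f.coeff d ≠ 0)
    (h : resultant f g d d = 0) : ∃ p : ℂ, f.eval p = 0 ∧ g.eval p = 0 := by
  have hnd : f.natDegree = d := le_antisymm hf (le_natDegree_of_ne_zero hfd)
  have hf0 : f ≠ 0 := by rintro rfl; simp at hfd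
  have h1 := resultant_eq_prod_eval f g d hg (IsAlgClosed.splits f)
  rw [hnd, h] at h1
  have h2 : f.leadingCoeff ^ d ≠ 0 := pow_ne_zero _ (leadingCoeff_ne_zero.2 hf0)
  have h3 : (f.roots.map g.eval).prod = 0 := by
    rcases mul_eq_zero.1 h1.symm with h4 | h4
    · exact absurd h4 h2
    · exact h4
  rw [Multiset.prod_eq_zero_iff, Multiset.mem_map] at h3
  obtain ⟨p, hp, hgp⟩ := h3
  exact ⟨p, (mem_roots hf0).1 hp, hgp⟩

end PkgK2

open PkgK2 in
theorem pK2 : S_K2 := by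
  intro d hd u θ hu0 hud hθ0 hθ1 hR
  have hmain : ∃ p : ℂ, vA d u θ p = 0 ∧ vB d u θ p = 0 := by
    rw [RU_eval] at hR
    by_cases hc : (gg d 0).eval θ = 0
    · have hc' : (ff d 0).eval θ ≠ 0 := fun h => not_both d (by omega) θ hθ1 h hc
      rw [resultant_comm] at hR
      have hR' : resultant ((PB d u).map (evalRingHom θ)) ((PA d u).map (evalRingHom θ)) d d = 0 := by
        rcases mul_eq_zero.1 hR with h | h
        · exact absurd h (pow_ne_zero _ (neg_ne_zero.2 one_ne_zero))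
        · exact h
      obtain ⟨p, h1, h2⟩ := common _ _ d (by rw [PB_map]; exact PU_natDegree _ _)
        (by rw [PA_map]; exact PU_natDegree _ _)
        (by
          rw [PB_map]
          have := PU_coeff d (fun k => u k * (gg d k).eval θ) (Fin.last d)
          rw [Fin.val_last] at this
          rw [this]
          refine mul_ne_zero hud ?_
          rw [ggd d (by omega)]
          exact mul_ne_zero (neg_ne_zero.2 (pow_ne_zero _ hθ0)) hc') hR'
      exact ⟨p, by rw [← PA_eval]; exact h2, by rw [← PB_eval]; exact h1⟩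
    · obtain ⟨p, h1, h2⟩ := common _ _ d (by rw [PA_map]; exact PU_natDegree _ _)
        (by rw [PB_map]; exact PU_natDegree _ _)
        (by
          rw [PA_map]
          have := PU_coeff d (fun k => u k * (ff d k).eval θ) (Fin.last d)
          rw [Fin.val_last] at this
          rw [this]
          refine mul_ne_zero hud ?_
          rw [ffd d (by omega)]
          exact mul_ne_zero (neg_ne_zero.2 hθ0) hc) hR
      exact ⟨p, by rw [← PA_eval]; exact h1, by rw [← PB_eval]; exact h2⟩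
  obtain ⟨p, h1, h2⟩ := hmain
  refine ⟨p, ?_, h1, h2⟩
  rintro rfl
  have z1 : vA d u θ 0 = u 0 * (ff d 0).eval θ := by
    unfold vA
    rw [Fin.sum_univ_succ]
    simp
  have z2 : vB d u θ 0 = u 0 * (gg d 0).eval θ := by
    unfold vB
    rw [Fin.sum_univ_succ]
    simp
  rw [z1] at h1
  rw [z2] at h2
  refine not_both d (by omega) θ hθ1 ?_ ?_
  · rcases mul_eq_zero.1 h1 with h | h
    · exact absurd h hu0
    · exact h
  · rcases mul_eq_zero.1 h2 with h | h
    · exact absurd h hu0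
    · exact h

end Pool.Agent.T2H23.ED
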