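import Pool.Agent.T2H23.ED.Stm

set_option autoImplicit false

/-! ED package K3 (helper69): common roots are roots of the resultant. -/

noncomputable section

open Polynomial

namespace Pool.Agent.T2H23.ED.PkgK3

variable {R : Type*} [CommRing R]

lemma sum_shift (d j : ℕ) (hj : j < d) (g : R[X]) (hg : g.natDegree ≤ d) (y : R) :
    ∑ i : Fin (d + d), y ^ (i : ℕ) * (if (i : ℕ) ∈ Set.Icc j (j + d) then g.coeff (i - j) else 0) =
      y ^ j * g.eval y := by
  rw [Fin.sum_univ_eq_sum_range (fun i => y ^ i *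
    (if i ∈ Set.Icc j (j + d) then g.coeff (i - j) else 0)) (d + d)]
  have e1 : ∑ i ∈ Finset.range (d + d), y ^ i *
      (if i ∈ Set.Icc j (j + d) then g.coeff (i - j) else 0) =
      ∑ i ∈ Finset.Ico j (j + (d + 1)), y ^ i * g.coeff (i - j) := by
    have hsub : Finset.Ico j (j + (d + 1)) ⊆ Finset.range (d + d) := by
      intro i hi
      rw [Finset.mem_Ico] at hi
      rw [Finset.mem_range]
      omega
    rw [← Finset.sum_subset hsub]
    · refine Finset.sum_congr rfl fun i hi => ?_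
      rw [Finset.mem_Ico] at hi
      rw [if_pos]
      rw [Set.mem_Icc]
      omega
    · intro i _ hi
      rw [if_neg, mul_zero]
      rw [Set.mem_Icc]
      rw [Finset.mem_Ico] at hi
      omega
  rw [e1, Finset.sum_Ico_eq_sum_range, eval_eq_sum_range' (Nat.lt_succ_of_le hg), Finset.mul_sum,
    Nat.add_sub_cancel_left]
  refine Finset.sum_congr rfl fun k _ => ?_
  rw [Nat.add_sub_cancel_left, pow_add]
  ring

lemma row (d : ℕ) (f g : R[X]) (hf : f.natDegree ≤ d) (hg : g.natDegree ≤ d) (y r : R)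
    (h1 : r ∣ f.eval y) (h2 : r ∣ g.eval y) :
    ∃ w : Fin (d + d) → R, ∑ i : Fin (d + d), y ^ (i : ℕ) • sylvester f g d d i = r • w := by
  have hd : ∀ j : Fin (d + d), ∃ w : R, ∑ i : Fin (d + d), y ^ (i : ℕ) * sylvester f g d d i j =
      r * w := by
    intro j
    induction j using Fin.addCases with
    | left j =>
      obtain ⟨c, hc⟩ := h2
      refine ⟨y ^ (j : ℕ) * c, ?_⟩
      simp only [sylvester, Matrix.of_apply, Fin.addCases_left]
      rw [sum_shift d j j.2 g hg, hc]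
      ring
    | right j =>
      obtain ⟨c, hc⟩ := h1
      refine ⟨y ^ (j : ℕ) * c, ?_⟩
      simp only [sylvester, Matrix.of_apply, Fin.addCases_right]
      rw [sum_shift d j j.2 f hf, hc]
      ring
  choose w hw using hd
  refine ⟨w, funext fun j => ?_⟩
  rw [Finset.sum_apply, Pi.smul_apply, smul_eq_mul, ← hw]
  rfl

lemma degA (d : ℕ) (u : V d) : (PA d u).natDegree ≤ d := by
  unfold PA
  refine natDegree_sum_le_of_forall_le _ _ fun i _ => ?_
  refine (natDegree_C_mul_X_pow_le _ _).trans ?_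
  have := i.2
  omega

lemma degB (d : ℕ) (u : V d) : (PB d u).natDegree ≤ d := by
  unfold PB
  refine natDegree_sum_le_of_forall_le _ _ fun i _ => ?_
  refine (natDegree_C_mul_X_pow_le _ _).trans ?_
  have := i.2
  omega

lemma dvd_of (P : ℂ[X][X]) (θ p : ℂ) (h : (P.map (evalRingHom θ)).eval p = 0) :
    (X - C θ) ∣ P.eval (C p) := by
  rw [dvd_iff_isRoot, IsRoot.def]
  have h1 : eval₂ (evalRingHom θ) ((evalRingHom θ) (C p)) P = evalRingHom θ (P.eval (C p)) :=
    eval₂_at_apply _ _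
  rw [coe_evalRingHom, eval_C] at h1
  rw [← h1, ← h, eval_map]

end PkgK3

open PkgK3

theorem pK3 : S_K3 := by
  intro d hd u θ p hA hB
  have h0 : 0 < d + d := by omega
  have h1 : 1 < d + d := by omega
  obtain ⟨S, hS⟩ : ∃ S : Matrix (Fin (d + d)) (Fin (d + d)) ℂ[X],
    S = sylvester (PA d u) (PB d u) d d := ⟨_, rfl⟩
  have hRU : RU d u = S.det := by rw [hS]; rfl
  obtain ⟨w, hw⟩ := row d (PA d u) (PB d u) (degA d u) (degB d u) (C p) (X - C θ)
    (dvd_of _ _ _ (by rw [PA_eval]; exact hA)) (dvd_of _ _ _ (by rw [PB_eval]; exact hB))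
  rw [← hS] at hw
  have e1 := S.det_updateRow_sum ⟨0, h0⟩ (fun i => (C p : ℂ[X]) ^ (i : ℕ))
  simp only [pow_zero, one_smul] at e1
  rw [hw, Matrix.det_updateRow_smul] at e1
  refine ⟨?_, ?_⟩
  · rw [hRU, ← e1]
    simp
  · intro p' hp hA' hB'
    obtain ⟨w', hw'⟩ := row d (PA d u) (PB d u) (degA d u) (degB d u) (C p') (X - C θ)
      (dvd_of _ _ _ (by rw [PA_eval]; exact hA')) (dvd_of _ _ _ (by rw [PB_eval]; exact hB'))
    rw [← hS] at hw'
    obtain ⟨S1, hS1⟩ : ∃ S1, S1 = S.updateRow ⟨0, h0⟩ w := ⟨_, rfl⟩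
    rw [← hS1] at e1
    have e2 := S1.det_updateRow_sum ⟨1, h1⟩ (fun i => (C p' : ℂ[X]) ^ (i : ℕ) - (C p) ^ (i : ℕ))
    have e3 : ∑ k : Fin (d + d), ((C p' : ℂ[X]) ^ (k : ℕ) - (C p) ^ (k : ℕ)) • S1 k =
        (X - C θ) • (w' - w) := by
      rw [smul_sub, ← hw, ← hw', ← Finset.sum_sub_distrib]
      refine Finset.sum_congr rfl fun k _ => ?_
      rw [← sub_smul]
      by_cases hk : k = ⟨0, h0⟩
      · subst hk
        simp
      · rw [hS1, Matrix.updateRow_ne hk]
    rw [e3, Matrix.det_updateRow_smul] at e2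
    simp only [pow_one, smul_eq_mul] at e2
    obtain ⟨E, hE⟩ : ∃ E, E = (S1.updateRow ⟨1, h1⟩ (w' - w)).det := ⟨_, rfl⟩
    rw [← hE] at e2
    have e4 : (C p' - C p) * RU d u = (X - C θ) * ((X - C θ) * E) := by
      rw [hRU, ← e1, mul_left_comm, ← e2]
    have e5 : C (p' - p) * RU d u = (X - C θ) * ((X - C θ) * E) := by rw [C_sub]; exact e4
    have e6 := congrArg (fun P => (derivative P).eval θ) e5
    simp only [derivative_mul, derivative_sub, derivative_X,
      derivative_C, eval_mul, eval_add, eval_sub, eval_X, eval_C, eval_zero, sub_self] at e6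
    have e7 : (p' - p) * (derivative (RU d u)).eval θ = 0 := by
      linear_combination e6
    rcases mul_eq_zero.1 e7 with h | h
    · exact absurd (sub_eq_zero.1 h) hp
    · exact h

end Pool.Agent.T2H23.ED
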