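import Pool.Agent.T2H23.ED.VAL

/-!
# Packages ONE of project ED (helper34)
-/

set_option autoImplicit false

noncomputable section

open Polynomial

namespace Pool.Agent.T2H23.ED

open PkgVAL in
theorem pONE (hTRI : S_TRI) (hEXP : S_EXP) : S_ONE := by
  intro d hd
  obtain ⟨a0, b0, ha0, hb0, va0, vb0⟩ := hEXP d 0 (by omega) (by omega)
  obtain ⟨ad, bd, had, hbd, vad, vbd⟩ := hEXP d d (by omega) (le_refl _)
  refine ⟨uu d 0, ?_⟩
  intro T hT hT1
  rw [RU_uu hTRI d (by omega)] at hT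
  simp only [C_0, zero_mul, mul_zero, sub_zero] at hT
  have key : 4 * (X + 1) * (ff d 0 * gg d d - ff d d * gg d 0) =
      (X - 1) ^ 5 * (a0 * bd - ad * b0) := by
    have e1 : 4 * (X + 1) * (ff d 0 * gg d d - ff d d * gg d 0) =
      (ff d 0 - gg d 0) * (2 * (X + 1) * (ff d d + gg d d) +
          C ((d : ℂ) - 2) * (X - 1) * (ff d d - gg d d)) -
        (ff d d - gg d d) * (2 * (X + 1) * (ff d 0 + gg d 0) +
          C ((d : ℂ) - 2) * (X - 1) * (ff d 0 - gg d 0)) := by ring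
    rw [e1, hb0, hbd, ha0, had]
    ring
  have h1 : (X - 1 : ℂ[X]) ^ (5 * d) * ((4 * (X + 1)) ^ d * X ^ (d - 1) * T) =
      (X - 1) ^ (5 * d) * ((-1) ^ d * (a0 * bd - ad * b0) ^ d) := by
    have e2 : (4 * (X + 1) * (ff d 0 * gg d d - ff d d * gg d 0)) ^ d =
        ((X - 1) ^ 5 * (a0 * bd - ad * b0)) ^ d := by rw [key]
    rw [mul_pow, mul_pow ((X - 1) ^ 5), ← pow_mul] at e2
    calc (X - 1 : ℂ[X]) ^ (5 * d) * ((4 * (X + 1)) ^ d * X ^ (d - 1) * T)
        = (4 * (X + 1)) ^ d * (X ^ (d - 1) * (X - 1) ^ (5 * d) * T) := by ring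
      _ = (-1) ^ d * ((4 * (X + 1)) ^ d * (ff d 0 * gg d d - ff d d * gg d 0) ^ d) := by
          rw [← hT]
          ring
      _ = _ := by
          rw [e2]
          ring
  have hne : (X - 1 : ℂ[X]) ^ (5 * d) ≠ 0 := by
    apply pow_ne_zero
    have := X_sub_C_ne_zero (1 : ℂ)
    rwa [C_1] at this
  have h2 := congrArg (fun P : ℂ[X] => P.eval 1) (mul_left_cancel₀ hne h1)
  simp only [eval_mul, hT1, mul_zero, eval_pow, eval_neg, eval_one, eval_sub] at h2
  have h3 : (a0.eval 1 * bd.eval 1 - ad.eval 1 * b0.eval 1) = 0 := by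
    rcases mul_eq_zero.1 h2.symm with h | h
    · exact absurd h (pow_ne_zero _ (by norm_num))
    · exact (pow_eq_zero_iff (by omega : d ≠ 0)).1 h
  have hd0 : ((d : ℕ) : ℂ) ≠ 0 := by
    have : d ≠ 0 := by omega
    exact_mod_cast this
  have hd1 : ((d : ℕ) : ℂ) - 1 ≠ 0 := by
    have : d ≠ 1 := by omega
    intro h
    apply this
    have : ((d : ℕ) : ℂ) = ((1 : ℕ) : ℂ) := by
      push_cast
      linear_combination h
    exact_mod_cast this
  have hd2 : ((d : ℕ) : ℂ) - 2 ≠ 0 := by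
    have : d ≠ 2 := by omega
    intro h
    apply this
    have : ((d : ℕ) : ℂ) = ((2 : ℕ) : ℂ) := by
      push_cast
      linear_combination h
    exact_mod_cast this
  have hp : (2 : ℂ) ^ (d - 1) ≠ 0 := pow_ne_zero _ (by norm_num)
  have h4 : (48 * (d : ℂ)) * (a0.eval 1 * bd.eval 1 - ad.eval 1 * b0.eval 1) =
      (2 : ℂ) ^ (d - 1) * ((d : ℂ) * (d - 1)) *
        (2 ^ (d - 1) * (- 2 * d * (d - 1) * (d - 2))) := by
    have e1 : (48 * (d : ℂ)) * (a0.eval 1 * bd.eval 1 - ad.eval 1 * b0.eval 1) =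
      ((d : ℂ) * a0.eval 1) * (48 * bd.eval 1) - ((d : ℂ) * ad.eval 1) * (48 * b0.eval 1) := by
      ring
    rw [e1, va0, vad, vb0, vbd]
    push_cast
    ring
  rw [h3, mul_zero] at h4
  have h5 : (2 : ℂ) ^ (d - 1) * ((d : ℂ) * (d - 1)) *
        (2 ^ (d - 1) * (- 2 * d * (d - 1) * (d - 2))) ≠ 0 := by
    refine mul_ne_zero (mul_ne_zero hp (mul_ne_zero hd0 hd1)) (mul_ne_zero hp ?_)
    exact mul_ne_zero (mul_ne_zero (mul_ne_zero (by norm_num) hd0) hd1) hd2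
  exact h5 h4.symm

end Pool.Agent.T2H23.ED
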