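import Pool.Agent.T2H23.ED.Stm

/-!
# Project ED, package PHI: isotropic coordinates
-/

set_option autoImplicit false

noncomputable section

open Polynomial

namespace Pool.Agent.T2H23.ED

namespace PkgPHI

/-- substitution -/
def G (d : ℕ) (P Q : ℂ[X]) : V d →ₗ[ℂ] V d where
  toFun c := vec d (∑ i : Fin (d + 1), C (c i) * (P ^ (d - (i : ℕ)) * Q ^ (i : ℕ)))
  map_add' a b := by
    rw [← vec_add, ← Finset.sum_add_distrib]
    congr 1
    refine Finset.sum_congr rfl fun i _ => ?_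
    rw [Pi.add_apply, C_add, add_mul]
  map_smul' r a := by
    rw [RingHom.id_apply, ← vec_C_mul, Finset.mul_sum]
    congr 1
    refine Finset.sum_congr rfl fun i _ => ?_
    rw [Pi.smul_apply, smul_eq_mul, C_mul, mul_assoc]

lemma G_pw (d : ℕ) (P Q : ℂ[X]) (l : ℂ × ℂ) :
    G d P Q (pw d l) = vec d ((C l.1 * P + C l.2 * Q) ^ d) := by
  show vec d (∑ i : Fin (d + 1), C ((d.choose (i : ℕ) : ℂ) * l.1 ^ (d - (i : ℕ)) * l.2 ^ (i : ℕ)) *
    (P ^ (d - (i : ℕ)) * Q ^ (i : ℕ))) = _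
  congr 1
  rw [add_comm (C l.1 * P), add_pow]
  rw [Fin.sum_univ_eq_sum_range (fun i => C ((d.choose i : ℂ) * l.1 ^ (d - i) * l.2 ^ i) *
    (P ^ (d - i) * Q ^ i)) (d + 1)]
  refine Finset.sum_congr rfl fun i _ => ?_
  simp only [C_mul, C_pow, mul_pow, map_natCast]
  ring

/-- two linear maps which agree on the powers are equal -/
lemma ext_pw (hS : S_SPAN) {d : ℕ} {M : Type} [AddCommGroup M] [Module ℂ M]
    (f g : V d →ₗ[ℂ] M) (h : ∀ l, f (pw d l) = g (pw d l)) : f = g := by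
  have h1 := hS d (LinearMap.eqLocus f g) h
  refine LinearMap.ext fun c => ?_
  have h2 : c ∈ LinearMap.eqLocus f g := by
    rw [h1]
    trivial
  exact h2

lemma B_add_right (d : ℕ) (a b c : V d) : B d a (b + c) = B d a b + B d a c := by
  unfold B
  rw [← Finset.sum_add_distrib]
  refine Finset.sum_congr rfl fun i _ => ?_
  rw [Pi.add_apply]
  ring

lemma B_add_left (d : ℕ) (a b c : V d) : B d (a + b) c = B d a c + B d b c := by
  unfold B
  rw [← Finset.sum_add_distrib]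
  refine Finset.sum_congr rfl fun i _ => ?_
  rw [Pi.add_apply]
  ring

lemma B_smul_left (d : ℕ) (r : ℂ) (a c : V d) : B d (r • a) c = r • B d a c := by
  unfold B
  rw [Finset.smul_sum]
  refine Finset.sum_congr rfl fun i _ => ?_
  rw [Pi.smul_apply, smul_eq_mul, smul_eq_mul]
  ring

lemma B_smul_right (d : ℕ) (r : ℂ) (a c : V d) : B d a (r • c) = r • B d a c := by
  unfold B
  rw [Finset.smul_sum]
  refine Finset.sum_congr rfl fun i _ => ?_
  rw [Pi.smul_apply, smul_eq_mul, smul_eq_mul]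
  ring

lemma B2_add_right (d : ℕ) (a b c : V d) : B2 d a (b + c) = B2 d a b + B2 d a c := by
  unfold B2
  rw [← Finset.sum_add_distrib]
  refine Finset.sum_congr rfl fun i _ => ?_
  rw [Pi.add_apply]
  ring

lemma B2_smul_right (d : ℕ) (r : ℂ) (a c : V d) : B2 d a (r • c) = r • B2 d a c := by
  unfold B2
  rw [Finset.smul_sum]
  refine Finset.sum_congr rfl fun i _ => ?_
  rw [Pi.smul_apply, smul_eq_mul, smul_eq_mul]
  ring

def BL (d : ℕ) : V d →ₗ[ℂ] V d →ₗ[ℂ] ℂ :=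
  LinearMap.mk₂ ℂ (B d) (B_add_left d) (B_smul_left d) (B_add_right d) (B_smul_right d)

def B2L (d : ℕ) : V d →ₗ[ℂ] V d →ₗ[ℂ] ℂ :=
  LinearMap.mk₂ ℂ (B2 d) (B2_add_left d) (fun r a c => by rw [B2_smul_left]; rfl)
    (B2_add_right d) (B2_smul_right d)

lemma B_pw (d : ℕ) (l l' : ℂ × ℂ) : B d (pw d l) (pw d l') = (l.1 * l'.1 + l.2 * l'.2) ^ d := by
  unfold B pw
  rw [add_comm (l.1 * l'.1), add_pow, Fin.sum_univ_eq_sum_range (fun i =>
    ((d.choose i : ℂ) * l.1 ^ (d - i) * l.2 ^ i) * ((d.choose i : ℂ) * l'.1 ^ (d - i) * l'.2 ^ i) /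
      (d.choose i : ℂ)) (d + 1)]
  refine Finset.sum_congr rfl fun i hi => ?_
  have h1 : ((d.choose i : ℕ) : ℂ) ≠ 0 := by
    have := Finset.mem_range.1 hi
    exact_mod_cast (Nat.choose_pos (by omega)).ne'
  rw [mul_pow, mul_pow]
  field_simp

lemma B2_pw (d : ℕ) (l l' : ℂ × ℂ) : B2 d (pw d l) (pw d l') = (l.1 * l'.2 + l.2 * l'.1) ^ d := by
  unfold B2 pw
  have h0 : ∀ i : Fin (d + 1), ((Fin.rev i : Fin (d + 1)) : ℕ) = d - (i : ℕ) := by
    intro i
    rw [Fin.val_rev]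
    omega
  simp only [h0]
  rw [add_comm (l.1 * l'.2), add_pow, Fin.sum_univ_eq_sum_range (fun i =>
    ((d.choose i : ℂ) * l.1 ^ (d - i) * l.2 ^ i) *
      ((d.choose (d - i) : ℂ) * l'.1 ^ (d - (d - i)) * l'.2 ^ (d - i)) /
      (d.choose i : ℂ)) (d + 1)]
  refine Finset.sum_congr rfl fun i hi => ?_
  have hi' : i ≤ d := by
    have := Finset.mem_range.1 hi
    omega
  have h1 : ((d.choose i : ℕ) : ℂ) ≠ 0 := by
    exact_mod_cast (Nat.choose_pos hi').ne'
  rw [Nat.choose_symm hi', Nat.sub_sub_self hi', mul_pow, mul_pow]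
  field_simp

end PkgPHI

open PkgPHI in
theorem pPHI (hS : S_SPAN) : S_PHI := by
  intro d
  set Φ := G d (X + 1) (C Complex.I * (X - 1)) with hΦ
  set Ψ := G d (C (1 / 2) * (1 + C Complex.I * X)) (C (1 / 2) * (1 - C Complex.I * X)) with hΨ
  have hΦpw : ∀ l : ℂ × ℂ, Φ (pw d l) =
      pw d (l.1 - Complex.I * l.2, l.1 + Complex.I * l.2) := by
    intro l
    rw [hΦ, G_pw, pw_eq]
    congr 2
    simp only [C_sub, C_add, C_mul]
    ring
  have hΨpw : ∀ l : ℂ × ℂ, Ψ (pw d l) =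
      pw d ((l.1 + l.2) / 2, Complex.I * (l.1 - l.2) / 2) := by
    intro l
    rw [hΨ, G_pw, pw_eq]
    congr 2
    simp only [C_sub, C_add, C_mul, div_eq_mul_inv, one_mul]
    ring
  have h3 : Ψ ∘ₗ Φ = LinearMap.id := by
    refine ext_pw hS _ _ fun l => ?_
    rw [LinearMap.comp_apply, hΦpw, hΨpw, LinearMap.id_apply]
    congr 1
    refine Prod.ext ?_ ?_
    · show (l.1 - Complex.I * l.2 + (l.1 + Complex.I * l.2)) / 2 = l.1
      ring
    · show Complex.I * (l.1 - Complex.I * l.2 - (l.1 + Complex.I * l.2)) / 2 = l.2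
      linear_combination (-l.2) * Complex.I_mul_I
  have h4 : Φ ∘ₗ Ψ = LinearMap.id := by
    refine ext_pw hS _ _ fun l => ?_
    rw [LinearMap.comp_apply, hΨpw, hΦpw, LinearMap.id_apply]
    congr 1
    refine Prod.ext ?_ ?_
    · show (l.1 + l.2) / 2 - Complex.I * (Complex.I * (l.1 - l.2) / 2) = l.1
      linear_combination (-(l.1 - l.2) / 2) * Complex.I_mul_I
    · show (l.1 + l.2) / 2 + Complex.I * (Complex.I * (l.1 - l.2) / 2) = l.2
      linear_combination ((l.1 - l.2) / 2) * Complex.I_mul_I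
  refine ⟨LinearEquiv.ofLinearMap Φ Ψ h4 h3, hΦpw, ?_⟩
  have h5 : (B2L d).compl₁₂ Φ Φ = ((2 : ℂ) ^ d) • BL d := by
    refine ext_pw hS _ _ fun l => ?_
    refine ext_pw hS _ _ fun l' => ?_
    show B2 d (Φ (pw d l)) (Φ (pw d l')) = 2 ^ d * B d (pw d l) (pw d l')
    rw [hΦpw, hΦpw, B2_pw, B_pw, ← mul_pow]
    congr 1
    linear_combination (-2 * l.2 * l'.2) * Complex.I_mul_I
  intro c c'
  have h6 := LinearMap.congr_fun (LinearMap.congr_fun h5 c) c'
  exact h6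

end Pool.Agent.T2H23.ED
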