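import Pool.Agent.T2H23.ED.Stm

/-!
# Package PR : the pairing
-/

set_option autoImplicit false

noncomputable section

open Polynomial

namespace Pool.Agent.T2H23.ED

namespace PkgPR

lemma binom_id (d i j : ℕ) (hi : i ≤ d) (hj : j ≤ d) :
    d.descFactorial j * (d - j).choose (d - i) = d.choose i * i.descFactorial j := by
  by_cases hij : j ≤ i
  · have h1 : (d - j).choose (d - i) = (d - j).choose (i - j) := by
      rw [← Nat.choose_symm (by omega : i - j ≤ d - j)]
      congr 1
      omega
    have h2 : d.choose i * i.choose j = d.choose j * (d - j).choose (i - j) := Nat.choose_mul hij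
    rw [h1, Nat.descFactorial_eq_factorial_mul_choose, Nat.descFactorial_eq_factorial_mul_choose]
    calc j.factorial * d.choose j * (d - j).choose (i - j)
        = j.factorial * (d.choose j * (d - j).choose (i - j)) := by ring
      _ = j.factorial * (d.choose i * i.choose j) := by rw [h2]
      _ = _ := by ring
  · have h1 : (d - j).choose (d - i) = 0 := Nat.choose_eq_zero_of_lt (by omega)
    have h2 : i.descFactorial j = 0 := Nat.descFactorial_eq_zero_iff_lt.2 (by omega)
    rw [h1, h2]
    simp

end PkgPR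

open PkgPR in
theorem pPR : S_PR := by
  intro d c
  refine ⟨?_, ?_, ?_⟩
  · intro j hj p
    have hR : ((derivative^[j]) (PU d c)).eval p =
        ∑ i : Fin (d + 1), c i * ((i : ℕ).descFactorial j : ℂ) * p ^ ((i : ℕ) - j) := by
      unfold PU
      rw [iterate_derivative_sum, eval_finsetSum]
      refine Finset.sum_congr rfl fun i _ => ?_
      rw [iterate_derivative_C_mul, iterate_derivative_X_pow_eq_natCast_mul]
      simp [mul_assoc]
    rw [hR]
    unfold B2
    rw [Finset.mul_sum]
    refine Finset.sum_congr rfl fun i _ => ?_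
    have hi : (i : ℕ) ≤ d := by omega
    have h1 : vec d ((X + C p) ^ (d - j)) (Fin.rev i) =
        p ^ ((d - j) - (d - (i : ℕ))) * ((d - j).choose (d - (i : ℕ)) : ℂ) := by
      show ((X + C p) ^ (d - j)).coeff ((Fin.rev i : Fin (d + 1)) : ℕ) = _
      rw [coeff_X_add_C_pow, Fin.val_rev]
      have : d + 1 - ((i : ℕ) + 1) = d - (i : ℕ) := by omega
      rw [this]
    rw [h1]
    have h2 : (d.choose (i : ℕ) : ℂ) ≠ 0 := by
      have : 0 < d.choose (i : ℕ) := Nat.choose_pos hi
      exact_mod_cast this.ne'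
    have h3 : (d.descFactorial j : ℂ) * ((d - j).choose (d - (i : ℕ)) : ℂ) =
        (d.choose (i : ℕ) : ℂ) * ((i : ℕ).descFactorial j : ℂ) := by
      exact_mod_cast binom_id d i j hi hj
    by_cases hij : j ≤ (i : ℕ)
    · have h4 : (d - j) - (d - (i : ℕ)) = (i : ℕ) - j := by omega
      rw [h4]
      field_simp
      linear_combination (c i * p ^ ((i : ℕ) - j)) * h3
    · have h4 : (i : ℕ).descFactorial j = 0 := Nat.descFactorial_eq_zero_iff_lt.2 (by omega)
      have h5 : (d - j).choose (d - (i : ℕ)) = 0 := Nat.choose_eq_zero_of_lt (by omega)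
      rw [h4, h5]
      simp
  · unfold B2
    rw [Finset.sum_eq_single (Fin.last d)]
    · have h1 : vec d 1 (Fin.rev (Fin.last d)) = 1 := by
        show (1 : ℂ[X]).coeff _ = 1
        simp
      rw [h1]
      have h2 := PU_coeff d c (Fin.last d)
      rw [Fin.val_last] at h2
      rw [h2]
      simp
    · intro i _ hi
      have h1 : vec d 1 (Fin.rev i) = 0 := by
        show (1 : ℂ[X]).coeff ((Fin.rev i : Fin (d + 1)) : ℕ) = 0
        rw [coeff_one, if_neg]
        intro h
        apply hi
        rw [Fin.val_rev] at h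
        apply Fin.ext
        rw [Fin.val_last]
        omega
      rw [h1]
      simp
    · simp
  · intro hd
    unfold B2
    have hlt : d - 1 < d + 1 := by omega
    rw [Finset.sum_eq_single (⟨d - 1, hlt⟩ : Fin (d + 1))]
    · have h1 : vec d X (Fin.rev (⟨d - 1, hlt⟩ : Fin (d + 1))) = 1 := by
        show (X : ℂ[X]).coeff ((Fin.rev (⟨d - 1, hlt⟩ : Fin (d + 1)) : Fin (d + 1)) : ℕ) = 1
        rw [coeff_X, if_pos]
        rw [Fin.val_rev]
        show 1 = d + 1 - (d - 1 + 1)
        omega
      rw [h1]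
      have h2 := PU_coeff d c ⟨d - 1, hlt⟩
      rw [← h2]
      have h3 : (d.choose (d - 1) : ℂ) = d := by
        rw [Nat.choose_symm hd, Nat.choose_one_right]
      show (d : ℂ) * ((PU d c).coeff (d - 1) * 1 / (d.choose (d - 1) : ℂ)) = _
      rw [h3]
      have h4 : (d : ℂ) ≠ 0 := by exact_mod_cast (by omega : d ≠ 0)
      field_simp
    · intro i _ hi
      have h1 : vec d X (Fin.rev i) = 0 := by
        show (X : ℂ[X]).coeff ((Fin.rev i : Fin (d + 1)) : ℕ) = 0
        rw [coeff_X, if_neg]
        intro h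
        apply hi
        rw [Fin.val_rev] at h
        apply Fin.ext
        show (i : ℕ) = d - 1
        omega
      rw [h1]
      simp
    · simp

theorem pK5 : S_K5 := by
  intro d hd p q a b p' q' a' b' hpq hpq' ha hb ha' hb' heq
  have hmom : ∀ j : ℕ, j ≤ 3 → a * p ^ j + b * q ^ j = a' * p' ^ j + b' * q' ^ j := by
    intro j hj
    have h := congrArg (fun P => P.coeff (d - j)) heq
    simp only [coeff_add, coeff_C_mul, coeff_X_add_C_pow] at h
    have h1 : d - (d - j) = j := by omega
    rw [h1] at h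
    have h2 : (d.choose (d - j) : ℂ) ≠ 0 := by
      have : 0 < d.choose (d - j) := Nat.choose_pos (by omega)
      exact_mod_cast this.ne'
    have h3 : (d.choose (d - j) : ℂ) * (a * p ^ j + b * q ^ j) =
        (d.choose (d - j) : ℂ) * (a' * p' ^ j + b' * q' ^ j) := by
      linear_combination h
    exact mul_left_cancel₀ h2 h3
  have m0 := hmom 0 (by norm_num)
  have m1 := hmom 1 (by norm_num)
  have m2 := hmom 2 (by norm_num)
  have m3 := hmom 3 (by norm_num)
  simp only [pow_zero, mul_one, pow_one] at m0 m1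
  have hp : p = p' ∨ p = q' := by
    by_contra h
    push Not at h
    have e : a * ((p - q) * (p - p') * (p - q')) = 0 := by
      linear_combination m3 - (q + p' + q') * m2 + (q * p' + q * q' + p' * q') * m1 -
        q * p' * q' * m0
    exact mul_ne_zero ha (mul_ne_zero (mul_ne_zero (sub_ne_zero.2 hpq) (sub_ne_zero.2 h.1))
      (sub_ne_zero.2 h.2)) e
  have hq : q = p' ∨ q = q' := by
    by_contra h
    push Not at h
    have e : b * ((q - p) * (q - p') * (q - q')) = 0 := by
      linear_combination m3 - (p + p' + q') * m2 + (p * p' + p * q' + p' * q') * m1 -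
        p * p' * q' * m0
    exact mul_ne_zero hb (mul_ne_zero (mul_ne_zero (sub_ne_zero.2 hpq.symm) (sub_ne_zero.2 h.1))
      (sub_ne_zero.2 h.2)) e
  rcases hp with rfl | rfl
  · rcases hq with rfl | rfl
    · exact absurd rfl hpq
    · left
      have e1 : (a - a') * (p - q) = 0 := by linear_combination m1 - q * m0
      have e2 : (b - b') * (q - p) = 0 := by linear_combination m1 - p * m0
      exact ⟨rfl, rfl, sub_eq_zero.1 ((mul_eq_zero.1 e1).resolve_right (sub_ne_zero.2 hpq)),
        sub_eq_zero.1 ((mul_eq_zero.1 e2).resolve_right (sub_ne_zero.2 hpq.symm))⟩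
  · rcases hq with rfl | rfl
    · right
      have e1 : (a - b') * (p - q) = 0 := by linear_combination m1 - q * m0
      have e2 : (b - a') * (q - p) = 0 := by linear_combination m1 - p * m0
      exact ⟨rfl, rfl, sub_eq_zero.1 ((mul_eq_zero.1 e1).resolve_right (sub_ne_zero.2 hpq)),
        sub_eq_zero.1 ((mul_eq_zero.1 e2).resolve_right (sub_ne_zero.2 hpq.symm))⟩
    · exact absurd rfl hpq

namespace PkgPAR

/-- the variables -/
def vr (d k : ℕ) : MvPolynomial (Fin (d + 1)) ℂ :=
  if h : k < d + 1 then MvPolynomial.X ⟨k, h⟩ else 0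

/-- the value of the `k`-th variable -/
def vv (d : ℕ) (z : Fin (d + 1) → ℂ) (k : ℕ) : ℂ := if h : k < d + 1 then z ⟨k, h⟩ else 0

lemma vr_eval (d k : ℕ) (z : Fin (d + 1) → ℂ) : MvPolynomial.eval z (vr d k) = vv d z k := by
  unfold vr vv
  split_ifs with h
  · simp
  · simp

/-- the family -/
def fam (d : ℕ) : Polynomial (MvPolynomial (Fin (d + 1)) ℂ) :=
  C (vr d 2) * (X + C (vr d 0)) ^ d + C (vr d 3) * (X + C (vr d 1 * vr d 0)) ^ d +
    (X - C (vr d 0)) ^ 2 * (X - C (vr d 1 * vr d 0)) ^ 2 *
      ∑ j ∈ Finset.range (d - 3), C (vr d (4 + j)) * X ^ j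

lemma fam_map (d : ℕ) (z : Fin (d + 1) → ℂ) : (fam d).map (MvPolynomial.eval z) =
    C (vv d z 2) * (X + C (vv d z 0)) ^ d + C (vv d z 3) * (X + C (vv d z 1 * vv d z 0)) ^ d +
    (X - C (vv d z 0)) ^ 2 * (X - C (vv d z 1 * vv d z 0)) ^ 2 *
      ∑ j ∈ Finset.range (d - 3), C (vv d z (4 + j)) * X ^ j := by
  unfold fam
  simp only [Polynomial.map_add, Polynomial.map_mul, Polynomial.map_pow, Polynomial.map_sub,
    Polynomial.map_X, Polynomial.map_C, Polynomial.map_sum, vr_eval, map_mul]

lemma hsum_deg (d : ℕ) (hd : 4 ≤ d) (w : ℕ → ℂ) :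
    (∑ j ∈ Finset.range (d - 3), C (w j) * X ^ j : ℂ[X]).natDegree ≤ d - 4 := by
  refine natDegree_sum_le_of_forall_le _ _ fun j hj => ?_
  refine (natDegree_C_mul_X_pow_le _ _).trans ?_
  have := Finset.mem_range.1 hj
  omega

lemma deg4 (d : ℕ) (hd : 4 ≤ d) (p q a b : ℂ) (h : ℂ[X]) (hh : h.natDegree ≤ d - 4) :
    (C a * (X + C p) ^ d + C b * (X + C q) ^ d + (X - C p) ^ 2 * (X - C q) ^ 2 * h).natDegree ≤
      d := by
  have h1 : ∀ r s : ℂ, (C r * (X + C s) ^ d : ℂ[X]).natDegree ≤ d := by
    intro r s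
    refine (natDegree_C_mul_le _ _).trans ?_
    refine natDegree_pow_le.trans ?_
    rw [natDegree_X_add_C, mul_one]
  have h2 : ∀ s : ℂ, ((X - C s) ^ 2 : ℂ[X]).natDegree ≤ 2 := by
    intro s
    refine natDegree_pow_le.trans ?_
    rw [natDegree_X_sub_C]
  refine natDegree_add_le_of_degree_le (natDegree_add_le_of_degree_le (h1 _ _) (h1 _ _)) ?_
  refine natDegree_mul_le.trans ?_
  have h3 : ((X - C p) ^ 2 * (X - C q) ^ 2 : ℂ[X]).natDegree ≤ 4 :=
    natDegree_mul_le.trans (by have := h2 p; have := h2 q; omega)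
  omega

end PkgPAR

open PkgPAR in
theorem pPAR : S_PAR := by
  intro d hd
  have key : ∀ z : Fin (d + 1) → ℂ,
      PU d (fun i => MvPolynomial.eval z ((fam d).coeff i)) = (fam d).map (MvPolynomial.eval z) := by
    intro z
    have h1 : (fun i : Fin (d + 1) => MvPolynomial.eval z ((fam d).coeff i)) =
        vec d ((fam d).map (MvPolynomial.eval z)) := by
      funext i
      show _ = ((fam d).map (MvPolynomial.eval z)).coeff i
      rw [coeff_map]
    rw [h1, PU_vec]
    rw [fam_map]
    exact deg4 d hd _ _ _ _ _ (hsum_deg d hd _)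
  refine ⟨d + 1, fun i => (fam d).coeff i, vr d 1, vr d 0 * (vr d 1 * (vr d 1 - 1)), ?_, ?_, ?_⟩
  · have hX : ∀ k, k < d + 1 → vr d k ≠ 0 := by
      intro k hk
      unfold vr
      rw [dif_pos hk]
      exact MvPolynomial.X_ne_zero _
    refine mul_ne_zero (hX 0 (by omega)) (mul_ne_zero (hX 1 (by omega)) ?_)
    intro h
    have := congrArg (MvPolynomial.eval (fun _ => (0 : ℂ))) h
    rw [map_sub, vr_eval, map_one, map_zero] at this
    unfold vv at this
    rw [dif_pos (by omega : 1 < d + 1)] at this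
    norm_num at this
  · intro z hz
    rw [map_mul, map_mul, map_sub, map_one, vr_eval, vr_eval] at hz
    rw [vr_eval]
    refine ⟨vv d z 0, vv d z 2, vv d z 3, left_ne_zero_of_mul hz,
      left_ne_zero_of_mul (right_ne_zero_of_mul hz),
      sub_ne_zero.1 (right_ne_zero_of_mul (right_ne_zero_of_mul hz)), ?_⟩
    refine ⟨_, hsum_deg d hd (fun j => vv d z (4 + j)), ?_⟩
    rw [key, fam_map]
  · intro u p θ a b hDR
    obtain ⟨h, hh, hu⟩ := hDR
    set z : Fin (d + 1) → ℂ := fun k => if (k : ℕ) = 0 then p else if (k : ℕ) = 1 then θ else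
      if (k : ℕ) = 2 then a else if (k : ℕ) = 3 then b else h.coeff ((k : ℕ) - 4) with hz
    have z0 : vv d z 0 = p := by
      unfold vv
      rw [dif_pos (by omega)]
      simp [hz]
    have z1 : vv d z 1 = θ := by
      unfold vv
      rw [dif_pos (by omega)]
      simp [hz]
    have z2 : vv d z 2 = a := by
      unfold vv
      rw [dif_pos (by omega)]
      simp [hz]
    have z3 : vv d z 3 = b := by
      unfold vv
      rw [dif_pos (by omega)]
      simp [hz]
    have z4 : ∀ j ∈ Finset.range (d - 3), C (vv d z (4 + j)) * X ^ j = C (h.coeff j) * X ^ j := by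
      intro j hj
      have hj' := Finset.mem_range.1 hj
      have : vv d z (4 + j) = h.coeff j := by
        unfold vv
        rw [dif_pos (by omega)]
        simp only [hz]
        rw [if_neg (by omega), if_neg (by omega), if_neg (by omega), if_neg (by omega),
          Nat.add_sub_cancel_left]
      rw [this]
    have hsum : ∑ j ∈ Finset.range (d - 3), C (vv d z (4 + j)) * X ^ j = h := by
      rw [Finset.sum_congr rfl z4]
      have := as_sum_range_C_mul_X_pow' h (show h.natDegree < d - 3 by omega)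
      exact this.symm
    refine ⟨z, fun i => ?_, by rw [vr_eval, z1]⟩
    have h1 := congrArg (fun P => P.coeff (i : ℕ)) (key z)
    beta_reduce at h1
    rw [PU_coeff, fam_map, hsum, z0, z1, z2, z3, ← hu, PU_coeff] at h1
    exact h1

end Pool.Agent.T2H23.ED
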