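import Pool.Agent.T2H23.ED.Stm

/-!
# Project ED, package SCAL: resultants and scaling of the variable
-/

set_option autoImplicit false

noncomputable section

open Polynomial

namespace Pool.Agent.T2H23.ED

namespace PkgSCAL

/-- the shift of a column of the Sylvester matrix -/
def ex (d : ℕ) (j : Fin (d + d)) : ℕ := j.addCases (fun j₁ => (j₁ : ℕ)) (fun j₁ => (j₁ : ℕ))

lemma ex_left (d : ℕ) (j : Fin d) : ex d (Fin.castAdd d j) = j := by
  unfold ex
  rw [Fin.addCases_left]

lemma ex_right (d : ℕ) (j : Fin d) : ex d (Fin.natAdd d j) = j := by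
  unfold ex
  rw [Fin.addCases_right]

lemma entry (d : ℕ) (c : ℂ) (P Q : ℂ[X]) (i j : Fin (d + d)) :
    c ^ (ex d j) * sylvester (P.comp (C c * X)) (Q.comp (C c * X)) d d i j =
      c ^ (i : ℕ) * sylvester P Q d d i j := by
  refine Fin.addCases (fun j₁ => ?_) (fun j₁ => ?_) j
  · rw [ex_left]
    simp only [sylvester, Matrix.of_apply, Fin.addCases_left]
    split_ifs with h
    · rw [comp_C_mul_X_coeff, mul_comm (Q.coeff _), ← mul_assoc, ← pow_add]
      congr 2
      have := h.1
      omega
    · rw [mul_zero, mul_zero]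
  · rw [ex_right]
    simp only [sylvester, Matrix.of_apply, Fin.addCases_right]
    split_ifs with h
    · rw [comp_C_mul_X_coeff, mul_comm (P.coeff _), ← mul_assoc, ← pow_add]
      congr 2
      have := h.1
      omega
    · rw [mul_zero, mul_zero]

lemma sums (d : ℕ) : ∑ i : Fin (d + d), (i : ℕ) = ∑ j : Fin (d + d), ex d j + d * d := by
  rw [Fin.sum_univ_add, Fin.sum_univ_add]
  simp only [ex_left, ex_right, Fin.val_castAdd, Fin.val_natAdd, Finset.sum_add_distrib,
    Finset.sum_const, Finset.card_univ, Fintype.card_fin, smul_eq_mul]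
  ring

end PkgSCAL

open PkgSCAL in
theorem pSCAL : S_SCAL := by
  intro d c P Q hc _ _
  have h1 := Matrix.det_mul_row (fun j : Fin (d + d) => c ^ (ex d j))
    (sylvester (P.comp (C c * X)) (Q.comp (C c * X)) d d)
  have h2 := Matrix.det_mul_column (fun i : Fin (d + d) => c ^ (i : ℕ)) (sylvester P Q d d)
  have h3 : (Matrix.of fun i j => c ^ (ex d j) *
      sylvester (P.comp (C c * X)) (Q.comp (C c * X)) d d i j) =
      Matrix.of fun (i j : Fin (d + d)) => c ^ (i : ℕ) * sylvester P Q d d i j := by
    ext i j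
    exact entry d c P Q i j
  rw [h3, h2, Finset.prod_pow_eq_pow_sum, Finset.prod_pow_eq_pow_sum, sums, pow_add,
    mul_assoc] at h1
  exact (mul_left_cancel₀ (pow_ne_zero _ hc) h1).symm

end Pool.Agent.T2H23.ED
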