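import Pool.Agent.T2H23.ED.Stm

/-!
# Package SQF: the irreducibility argument
-/

set_option autoImplicit false

noncomputable section

open Polynomial

namespace Pool.Agent.T2H23.ED

namespace PkgSQF

/-- Bezout identity with cleared denominators -/
lemma bezout {R : Type*} [CommRing R] [IsDomain R] [UniqueFactorizationMonoid R]
    (P Q : R[X]) (hP : Irreducible P) (hd : P.natDegree ≠ 0) (hQ : ¬ P ∣ Q) :
    ∃ (x y : R[X]) (a : R), a ≠ 0 ∧ x * P + y * Q = C a := by
  classical
  let _ : StrongNormalizationMonoid R := UniqueFactorizationMonoid.strongNormalizationMonoid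
  let _ : StrongNormalizedGCDMonoid R := UniqueFactorizationMonoid.toStrongNormalizedGCDMonoid R
  have hprim : P.IsPrimitive := hP.isPrimitive hd
  have hmap : Irreducible (P.map (algebraMap R (FractionRing R))) :=
    (hprim.irreducible_iff_irreducible_map_fraction_map (K := FractionRing R)).mp hP
  have hndvd : ¬ P.map (algebraMap R (FractionRing R)) ∣ Q.map (algebraMap R (FractionRing R)) := by
    intro hdvd
    apply hQ
    by_cases hq0 : Q = 0
    · rw [hq0]; exact dvd_zero P
    rw [Q.eq_C_content_mul_primPart] at hdvd ⊢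
    rw [Polynomial.map_mul, Polynomial.map_C] at hdvd
    have hu : IsUnit (Polynomial.C (algebraMap R (FractionRing R) Q.content)) := by
      rw [Polynomial.isUnit_C]
      rw [isUnit_iff_ne_zero]
      intro h
      have h5 := (IsFractionRing.injective R (FractionRing R)) (h.trans (map_zero _).symm)
      exact hq0 (Polynomial.content_eq_zero_iff.mp h5)
    have h6 := (hu.dvd_mul_left).mp hdvd
    exact dvd_mul_of_dvd_right (hprim.dvd_of_fraction_map_dvd_fraction_map h6) _
  have hcop : IsCoprime (P.map (algebraMap R (FractionRing R)))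
      (Q.map (algebraMap R (FractionRing R))) := (hmap.coprime_iff_not_dvd).mpr hndvd
  obtain ⟨u, v, huv⟩ := hcop
  obtain ⟨b, hb0, hb⟩ := IsLocalization.integerNormalization_spec (nonZeroDivisors R) u
  obtain ⟨c, hc0, hc⟩ := IsLocalization.integerNormalization_spec (nonZeroDivisors R) v
  set U := IsLocalization.integerNormalization (nonZeroDivisors R) u
  set V := IsLocalization.integerNormalization (nonZeroDivisors R) v
  refine ⟨C c * U, C b * V, b * c, ?_, ?_⟩
  · exact mul_ne_zero (nonZeroDivisors.ne_zero hb0) (nonZeroDivisors.ne_zero hc0)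
  · apply Polynomial.map_injective (algebraMap R (FractionRing R))
      (IsFractionRing.injective R (FractionRing R))
    simp only [Polynomial.map_add, Polynomial.map_mul, Polynomial.map_C, map_mul, hb, hc]
    have e1 : b • u = C (algebraMap R (FractionRing R) b) * u := by
      rw [Algebra.smul_def]; rfl
    have e2 : c • v = C (algebraMap R (FractionRing R) c) * v := by
      rw [Algebra.smul_def]; rfl
    rw [e1, e2]
    linear_combination (C (algebraMap R (FractionRing R) b) * C (algebraMap R (FractionRing R) c)) * huv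

lemma exists_ne {e : ℕ} (D : MvPolynomial (Fin e) ℂ) (hD : D ≠ 0) :
    ∃ u : Fin e → ℂ, MvPolynomial.eval u D ≠ 0 := by
  by_contra h
  push Not at h
  exact hD (MvPolynomial.funext fun u => by rw [h u, map_zero])

end PkgSQF

open PkgSQF in
theorem pSQF : S_SQF := by
  intro e N T φ τ g hg h1 h2 h3
  obtain ⟨D, hD, h2⟩ := h2
  obtain ⟨u₀, θ₀, h3, h3'⟩ := h3
  let Ψ : (MvPolynomial (Fin e) ℂ)[X] →+* MvPolynomial (Fin N) ℂ :=
    Polynomial.eval₂RingHom (MvPolynomial.aeval φ : MvPolynomial (Fin e) ℂ →ₐ[ℂ] MvPolynomial (Fin N) ℂ).toRingHom τ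
  have hΨ : ∀ (P : (MvPolynomial (Fin e) ℂ)[X]) (z : Fin N → ℂ), MvPolynomial.eval z (Ψ P) =
      (P.map (MvPolynomial.eval (fun i => MvPolynomial.eval z (φ i)))).eval
        (MvPolynomial.eval z τ) := by
    intro P z
    have hr : ((MvPolynomial.eval z).comp Ψ) =
        (Polynomial.evalRingHom (MvPolynomial.eval z τ)).comp
          (Polynomial.mapRingHom (MvPolynomial.eval (fun i => MvPolynomial.eval z (φ i)))) := by
      apply Polynomial.ringHom_ext'
      · apply MvPolynomial.ringHom_ext
        · intro r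
          simp [Ψ]
        · intro i
          simp [Ψ]
      · simp [Ψ]
    exact congrArg (fun f => f P) hr
  have hΨC : ∀ a : MvPolynomial (Fin e) ℂ, Ψ (C a) = 0 → a = 0 := by
    intro a ha
    have : a * D = 0 := by
      apply MvPolynomial.funext
      intro u
      rw [map_mul, map_zero]
      by_cases hu : MvPolynomial.eval u D = 0
      · rw [hu, mul_zero]
      · obtain ⟨⟨θ, hθ⟩, hz⟩ := h2 u hu
        obtain ⟨z, hz1, -⟩ := hz θ hθ
        have h4 := hΨ (C a) z
        rw [ha, map_zero, Polynomial.map_C, Polynomial.eval_C] at h4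
        have h5 : (fun i => MvPolynomial.eval z (φ i)) = u := funext hz1
        rw [h5] at h4
        rw [← h4, zero_mul]
    exact (mul_eq_zero.mp this).resolve_right hD
  have hΨT : Ψ T = 0 := by
    have : g * Ψ T = 0 := by
      apply MvPolynomial.funext
      intro z
      rw [map_mul, map_zero, hΨ]
      by_cases hz : MvPolynomial.eval z g = 0
      · rw [hz, zero_mul]
      · rw [h1 z hz, mul_zero]
    exact (mul_eq_zero.mp this).resolve_left hg
  have hT0 : T ≠ 0 := by
    rintro rfl
    simp at h3'
  have hker : RingHom.ker Ψ ≠ ⊥ := by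
    intro h
    have : T ∈ RingHom.ker Ψ := hΨT
    rw [h] at this
    exact hT0 this
  obtain ⟨P, hPk, hP⟩ := Ideal.IsPrime.exists_mem_prime_of_ne_bot (RingHom.ker_isPrime Ψ) hker
  have hPk : Ψ P = 0 := hPk
  have hPd : P.natDegree ≠ 0 := by
    intro h0
    obtain ⟨s, hs⟩ := Polynomial.natDegree_eq_zero.mp h0
    have := hΨC s (by rw [hs]; exact hPk)
    rw [this, map_zero] at hs
    exact hP.ne_zero hs.symm
  have hkerP : ∀ Q, Ψ Q = 0 → P ∣ Q := by
    intro Q hQ
    by_contra hdvd
    obtain ⟨x, y, a, ha, hxy⟩ := bezout P Q hP.irreducible hPd hdvd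
    have := congrArg Ψ hxy
    rw [map_add, map_mul, map_mul, hPk, hQ, mul_zero, mul_zero, add_zero] at this
    exact ha (hΨC a this.symm)
  -- the evaluation of `P` at the roots of `T`
  have hroot : ∀ u : Fin e → ℂ, MvPolynomial.eval u D ≠ 0 → ∀ θ : ℂ,
      (T.map (MvPolynomial.eval u)).eval θ = 0 → (P.map (MvPolynomial.eval u)).eval θ = 0 := by
    intro u hu θ hθ
    obtain ⟨z, hz1, hz2⟩ := (h2 u hu).2 θ hθ
    have h4 := hΨ P z
    rw [hPk, map_zero, hz2] at h4
    have h5 : (fun i => MvPolynomial.eval z (φ i)) = u := funext hz1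
    rw [h5] at h4
    exact h4.symm
  have hS : ∀ S : (MvPolynomial (Fin e) ℂ)[X], S ∣ T → ¬ P ∣ S → S.natDegree = 0 := by
    intro S hST hPS
    by_contra hSd
    obtain ⟨x, y, a, ha, hxy⟩ := bezout P S hP.irreducible hPd hPS
    have hS0 : S ≠ 0 := by
      rintro rfl
      exact hPS (dvd_zero P)
    have hlc : S.leadingCoeff ≠ 0 := Polynomial.leadingCoeff_ne_zero.mpr hS0
    obtain ⟨u, hu⟩ := exists_ne (a * D * S.leadingCoeff) (mul_ne_zero (mul_ne_zero ha hD) hlc)
    rw [map_mul, map_mul] at hu
    have hua : MvPolynomial.eval u a ≠ 0 := left_ne_zero_of_mul (left_ne_zero_of_mul hu)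
    have huD : MvPolynomial.eval u D ≠ 0 := right_ne_zero_of_mul (left_ne_zero_of_mul hu)
    have hul : MvPolynomial.eval u S.leadingCoeff ≠ 0 := right_ne_zero_of_mul hu
    have hdeg : (S.map (MvPolynomial.eval u)).natDegree = S.natDegree :=
      Polynomial.natDegree_map_of_leadingCoeff_ne_zero _ hul
    obtain ⟨θ, hθ⟩ := IsAlgClosed.exists_root (S.map (MvPolynomial.eval u)) (by
      intro h
      have := Polynomial.natDegree_eq_of_degree_eq_some h
      rw [hdeg] at this
      exact hSd this)
    have hθT : (T.map (MvPolynomial.eval u)).eval θ = 0 := by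
      obtain ⟨S', hS'⟩ := hST
      rw [hS', Polynomial.map_mul, Polynomial.eval_mul, hθ.eq_zero, zero_mul]
    have hθP := hroot u huD θ hθT
    have h6 := congrArg (fun F => (F.map (MvPolynomial.eval u)).eval θ) hxy
    simp only [Polynomial.map_add, Polynomial.map_mul, Polynomial.eval_add, Polynomial.eval_mul,
      Polynomial.map_C, Polynomial.eval_C, hθP, hθ.eq_zero, mul_zero, add_zero] at h6
    exact hua h6.symm
  -- `T = P ^ k * S`, `P ∤ S`
  obtain ⟨S, hTS, hPS⟩ :=
    (FiniteMultiplicity.of_prime_left hP hT0).exists_eq_pow_mul_and_not_dvd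
  generalize multiplicity P T = k at hTS
  have hSdeg : S.natDegree = 0 := hS S (Dvd.intro_left _ hTS.symm) hPS
  obtain ⟨s, hs⟩ := Polynomial.natDegree_eq_zero.mp hSdeg
  subst hs
  have hs0 : s ≠ 0 := by
    rintro rfl
    exact hPS (by rw [map_zero]; exact dvd_zero P)
  have hmapT : ∀ u : Fin e → ℂ, T.map (MvPolynomial.eval u) =
      (P.map (MvPolynomial.eval u)) ^ k * C (MvPolynomial.eval u s) := by
    intro u
    rw [hTS, Polynomial.map_mul, Polynomial.map_pow, Polynomial.map_C]
  have hk : k = 1 := by
    rcases Nat.lt_trichotomy k 1 with h | h | h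
    · exfalso
      have h0 : k = 0 := by omega
      rw [h0, pow_zero, one_mul] at hTS
      exact hPS (by rw [← hTS]; exact hkerP T hΨT)
    · exact h
    · exfalso
      obtain ⟨j, rfl⟩ : ∃ j, k = j + 2 := ⟨k - 2, by omega⟩
      rw [hmapT] at h3 h3'
      rw [Polynomial.eval_mul, Polynomial.eval_C, Polynomial.eval_pow] at h3
      have hs1 : MvPolynomial.eval u₀ s ≠ 0 := by
        intro h
        rw [h] at h3'
        simp at h3'
      have hP0 : (P.map (MvPolynomial.eval u₀)).eval θ₀ = 0 :=
        eq_zero_of_pow_eq_zero ((mul_eq_zero.mp h3).resolve_right hs1)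
      apply h3'
      simp only [Polynomial.derivative_mul, Polynomial.derivative_C, mul_zero, add_zero,
        Polynomial.derivative_pow, Polynomial.eval_mul, Polynomial.eval_pow, hP0]
      simp
  subst hk
  -- separability
  have hder : ¬ P ∣ derivative P := by
    intro h
    have h0 : derivative P ≠ 0 := by
      intro h0
      exact hPd (Polynomial.derivative_eq_zero.mp h0)
    have h4 := Polynomial.natDegree_le_of_dvd h h0
    have h5 := Polynomial.natDegree_derivative_lt hPd
    omega
  obtain ⟨x, y, b, hb, hxy⟩ := bezout P (derivative P) hP.irreducible hPd hder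
  refine ⟨b * s, mul_ne_zero hb hs0, fun u hu θ hθ => ?_⟩
  rw [map_mul] at hu
  have hub : MvPolynomial.eval u b ≠ 0 := left_ne_zero_of_mul hu
  have hus : MvPolynomial.eval u s ≠ 0 := right_ne_zero_of_mul hu
  rw [hmapT, pow_one] at hθ ⊢
  rw [Polynomial.eval_mul, Polynomial.eval_C] at hθ
  have hθP : (P.map (MvPolynomial.eval u)).eval θ = 0 := (mul_eq_zero.mp hθ).resolve_right hus
  rw [Polynomial.derivative_mul, Polynomial.derivative_C, mul_zero, add_zero, Polynomial.eval_mul,
    Polynomial.eval_C]
  refine mul_ne_zero ?_ hus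
  intro h
  have h6 := congrArg (fun F => (F.map (MvPolynomial.eval u)).eval θ) hxy
  rw [Polynomial.derivative_map] at h
  simp only [Polynomial.map_add, Polynomial.map_mul, Polynomial.eval_add, Polynomial.eval_mul,
    Polynomial.map_C, Polynomial.eval_C, hθP, h, mul_zero, add_zero] at h6
  exact hub h6.symm

end Pool.Agent.T2H23.ED
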