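import Pool.Agent.T2H23.ED.Stm

/-!
# Project ED, package SYM: the symmetry of the resultant
-/

set_option autoImplicit false

noncomputable section

open Polynomial

namespace Pool.Agent.T2H23.ED

namespace PkgSYM

/-- the symmetry of the coefficients -/
lemma key (x y a b : ℂ) (m k : ℕ) (hxy : x * y = 1) (hb : k = 0 → b = 0) :
    a * y ^ k - (1 + y) ^ m * (b * (1 + y) - 1) =
      y ^ m * y ^ k * (a * x ^ m - (1 + x) ^ m * (b * (1 + x) * x ^ (k - 1) - x ^ k)) := by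
  have h1 : 1 + y = y * (1 + x) := by
    rw [mul_add, mul_one, mul_comm y x, hxy]
    ring
  have h2 : ∀ n : ℕ, y ^ n * x ^ n = 1 := fun n => by
    rw [← mul_pow, mul_comm y x, hxy, one_pow]
  have h3 : (1 + y) ^ m = y ^ m * (1 + x) ^ m := by rw [h1, mul_pow]
  rcases Nat.eq_zero_or_pos k with hk | hk
  · subst hk
    rw [hb rfl, h3]
    simp only [pow_zero, zero_mul]
    linear_combination (-a) * h2 m
  · obtain ⟨j, rfl⟩ : ∃ j, k = j + 1 := ⟨k - 1, by omega⟩
    rw [Nat.add_sub_cancel, h3]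
    have e1 : b * (1 + y) = b * (y * (1 + x)) := by rw [h1]
    rw [e1]
    linear_combination (-a * y ^ (j + 1)) * h2 m + (y ^ m * (1 + x) ^ m) * (b * (1 + x) * y) * h2 j -
      (y ^ m * (1 + x) ^ m) * h2 (j + 1)

lemma ff_eval (d k : ℕ) (x : ℂ) : (ff d k).eval x =
    ((2 : ℂ) ^ (d - 1) * (2 * (k : ℂ) / d - 1)) * x ^ k -
      (1 + x) ^ (d - 1) * ((k : ℂ) / d * (1 + x) - 1) := by
  unfold ff
  simp

lemma gg_eval (d k : ℕ) (x : ℂ) : (gg d k).eval x =
    ((2 : ℂ) ^ (d - 1) * (2 * (k : ℂ) / d - 1)) * x ^ (d - 1) -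
      (1 + x) ^ (d - 1) * ((k : ℂ) / d * (1 + x) * x ^ (k - 1) - x ^ k) := by
  unfold gg
  simp

lemma ff_inv (d k : ℕ) (x y : ℂ) (hxy : x * y = 1) :
    (ff d k).eval y = y ^ (d - 1) * y ^ k * (gg d k).eval x := by
  rw [ff_eval, gg_eval]
  refine key x y _ _ (d - 1) k hxy ?_
  rintro rfl
  simp

lemma gg_inv (d k : ℕ) (x y : ℂ) (hxy : x * y = 1) :
    (gg d k).eval y = y ^ (d - 1) * y ^ k * (ff d k).eval x := by
  have h := ff_inv d k y x (by rw [mul_comm]; exact hxy)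
  have h2 : ∀ n : ℕ, y ^ n * x ^ n = 1 := fun n => by
    rw [← mul_pow, mul_comm y x, hxy, one_pow]
  rw [h]
  calc (gg d k).eval y = (y ^ (d - 1) * x ^ (d - 1)) * (y ^ k * x ^ k) * (gg d k).eval y := by
        rw [h2, h2, one_mul, one_mul]
    _ = _ := by ring

/-- the polynomial with the coefficients `u k * v k` -/
def TT (d : ℕ) (u : V d) (v : ℕ → ℂ) : ℂ[X] :=
  ∑ k : Fin (d + 1), C (u k * v (k : ℕ)) * X ^ (k : ℕ)

lemma TT_deg (d : ℕ) (u : V d) (v : ℕ → ℂ) : (TT d u v).natDegree ≤ d := by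
  unfold TT
  refine natDegree_sum_le_of_forall_le _ _ fun i _ => ?_
  refine (natDegree_C_mul_X_pow_le _ _).trans ?_
  have := i.2
  omega

lemma PA_map (d : ℕ) (u : V d) (x : ℂ) :
    (PA d u).map (evalRingHom x) = TT d u (fun k => (ff d k).eval x) := by
  unfold PA TT
  simp [Polynomial.map_sum]

lemma PB_map (d : ℕ) (u : V d) (x : ℂ) :
    (PB d u).map (evalRingHom x) = TT d u (fun k => (gg d k).eval x) := by
  unfold PB TT
  simp [Polynomial.map_sum]

lemma TT_comp (d : ℕ) (u : V d) (v w : ℕ → ℂ) (c y : ℂ) (h : ∀ k, v k = c * y ^ k * w k) :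
    TT d u v = C c * (TT d u w).comp (C y * X) := by
  unfold TT
  rw [Polynomial.sum_comp, Finset.mul_sum]
  refine Finset.sum_congr rfl fun k _ => ?_
  rw [h k, mul_comp, C_comp, pow_comp, X_comp, mul_pow, ← C_pow]
  simp only [C_mul]
  ring

/-- the functional equation of the resultant -/
lemma RU_inv (hS : S_SCAL) (d : ℕ) (u : V d) (x y : ℂ) (hxy : x * y = 1) :
    (RU d u).eval y = (y ^ (d - 1)) ^ d * ((y ^ (d - 1)) ^ d * (y ^ (d * d) *
      ((-1) ^ (d * d) * (RU d u).eval x))) := by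
  have hy : y ≠ 0 := by
    rintro rfl
    simp at hxy
  rw [RU_eval, RU_eval, PA_map, PB_map, PA_map, PB_map,
    TT_comp d u _ _ _ y (fun k => ff_inv d k x y hxy),
    TT_comp d u _ _ _ y (fun k => gg_inv d k x y hxy),
    resultant_C_mul_left, resultant_C_mul_right, hS d y _ _ hy (TT_deg _ _ _) (TT_deg _ _ _),
    resultant_comm]

lemma T_inv (hS : S_SCAL) (d n : ℕ) (hd : 4 ≤ d) (hn : n + 9 * d = 3 * d ^ 2 + 2) (u : V d)
    (T : ℂ[X]) (hT : RU d u = X ^ (d - 1) * (X - 1) ^ (5 * d) * T) (x y : ℂ) (hxy : x * y = 1)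
    (hx1 : x ≠ 1) : T.eval x = x ^ n * T.eval y := by
  have h := RU_inv hS d u x y hxy
  have hy : y ≠ 0 := by
    rintro rfl
    simp at hxy
  rw [hT] at h
  simp only [eval_mul, eval_pow, eval_X, eval_sub, eval_one] at h
  obtain ⟨e, rfl⟩ : ∃ e, d = e + 1 := ⟨d - 1, by omega⟩
  rw [Nat.add_sub_cancel] at h
  have h1 : y - 1 = (-1) * y * (x - 1) := by
    linear_combination (1 : ℂ) * hxy
  have h2 : ∀ n : ℕ, y ^ n * x ^ n = 1 := fun n => by
    rw [← mul_pow, mul_comm y x, hxy, one_pow]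
  have h3 : ((-1 : ℂ)) ^ (5 * (e + 1)) = (-1) ^ ((e + 1) * (e + 1)) := by
    rcases Nat.even_or_odd (e + 1) with he | he
    · rw [Even.neg_one_pow (he.mul_left 5), Even.neg_one_pow (he.mul_left _)]
    · rw [Odd.neg_one_pow (Odd.mul (by decide) he), Odd.neg_one_pow (he.mul he)]
  have hexp : e * (e + 1) + e * (e + 1) + (e + 1) * (e + 1) = n + 7 * e + 5 := by
    have h4 : (3 : ℕ) * (e + 1) ^ 2 = e * (e + 1) + e * (e + 1) + (e + 1) * (e + 1) +
        2 * (e + 1) := by ring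
    omega
  have hx1' : (x - 1) ^ (5 * (e + 1)) ≠ 0 := pow_ne_zero _ (sub_ne_zero.2 hx1)
  have hm1 : ((-1 : ℂ)) ^ ((e + 1) * (e + 1)) ≠ 0 := pow_ne_zero _ (by norm_num)
  rw [h1, mul_pow, mul_pow, h3] at h
  -- collect
  have h5 : ((-1 : ℂ) ^ ((e + 1) * (e + 1)) * (x - 1) ^ (5 * (e + 1)) * y ^ (6 * e + 5)) *
      T.eval y = ((-1 : ℂ) ^ ((e + 1) * (e + 1)) * (x - 1) ^ (5 * (e + 1)) * y ^ (6 * e + 5)) *
        (y ^ n * T.eval x) := by
    have e1 : y ^ e * y ^ (5 * (e + 1)) = y ^ (6 * e + 5) := by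
      rw [← pow_add]
      congr 1
      ring
    have e2 : (y ^ e) ^ (e + 1) * ((y ^ e) ^ (e + 1) * y ^ ((e + 1) * (e + 1))) =
        y ^ (6 * e + 5) * y ^ n * y ^ e := by
      rw [← pow_mul, ← pow_add, ← pow_add, ← pow_add, ← pow_add]
      congr 1
      rw [← add_assoc, hexp]
      ring
    calc _ = (y ^ e * y ^ (5 * (e + 1))) * ((-1 : ℂ) ^ ((e + 1) * (e + 1)) *
          (x - 1) ^ (5 * (e + 1)) * T.eval y) := by rw [e1]; ring
      _ = y ^ e * ((-1) ^ ((e + 1) * (e + 1)) * y ^ (5 * (e + 1)) * (x - 1) ^ (5 * (e + 1))) *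
          T.eval y := by ring
      _ = _ := h
      _ = ((y ^ e) ^ (e + 1) * ((y ^ e) ^ (e + 1) * y ^ ((e + 1) * (e + 1)))) *
          ((-1) ^ ((e + 1) * (e + 1)) * (x ^ e * (x - 1) ^ (5 * (e + 1)) * T.eval x)) := by ring
      _ = y ^ (6 * e + 5) * y ^ n * (y ^ e * x ^ e) *
          ((-1) ^ ((e + 1) * (e + 1)) * ((x - 1) ^ (5 * (e + 1)) * T.eval x)) := by
          rw [e2]; ring
      _ = _ := by rw [h2]; ring
  have h6 := mul_left_cancel₀ (mul_ne_zero (mul_ne_zero hm1 hx1') (pow_ne_zero _ hy)) h5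
  rw [h6, ← mul_assoc, mul_comm (x ^ n), h2, one_mul]

/-- a palindromic polynomial -/
lemma pal (n : ℕ) (T : ℂ[X]) (h : ∀ x y : ℂ, x * y = 1 → x ≠ 1 → T.eval x = x ^ n * T.eval y) :
    T.natDegree ≤ n ∧ T.coeff n = T.coeff 0 := by
  set m := T.natDegree with hm
  have hpoly : reflect (m + n) T = X ^ m * T := by
    refine Polynomial.eq_of_infinite_eval_eq _ _ ?_
    have hinf : ({0, 1}ᶜ : Set ℂ).Infinite :=
      (Set.toFinite ({0, 1} : Set ℂ)).infinite_compl
    refine hinf.mono fun x hx => ?_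
    simp only [Set.mem_compl_iff, Set.mem_insert_iff, Set.mem_singleton_iff, not_or] at hx
    obtain ⟨hx0, hx1⟩ := hx
    have hxi : x⁻¹ ≠ 0 := inv_ne_zero hx0
    let _ : Invertible x⁻¹ := invertibleOfNonzero hxi
    have h1 := eval₂_reflect_mul_pow (RingHom.id ℂ) x⁻¹ (m + n) T (by omega)
    have h2 : ⅟(x⁻¹) = x := by
      rw [invOf_eq_inv, inv_inv]
    rw [h2] at h1
    have h3 := h x x⁻¹ (mul_inv_cancel₀ hx0) hx1
    show (reflect (m + n) T).eval x = (X ^ m * T).eval x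
    rw [eval_mul, eval_pow, eval_X, h3]
    have h4 : eval₂ (RingHom.id ℂ) x⁻¹ T = T.eval x⁻¹ := rfl
    have h5 : eval₂ (RingHom.id ℂ) x (reflect (m + n) T) = (reflect (m + n) T).eval x := rfl
    rw [h4, h5] at h1
    rw [← h1]
    have h6 : x ^ m * x ^ n * x⁻¹ ^ (m + n) = 1 := by
      rw [← pow_add, ← mul_pow, mul_inv_cancel₀ hx0, one_pow]
    calc (reflect (m + n) T).eval x
        = (x ^ m * x ^ n * x⁻¹ ^ (m + n)) * (reflect (m + n) T).eval x := by rw [h6, one_mul]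
      _ = _ := by ring
  constructor
  · by_contra hcon
    have hlt : n < m := not_le.1 hcon
    have hT0 : T ≠ 0 := by
      rintro rfl
      rw [natDegree_zero] at hm
      omega
    have h1 := congrArg (fun p => p.coeff (m + m)) hpoly
    simp only [coeff_reflect] at h1
    rw [revAt_eq_self_of_lt (by omega), coeff_X_pow_mul,
      coeff_eq_zero_of_natDegree_lt (by omega : T.natDegree < m + m)] at h1
    exact hT0 (leadingCoeff_eq_zero.1 h1.symm)
  · have h1 := congrArg (fun p => p.coeff (0 + m)) hpoly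
    simp only [coeff_reflect] at h1
    rw [coeff_X_pow_mul, zero_add, revAt_le (by omega), Nat.add_sub_cancel_left] at h1
    exact h1

end PkgSYM

open PkgSYM in
theorem pSYM (hS : S_SCAL) : S_SYM := by
  intro d n hd hn u T hT
  exact pal n T fun x y hxy hx1 => T_inv hS d n hd hn u T hT x y hxy hx1

end Pool.Agent.T2H23.ED
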