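import Pool.Agent.T2H23.ED.CH

/-!
# Packages SPAN, TRF, TRA : the powers span, invariance under linear equivalences
-/

set_option autoImplicit false

noncomputable section

open Polynomial

namespace Pool.Agent.T2H23.ED

theorem pSPAN : S_SPAN := by
  intro d N hN
  by_contra hne
  obtain ⟨f, hf, hker⟩ := Submodule.exists_le_ker_of_lt_top N (lt_top_iff_ne_top.2 hne)
  have hfs : ∀ c : V d, f c = ∑ i, c i * f (Pi.single i 1) := by
    intro c
    conv_lhs => rw [pi_eq_sum_univ' c]
    rw [map_sum]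
    refine Finset.sum_congr rfl fun i _ => ?_
    rw [map_smul, smul_eq_mul]
  set P : ℂ[X] := ∑ i : Fin (d + 1), C ((d.choose (i : ℕ) : ℂ) * f (Pi.single i 1)) * X ^ (i : ℕ)
    with hP
  have hP0 : P = 0 := by
    apply Polynomial.funext
    intro z
    have h1 : f (pw d (1, z)) = 0 := hker (hN (1, z))
    rw [hfs] at h1
    rw [hP, eval_finsetSum, eval_zero, ← h1]
    refine Finset.sum_congr rfl fun i _ => ?_
    simp [pw]
    ring
  apply hf
  refine LinearMap.ext fun c => ?_
  rw [hfs, LinearMap.zero_apply]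
  refine Finset.sum_eq_zero fun i _ => ?_
  have h2 : P.coeff i = (d.choose (i : ℕ) : ℂ) * f (Pi.single i 1) :=
    PU_coeff d (fun i => (d.choose (i : ℕ) : ℂ) * f (Pi.single i 1)) i
  rw [hP0, coeff_zero] at h2
  have h3 : (d.choose (i : ℕ) : ℂ) ≠ 0 := by
    have : 0 < d.choose (i : ℕ) := Nat.choose_pos (by omega)
    exact_mod_cast this.ne'
  rw [(mul_eq_zero.1 h2.symm).resolve_left h3, mul_zero]

namespace PkgTRF

open PkgCH

/-- the composition of a polynomial with a linear map -/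
def pull {d : ℕ} (F : V d →ₗ[ℂ] V d) (P : MvPolynomial (Fin (d + 1)) ℂ) :
    MvPolynomial (Fin (d + 1)) ℂ :=
  MvPolynomial.bind₁ (fun i => ∑ j, MvPolynomial.C (F (Pi.single j 1) i) * MvPolynomial.X j) P

lemma lin_apply {d : ℕ} (F : V d →ₗ[ℂ] V d) (c : V d) (i : Fin (d + 1)) :
    F c i = ∑ j, F (Pi.single j 1) i * c j := by
  have hc : c = ∑ j, c j • (Pi.single j (1 : ℂ) : V d) := by
    funext k
    rw [Finset.sum_apply, Finset.sum_eq_single k]
    · simp
    · intro b _ hb
      simp [Pi.single_apply, Ne.symm hb]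
    · simp
  conv_lhs => rw [hc]
  rw [map_sum, Finset.sum_apply]
  refine Finset.sum_congr rfl fun j _ => ?_
  rw [map_smul, Pi.smul_apply, smul_eq_mul, mul_comm]

lemma eval_pull {d : ℕ} (F : V d →ₗ[ℂ] V d) (c : V d) (P : MvPolynomial (Fin (d + 1)) ℂ) :
    MvPolynomial.eval c (pull F P) = MvPolynomial.eval (F c) P := by
  unfold pull
  induction P using MvPolynomial.induction_on with
  | C a => simp
  | add p q hp hq => simp [hp, hq]
  | mul_X p i hp =>
    rw [map_mul, map_mul, map_mul, hp, MvPolynomial.bind₁_X_right, MvPolynomial.eval_X,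
      lin_apply F c i]
    simp

/-- the line through `c` with direction `v` -/
def line {d : ℕ} (c v : V d) (i : Fin (d + 1)) : ℂ[X] := C (c i) + C (v i) * X

lemma dP_line {d : ℕ} (c v : V d) (P : MvPolynomial (Fin (d + 1)) ℂ) :
    dP c P v = (derivative (MvPolynomial.aeval (line c v) P)).eval 0 := by
  rw [deriv_eval, dP_apply]
  have h : (fun i => (line c v i).eval 0) = c := by
    funext i
    simp [line]
  rw [h]
  refine Finset.sum_congr rfl fun i _ => ?_
  simp [line]

lemma line_pull {d : ℕ} (F : V d →ₗ[ℂ] V d) (c v : V d) (P : MvPolynomial (Fin (d + 1)) ℂ) :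
    MvPolynomial.aeval (line c v) (pull F P) = MvPolynomial.aeval (line (F c) (F v)) P := by
  apply Polynomial.funext
  intro t
  rw [aeval_eval, aeval_eval, eval_pull]
  congr 2
  have h1 : (fun i => (line c v i).eval t) = c + t • v := by
    funext i
    simp only [line, eval_add, eval_mul, eval_C, eval_X, Pi.add_apply, Pi.smul_apply, smul_eq_mul]
    ring
  have h2 : (fun i => (line (F c) (F v) i).eval t) = F c + t • F v := by
    funext i
    simp only [line, eval_add, eval_mul, eval_C, eval_X, Pi.add_apply, Pi.smul_apply, smul_eq_mul]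
    ring
  rw [h1, h2, map_add, map_smul]

lemma dP_pull {d : ℕ} (F : V d →ₗ[ℂ] V d) (c v : V d) (P : MvPolynomial (Fin (d + 1)) ℂ) :
    dP c (pull F P) v = dP (F c) P (F v) := by
  rw [dP_line, dP_line, line_pull]

lemma sec_of {d : ℕ} (F : V d →ₗ[ℂ] V d) (h : ∀ P ∈ IX d, pull F P ∈ IX d) {c : V d}
    (hc : c ∈ Sec d) : F c ∈ Sec d := by
  intro P hP
  rw [← eval_pull]
  exact hc _ (h P hP)

lemma tan_of {d : ℕ} (F : V d →ₗ[ℂ] V d) (h : ∀ P ∈ IX d, pull F P ∈ IX d) {c v : V d}
    (hv : v ∈ Tan d c) : F v ∈ Tan d (F c) := by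
  intro P hP
  rw [← dP_pull]
  exact hv _ (h P hP)

lemma ix_of {d : ℕ} (F : V d →ₗ[ℂ] V d) (h : ∀ l : ℂ × ℂ, ∃ l' : ℂ × ℂ, F (pw d l) = pw d l') :
    ∀ P ∈ IX d, pull F P ∈ IX d := by
  intro P hP l l'
  rw [eval_pull, map_add]
  obtain ⟨m, hm⟩ := h l
  obtain ⟨m', hm'⟩ := h l'
  rw [hm, hm']
  exact hP m m'

end PkgTRF

open PkgTRF in
theorem pTRF : S_TRF := by
  intro d Φ g hg hΦ
  have h1 := ix_of (Φ : V d →ₗ[ℂ] V d) (fun l => ⟨g l, hΦ l⟩)
  have h2 := ix_of (Φ.symm : V d →ₗ[ℂ] V d) (fun l => by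
    obtain ⟨l', rfl⟩ := hg l
    refine ⟨l', ?_⟩
    show Φ.symm (pw d (g l')) = pw d l'
    rw [← hΦ, LinearEquiv.symm_apply_apply])
  refine ⟨fun c => ⟨fun hc => sec_of _ h1 hc, fun hc => ?_⟩, fun c v => ⟨fun hv => tan_of _ h1 hv,
    fun hv => ?_⟩⟩
  · have := sec_of _ h2 hc
    simpa using this
  · have := tan_of _ h2 hv
    simpa using this

open PkgTRF in
theorem pTRA (hPHI : S_PHI) (hTRF : S_TRF) : S_TRA := by
  intro d n hG
  obtain ⟨D, hD, h⟩ := hG
  obtain ⟨Φ, hΦ1, hΦ2⟩ := hPHI d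
  obtain ⟨hsec, htan⟩ := hTRF d Φ (fun l => (l.1 - Complex.I * l.2, l.1 + Complex.I * l.2)) (by
    intro l
    refine ⟨((l.1 + l.2) / 2, Complex.I * (l.1 - l.2) / 2), ?_⟩
    have hI : Complex.I * (Complex.I * (l.1 - l.2) / 2) = -(l.1 - l.2) / 2 := by
      rw [mul_div_assoc, ← mul_assoc, Complex.I_mul_I]
      ring
    refine Prod.ext ?_ ?_
    · show (l.1 + l.2) / 2 - Complex.I * (Complex.I * (l.1 - l.2) / 2) = l.1
      rw [hI]
      ring
    · show (l.1 + l.2) / 2 + Complex.I * (Complex.I * (l.1 - l.2) / 2) = l.2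
      rw [hI]
      ring) hΦ1
  refine ⟨pull (Φ : V d →ₗ[ℂ] V d) D, ?_, ?_⟩
  · intro h0
    apply hD
    apply MvPolynomial.funext
    intro c
    have h1 := eval_pull (Φ : V d →ₗ[ℂ] V d) (Φ.symm c) D
    rw [h0, map_zero] at h1
    rw [map_zero]
    simpa using h1.symm
  · intro u hu
    rw [eval_pull] at hu
    obtain ⟨hfin, hcard⟩ := h (Φ u) hu
    have hmap : ∀ c : V d, Tan d (Φ c) = (Tan d c).map (Φ : V d →ₗ[ℂ] V d) := by
      intro c
      ext v
      constructor
      · intro hv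
        refine ⟨Φ.symm v, ?_, by simp⟩
        show Φ.symm v ∈ Tan d c
        rw [htan, LinearEquiv.apply_symm_apply]
        exact hv
      · rintro ⟨w, hw, rfl⟩
        exact (htan c w).1 hw
    have hcrit : Crit2 d (Φ u) = Φ '' Crit d u := by
      ext c
      constructor
      · rintro ⟨h1, h2, h3⟩
        refine ⟨Φ.symm c, ⟨?_, ?_, ?_⟩, by simp⟩
        · rw [hsec, LinearEquiv.apply_symm_apply]
          exact h1
        · rw [← h2]
          have h4 := hmap (Φ.symm c)
          rw [LinearEquiv.apply_symm_apply] at h4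
          rw [h4]
          exact (LinearEquiv.finrank_map_eq Φ _).symm
        · intro v hv
          have h5 := h3 (Φ v) (by
            have := (htan (Φ.symm c) v).1 hv
            rwa [LinearEquiv.apply_symm_apply] at this)
          have h6 : c - Φ u = Φ (Φ.symm c - u) := by simp
          rw [h6, hΦ2] at h5
          exact (mul_eq_zero.1 h5).resolve_left (pow_ne_zero _ two_ne_zero)
      · rintro ⟨c, ⟨h1, h2, h3⟩, rfl⟩
        refine ⟨(hsec c).1 h1, ?_, ?_⟩
        · rw [hmap, ← h2]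
          exact LinearEquiv.finrank_map_eq Φ _
        · intro v hv
          have h4 : Φ.symm v ∈ Tan d c := by
            rw [htan, LinearEquiv.apply_symm_apply]
            exact hv
          have h5 := hΦ2 (c - u) (Φ.symm v)
          rw [h3 _ h4, mul_zero, LinearEquiv.apply_symm_apply, map_sub] at h5
          exact h5
    rw [hcrit] at hfin hcard
    refine ⟨Set.Finite.of_finite_image hfin Φ.injective.injOn, ?_⟩
    rwa [Set.ncard_image_of_injective _ Φ.injective] at hcard

end Pool.Agent.T2H23.ED
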