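import Pool.Agent.T2H23.ED.Stm

/-!
# Package TRI of project ED (helper34)
-/

set_option autoImplicit false

noncomputable section

open Polynomial

namespace Pool.Agent.T2H23.ED

namespace PkgTRI

/-- resultant of a linear polynomial and a trinomial over a field -/
lemma lin {K : Type*} [Field K] (d : ℕ) (hd : 2 ≤ d) (α β b₀ b₁ b' : K) :
    resultant (C α + C β * X) (C b₀ + C b₁ * X + C b' * X ^ d) 1 d =
      b₀ * β ^ d - b₁ * α * β ^ (d - 1) + b' * (-α) ^ d := by
  have hdeg : (C b₀ + C b₁ * X + C b' * X ^ d).natDegree ≤ d := by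
    compute_degree
    omega
  have hco : (C b₀ + C b₁ * X + C b' * X ^ d).coeff d = b' := by
    rw [coeff_add, coeff_add, coeff_C_mul_X_pow, if_pos rfl, coeff_C, if_neg (by omega),
      coeff_C_mul, coeff_X, if_neg (by omega)]
    ring
  obtain ⟨e, rfl⟩ : ∃ e, d = e + 1 := ⟨d - 1, by omega⟩
  by_cases hβ : β = 0
  · subst hβ
    have he : e + 1 - 1 ≠ 0 := by omega
    have h1 : C α + C (0 : K) * X = C α := by simp
    rw [h1, resultant_C_left, hco]
    rw [zero_pow he, zero_pow (by omega)]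
    rw [neg_pow α]
    ring
  · have h1 : C α + C β * X = C β * (X + C (α / β)) := by
      rw [mul_add, ← C_mul, mul_div_cancel₀ _ hβ]
      ring
    rw [h1, resultant_C_mul_left, resultant_X_add_C_left _ _ _ hdeg]
    simp only [eval_add, eval_mul, eval_C, eval_X, eval_pow, Nat.add_sub_cancel]
    have h2 : β ^ (e + 1) * (-(α / β)) ^ (e + 1) = (-α) ^ (e + 1) := by
      rw [← mul_pow]
      congr 1
      field_simp
    have h3 : β ^ (e + 1) * (-(α / β)) = - α * β ^ e := by
      rw [pow_succ]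
      field_simp
    calc β ^ (e + 1) * (b₀ + b₁ * -(α / β) + b' * (-(α / β)) ^ (e + 1))
        = b₀ * β ^ (e + 1) + b₁ * (β ^ (e + 1) * (-(α / β))) +
          b' * (β ^ (e + 1) * (-(α / β)) ^ (e + 1)) := by ring
      _ = _ := by rw [h2, h3]; ring

/-- the resultant of two trinomials over a field -/
lemma fld {K : Type*} [Field K] (d : ℕ) (hd : 2 ≤ d) (a₀ a₁ a' b₀ b₁ b' : K) (hb : b' ≠ 0) :
    resultant (C a₀ + C a₁ * X + C a' * X ^ d) (C b₀ + C b₁ * X + C b' * X ^ d) d d =
    (-1) ^ d * (a₀ * b' - a' * b₀) ^ d - (a₀ * b₁ - a₁ * b₀) * (a₁ * b' - a' * b₁) ^ (d - 1) := by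
  obtain ⟨B, hB⟩ : ∃ B : K[X], B = C b₀ + C b₁ * X + C b' * X ^ d := ⟨_, rfl⟩
  have hdeg : B.natDegree ≤ d := by
    rw [hB]
    compute_degree
    omega
  have hco : B.coeff d = b' := by
    rw [hB, coeff_add, coeff_add, coeff_C_mul_X_pow, if_pos rfl, coeff_C, if_neg (by omega),
      coeff_C_mul, coeff_X, if_neg (by omega)]
    ring
  have h1 : b' ^ d * resultant (C a₀ + C a₁ * X + C a' * X ^ d) B d d =
      resultant (C (a₀ * b' - a' * b₀) + C (a₁ * b' - a' * b₁) * X) B d d := by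
    rw [← resultant_C_mul_left, ← resultant_add_mul_left (C (a₀ * b' - a' * b₀) +
      C (a₁ * b' - a' * b₁) * X) B (C a') d d (by simp) hdeg]
    congr 1
    rw [hB]
    simp only [C_mul, C_sub]
    ring
  obtain ⟨e, rfl⟩ : ∃ e, d = 1 + e := ⟨d - 1, by omega⟩
  have hlin : (C (a₀ * b' - a' * b₀) + C (a₁ * b' - a' * b₁) * X).natDegree ≤ 1 := by
    compute_degree
  have h2 := resultant_add_left_deg (C (a₀ * b' - a' * b₀) + C (a₁ * b' - a' * b₁) * X) B
    1 (1 + e) e hlin
  have hev : ((-1 : K)) ^ ((1 + e) * e) = 1 := by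
    apply Even.neg_one_pow
    rw [add_comm, mul_comm]
    exact Nat.even_mul_succ_self e
  rw [h2, hco, hev, one_mul] at h1
  rw [hB, lin (1 + e) hd] at h1
  have h3 : b' ^ (1 + e) = b' ^ e * b' := by rw [pow_add, pow_one]; ring
  rw [h3, mul_assoc, Nat.add_sub_cancel_left] at h1
  have h4 := mul_left_cancel₀ (pow_ne_zero e hb) h1
  rw [Nat.add_sub_cancel_left]
  apply mul_left_cancel₀ hb
  rw [h4, neg_pow (a₀ * b' - a' * b₀), pow_add (a₁ * b' - a' * b₁), pow_one]
  ring

end PkgTRI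

open PkgTRI in
theorem pTRI : S_TRI := by
  intro d hd a₀ a₁ a' b₀ b₁ b' hb
  have hinj : Function.Injective (algebraMap ℂ[X] (FractionRing ℂ[X])) :=
    IsFractionRing.injective _ _
  apply hinj
  rw [← resultant_map_map]
  have h := fld (K := FractionRing ℂ[X]) d hd (algebraMap _ _ a₀) (algebraMap _ _ a₁)
    (algebraMap _ _ a') (algebraMap _ _ b₀) (algebraMap _ _ b₁) (algebraMap _ _ b')
    (fun h0 => hb (hinj (by rw [h0, map_zero])))
  have hA : ∀ x y z : ℂ[X], (C x + C y * X + C z * X ^ d).map (algebraMap ℂ[X] (FractionRing ℂ[X])) =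
      C (algebraMap _ _ x) + C (algebraMap _ _ y) * X + C (algebraMap _ _ z) * X ^ d := by
    intro x y z
    simp
  rw [hA, hA, h]
  simp only [map_sub, map_mul, map_pow, map_neg, map_one]

end Pool.Agent.T2H23.ED
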