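import Pool.Agent.T2H23.ED.Stm

set_option autoImplicit false

noncomputable section

open Polynomial

namespace Pool.Agent.T2H23.ED

namespace PkgU1

lemma dP_apply {d : ℕ} (c : V d) (P : MvPolynomial (Fin (d + 1)) ℂ) (v : V d) :
    dP c P v = ∑ i, MvPolynomial.eval c (MvPolynomial.pderiv i P) * v i := by
  unfold dP
  simp

lemma dP_add {d : ℕ} (c : V d) (P Q : MvPolynomial (Fin (d + 1)) ℂ) (v : V d) :
    dP c (P + Q) v = dP c P v + dP c Q v := by
  rw [dP_apply, dP_apply, dP_apply, ← Finset.sum_add_distrib]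
  refine Finset.sum_congr rfl fun i _ => ?_
  rw [map_add, map_add]; ring

lemma dP_sub {d : ℕ} (c : V d) (P Q : MvPolynomial (Fin (d + 1)) ℂ) (v : V d) :
    dP c (P - Q) v = dP c P v - dP c Q v := by
  rw [dP_apply, dP_apply, dP_apply, ← Finset.sum_sub_distrib]
  refine Finset.sum_congr rfl fun i _ => ?_
  rw [map_sub, map_sub]; ring

lemma dP_mul {d : ℕ} (c : V d) (P Q : MvPolynomial (Fin (d + 1)) ℂ) (v : V d) :
    dP c (P * Q) v = MvPolynomial.eval c P * dP c Q v + MvPolynomial.eval c Q * dP c P v := by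
  rw [dP_apply, dP_apply, dP_apply, Finset.mul_sum, Finset.mul_sum, ← Finset.sum_add_distrib]
  refine Finset.sum_congr rfl fun i _ => ?_
  rw [MvPolynomial.pderiv_mul, map_add, map_mul, map_mul]; ring

/-- linear form -/
def LP (d : ℕ) (w : V d) : MvPolynomial (Fin (d + 1)) ℂ :=
  ∑ j, MvPolynomial.C (w j / (d.choose (j : ℕ) : ℂ)) * MvPolynomial.X (Fin.rev j)

lemma eval_LP (d : ℕ) (w c : V d) : MvPolynomial.eval c (LP d w) = B2 d w c := by
  unfold LP B2
  rw [map_sum]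
  refine Finset.sum_congr rfl fun i _ => ?_
  rw [map_mul, MvPolynomial.eval_C, MvPolynomial.eval_X]
  ring

lemma dP_LP (d : ℕ) (w c v : V d) : dP c (LP d w) v = B2 d w v := by
  rw [dP_apply]
  have h : ∀ i, MvPolynomial.eval c (MvPolynomial.pderiv i (LP d w)) =
      ∑ j : Fin (d + 1), w j / (d.choose (j : ℕ) : ℂ) * (if Fin.rev j = i then 1 else 0) := by
    intro i
    unfold LP
    rw [map_sum, map_sum]
    refine Finset.sum_congr rfl fun j _ => ?_
    rw [MvPolynomial.pderiv_C_mul, MvPolynomial.pderiv_X, map_mul, MvPolynomial.eval_C]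
    congr 1
    by_cases hj : Fin.rev j = i
    · rw [if_pos hj, ← hj, Pi.single_eq_same, map_one]
    · rw [if_neg hj, Pi.single_eq_of_ne hj, map_zero]
  simp_rw [h, Finset.sum_mul]
  rw [Finset.sum_comm]
  unfold B2
  refine Finset.sum_congr rfl fun j _ => ?_
  rw [Finset.sum_eq_single (Fin.rev j)]
  · rw [if_pos rfl]; ring
  · intro i _ hi
    rw [if_neg (Ne.symm hi)]; ring
  · intro h; exact absurd (Finset.mem_univ _) h

/-- homogenization -/
def HH (n : ℕ) (π : ℂ[X]) (l : ℂ × ℂ) : ℂ :=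
  ∑ i : Fin (n + 1), π.coeff i * l.1 ^ (i : ℕ) * l.2 ^ (n - (i : ℕ))

lemma B2_pw (d : ℕ) (π : ℂ[X]) (l : ℂ × ℂ) : B2 d (vec d π) (pw d l) = HH d π l := by
  unfold B2 HH vec pw
  refine Finset.sum_congr rfl fun i _ => ?_
  have hi : (i : ℕ) ≤ d := by have := i.2; omega
  have h1 : ((Fin.rev i : Fin (d + 1)) : ℕ) = d - i := by
    rw [Fin.val_rev]; omega
  rw [h1, Nat.choose_symm hi, show d - (d - (i : ℕ)) = i by omega]
  have : (d.choose (i : ℕ) : ℂ) ≠ 0 := by
    have := Nat.choose_pos hi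
    exact_mod_cast this.ne'
  field_simp

lemma HH_eq (n : ℕ) (π : ℂ[X]) (hπ : π.natDegree ≤ n) (l : ℂ × ℂ) : HH n π l =
    if l.2 = 0 then π.coeff n * l.1 ^ n else l.2 ^ n * π.eval (l.1 / l.2) := by
  unfold HH
  split_ifs with h
  · rw [Finset.sum_eq_single (Fin.last n)]
    · simp
    · intro i _ hi
      have : (i : ℕ) < n := by
        have := i.2
        have : (i : ℕ) ≠ n := fun h' => hi (Fin.ext h')
        omega
      rw [h, zero_pow (by omega), mul_zero]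
    · intro h'; exact absurd (Finset.mem_univ _) h'
  · rw [eval_eq_sum_range' (show π.natDegree < n + 1 by omega), ← Fin.sum_univ_eq_sum_range
      (fun i => π.coeff i * (l.1 / l.2) ^ i) (n + 1), Finset.mul_sum]
    refine Finset.sum_congr rfl fun i _ => ?_
    have hi : (i : ℕ) ≤ n := by have := i.2; omega
    obtain ⟨k, hk⟩ : ∃ k, n = i + k := ⟨n - i, by omega⟩
    have h2 : n - (i : ℕ) = k := by omega
    have h3 : l.2 ^ n = l.2 ^ (i : ℕ) * l.2 ^ k := by rw [← pow_add, ← hk]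
    rw [h2, h3, div_pow]
    field_simp

lemma HH_mul (m n : ℕ) (α β : ℂ[X]) (hα : α.natDegree ≤ m) (hβ : β.natDegree ≤ n) (l : ℂ × ℂ) :
    HH (m + n) (α * β) l = HH m α l * HH n β l := by
  rw [HH_eq _ _ (natDegree_mul_le.trans (add_le_add hα hβ)), HH_eq _ _ hα, HH_eq _ _ hβ]
  split_ifs with h
  · rw [coeff_mul_add_eq_of_natDegree_le hα hβ, pow_add]; ring
  · rw [eval_mul, pow_add]; ring

/-- three by three determinant -/
def dt {R : Type*} [CommRing R] (a b c a' b' c' a'' b'' c'' : R) : R :=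
  a * (b' * c'' - c' * b'') - b * (a' * c'' - c' * a'') + c * (a' * b'' - b' * a'')

/-- the determinant polynomial -/
def DD (d : ℕ) (α0 α1 α2 β0 β1 β2 : ℂ[X]) : MvPolynomial (Fin (d + 1)) ℂ :=
  dt (LP d (vec d (α0 * β0))) (LP d (vec d (α0 * β1))) (LP d (vec d (α0 * β2)))
    (LP d (vec d (α1 * β0))) (LP d (vec d (α1 * β1))) (LP d (vec d (α1 * β2)))
    (LP d (vec d (α2 * β0))) (LP d (vec d (α2 * β1))) (LP d (vec d (α2 * β2)))

lemma B2_add_right (d : ℕ) (a b c : V d) : B2 d a (b + c) = B2 d a b + B2 d a c := by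
  unfold B2
  rw [← Finset.sum_add_distrib]
  refine Finset.sum_congr rfl fun i _ => ?_
  rw [Pi.add_apply]
  ring

lemma B2_smul_right (d : ℕ) (r : ℂ) (a c : V d) : B2 d a (r • c) = r * B2 d a c := by
  unfold B2
  rw [Finset.mul_sum]
  refine Finset.sum_congr rfl fun i _ => ?_
  rw [Pi.smul_apply, smul_eq_mul]
  ring

lemma DD_mem (d : ℕ) (hd : 2 ≤ d) (α0 α1 α2 β0 β1 β2 : ℂ[X]) (h0 : α0.natDegree ≤ 2)
    (h1 : α1.natDegree ≤ 2) (h2 : α2.natDegree ≤ 2) (g0 : β0.natDegree ≤ d - 2)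
    (g1 : β1.natDegree ≤ d - 2) (g2 : β2.natDegree ≤ d - 2) :
    DD d α0 α1 α2 β0 β1 β2 ∈ IX d := by
  intro l l'
  unfold DD dt
  simp only [map_add, map_sub, map_mul, eval_LP, B2_add_right, B2_pw]
  obtain ⟨e, rfl⟩ : ∃ e, d = 2 + e := ⟨d - 2, by omega⟩
  rw [show 2 + e - 2 = e by omega] at g0 g1 g2
  simp only [HH_mul 2 e _ _ h0 g0, HH_mul 2 e _ _ h0 g1, HH_mul 2 e _ _ h0 g2,
    HH_mul 2 e _ _ h1 g0, HH_mul 2 e _ _ h1 g1, HH_mul 2 e _ _ h1 g2,
    HH_mul 2 e _ _ h2 g0, HH_mul 2 e _ _ h2 g1, HH_mul 2 e _ _ h2 g2]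
  ring

lemma dP_DD (d : ℕ) (α0 α1 α2 β0 β1 β2 : ℂ[X]) (c v : V d)
    (h00 : B2 d (vec d (α0 * β0)) c = 0) (h01 : B2 d (vec d (α0 * β1)) c = 0)
    (h02 : B2 d (vec d (α0 * β2)) c = 0) (h10 : B2 d (vec d (α1 * β0)) c = 0)
    (h12 : B2 d (vec d (α1 * β2)) c = 0) (h20 : B2 d (vec d (α2 * β0)) c = 0)
    (h21 : B2 d (vec d (α2 * β1)) c = 0) :
    dP c (DD d α0 α1 α2 β0 β1 β2) v = B2 d (vec d (α0 * β0)) v *
      B2 d (vec d (α1 * β1)) c * B2 d (vec d (α2 * β2)) c := by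
  unfold DD dt
  simp only [dP_add, dP_sub, dP_mul, dP_LP, map_add, map_sub, map_mul, eval_LP]
  rw [h00, h01, h02, h10, h12, h20, h21]
  ring

lemma HH_one (d : ℕ) (π : ℂ[X]) (hπ : π.natDegree ≤ d) (p : ℂ) : HH d π (p, 1) = π.eval p := by
  rw [HH_eq d π hπ, if_neg (by simp)]
  simp

end PkgU1

open PkgU1

theorem pU1 : S_U1 := by
  intro d hd p q a b hpq ha hb v hv h hh
  have hc : vec d (C a * (X + C p) ^ d + C b * (X + C q) ^ d) =
      a • pw d (p, 1) + b • pw d (q, 1) := by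
    rw [vec_add, vec_C_mul, vec_C_mul, pw_one, pw_one]
  rw [hc] at hv
  set c := a • pw d (p, 1) + b • pw d (q, 1) with hcdef
  have hB : ∀ π : ℂ[X], π.natDegree ≤ d → B2 d (vec d π) c = a * π.eval p + b * π.eval q := by
    intro π hπ
    rw [hcdef, B2_add_right, B2_smul_right, B2_smul_right, B2_pw, B2_pw, HH_one d π hπ,
      HH_one d π hπ]
  have np : (X - C p : ℂ[X]).natDegree ≤ 1 := natDegree_X_sub_C_le p
  have nq : (X - C q : ℂ[X]).natDegree ≤ 1 := natDegree_X_sub_C_le q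
  have n0 : ((X - C p) * (X - C q) : ℂ[X]).natDegree ≤ 2 :=
    natDegree_mul_le.trans (by omega)
  have n1 : ((X - C p) * (X - C q) * h : ℂ[X]).natDegree ≤ d - 2 :=
    natDegree_mul_le.trans (by omega)
  have key := hv _ (DD_mem d (by omega) ((X - C p) * (X - C q)) (X - C q) (X - C p)
    ((X - C p) * (X - C q) * h) (X - C q) (X - C p) n0 (by omega) (by omega) n1 (by omega)
    (by omega))
  have dm : ∀ α β : ℂ[X], α.natDegree ≤ 2 → β.natDegree ≤ d - 2 → (α * β).natDegree ≤ d :=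
    fun α β h1 h2 => natDegree_mul_le.trans (by omega)
  rw [dP_DD] at key
  · rw [hB ((X - C q) * (X - C q)) (dm _ _ (by omega) (by omega)),
      hB ((X - C p) * (X - C p)) (dm _ _ (by omega) (by omega))] at key
    simp only [eval_mul, eval_sub, eval_X, eval_C, sub_self, mul_zero, add_zero, zero_add] at key
    have e1 : (X - C p) ^ 2 * (X - C q) ^ 2 * h =
        (X - C p) * (X - C q) * ((X - C p) * (X - C q) * h) := by ring
    rw [e1]
    have hpq' : p - q ≠ 0 := sub_ne_zero.2 hpq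
    have hqp' : q - p ≠ 0 := sub_ne_zero.2 (Ne.symm hpq)
    rcases mul_eq_zero.1 key with h1 | h1
    · rcases mul_eq_zero.1 h1 with h2 | h2
      · exact h2
      · exact absurd h2 (mul_ne_zero ha (mul_ne_zero hpq' hpq'))
    · exact absurd h1 (mul_ne_zero hb (mul_ne_zero hqp' hqp'))
  · rw [hB _ (dm _ _ n0 n1)]; simp
  · rw [hB _ (dm _ _ n0 (by omega))]; simp
  · rw [hB _ (dm _ _ n0 (by omega))]; simp
  · rw [hB _ (dm _ _ (by omega) n1)]; simp
  · rw [hB _ (dm _ _ (by omega) (by omega))]; simp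
  · rw [hB _ (dm _ _ (by omega) n1)]; simp
  · rw [hB _ (dm _ _ (by omega) (by omega))]; simp

end Pool.Agent.T2H23.ED
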