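import Pool.Agent.T2H23.ED.Stm

/-!
# Project ED, package U2: a tangent space of dimension 4
-/

set_option autoImplicit false

noncomputable section

open Polynomial

namespace Pool.Agent.T2H23.ED

namespace PkgU2

/-- `vec` as a linear map -/
def vecL (d : ℕ) : ℂ[X] →ₗ[ℂ] V d := LinearMap.pi fun i => lcoeff ℂ (i : ℕ)

lemma vecL_apply (d : ℕ) (p : ℂ[X]) : vecL d p = vec d p := rfl

lemma B2_add_right (d : ℕ) (a b c : V d) : B2 d a (b + c) = B2 d a b + B2 d a c := by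
  unfold B2
  rw [← Finset.sum_add_distrib]
  refine Finset.sum_congr rfl fun i _ => ?_
  rw [Pi.add_apply]
  ring

lemma B2_smul_right (d : ℕ) (r : ℂ) (a c : V d) : B2 d a (r • c) = r * B2 d a c := by
  unfold B2
  rw [Finset.mul_sum]
  refine Finset.sum_congr rfl fun i _ => ?_
  rw [Pi.smul_apply, smul_eq_mul]
  ring

/-- `B2` as a bilinear map -/
def B2L (d : ℕ) : V d →ₗ[ℂ] V d →ₗ[ℂ] ℂ :=
  LinearMap.mk₂ ℂ (B2 d) (B2_add_left d) (fun r a c => by rw [B2_smul_left]; rfl)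
    (B2_add_right d) (fun r a c => by rw [B2_smul_right]; rfl)

lemma B2L_apply (d : ℕ) (a c : V d) : B2L d a c = B2 d a c := rfl

/-- the form is nondegenerate -/
lemma B2_nondeg (d : ℕ) (a : V d) (h : ∀ c, B2 d a c = 0) : a = 0 := by
  classical
  funext i
  have h1 := h (Pi.single (Fin.rev i) 1)
  unfold B2 at h1
  rw [Finset.sum_eq_single i] at h1
  · rw [Pi.single_eq_same, mul_one] at h1
    have h2 : ((d.choose (i : ℕ) : ℕ) : ℂ) ≠ 0 := by
      have := i.2
      exact_mod_cast (Nat.choose_pos (by omega)).ne'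
    rcases div_eq_zero_iff.1 h1 with h3 | h3
    · exact h3
    · exact absurd h3 h2
  · intro j _ hj
    rw [Pi.single_eq_of_ne (fun h' => hj (Fin.rev_injective h')), mul_zero, zero_div]
  · intro h'
    exact absurd (Finset.mem_univ _) h'

/-- polynomials of degree `< m` -/
def pl (m : ℕ) : (Fin m → ℂ) →ₗ[ℂ] ℂ[X] where
  toFun a := ∑ j : Fin m, C (a j) * X ^ (j : ℕ)
  map_add' a b := by
    rw [← Finset.sum_add_distrib]
    refine Finset.sum_congr rfl fun j _ => ?_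
    rw [Pi.add_apply, C_add, add_mul]
  map_smul' r a := by
    rw [RingHom.id_apply, smul_eq_C_mul, Finset.mul_sum]
    refine Finset.sum_congr rfl fun j _ => ?_
    rw [Pi.smul_apply, smul_eq_mul, C_mul, mul_assoc]

lemma pl_coeff (m : ℕ) (a : Fin m → ℂ) (j : Fin m) : (pl m a).coeff j = a j := by
  show (∑ j : Fin m, C (a j) * X ^ (j : ℕ)).coeff j = a j
  rw [finsetSum_coeff, Finset.sum_eq_single j]
  · simp
  · intro i _ hi
    rw [coeff_C_mul, coeff_X_pow, if_neg, mul_zero]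
    intro h
    exact hi (Fin.ext h.symm)
  · intro h'
    exact absurd (Finset.mem_univ _) h'

lemma pl_deg (m n : ℕ) (hmn : m ≤ n + 1) (a : Fin m → ℂ) : (pl m a).natDegree ≤ n := by
  show (∑ j : Fin m, C (a j) * X ^ (j : ℕ)).natDegree ≤ n
  refine natDegree_sum_le_of_forall_le _ _ fun i _ => ?_
  refine (natDegree_C_mul_X_pow_le _ _).trans ?_
  have := i.2
  omega

/-- `(X - p)² (X - q)²` -/
def P0 (p q : ℂ) : ℂ[X] := (X - C p) ^ 2 * (X - C q) ^ 2

lemma P0_monic (p q : ℂ) : (P0 p q).Monic :=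
  ((monic_X_sub_C p).pow 2).mul ((monic_X_sub_C q).pow 2)

lemma P0_deg (p q : ℂ) : (P0 p q).natDegree = 4 := by
  unfold P0
  rw [((monic_X_sub_C p).pow 2).natDegree_mul ((monic_X_sub_C q).pow 2),
    (monic_X_sub_C p).natDegree_pow, (monic_X_sub_C q).natDegree_pow, natDegree_X_sub_C,
    natDegree_X_sub_C]

/-- the functionals -/
def T (d : ℕ) (p q : ℂ) : (Fin (d - 3) → ℂ) →ₗ[ℂ] Module.Dual ℂ (V d) :=
  (B2L d) ∘ₗ (vecL d) ∘ₗ (LinearMap.mulLeft ℂ (P0 p q)) ∘ₗ (pl (d - 3))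

lemma T_apply (d : ℕ) (p q : ℂ) (a : Fin (d - 3) → ℂ) (v : V d) :
    T d p q a v = B2 d (vec d (P0 p q * pl (d - 3) a)) v := rfl

lemma T_inj (d : ℕ) (hd : 4 ≤ d) (p q : ℂ) : Function.Injective (T d p q) := by
  rw [injective_iff_map_eq_zero]
  intro a ha
  have h1 : vec d (P0 p q * pl (d - 3) a) = 0 := B2_nondeg d _ fun c => by
    rw [← T_apply, ha]
    rfl
  have h2 : (P0 p q * pl (d - 3) a).natDegree ≤ d := by
    refine natDegree_mul_le.trans ?_
    rw [P0_deg]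
    have := pl_deg (d - 3) (d - 4) (by omega) a
    omega
  have h3 := PU_vec d _ h2
  rw [h1] at h3
  have h4 : PU d (0 : V d) = 0 := by
    unfold PU
    simp
  rw [h4] at h3
  have h5 : pl (d - 3) a = 0 := by
    rcases mul_eq_zero.1 h3.symm with h | h
    · exact absurd h (P0_monic p q).ne_zero
    · exact h
  funext j
  have h6 := pl_coeff (d - 3) a j
  rw [h5, coeff_zero] at h6
  exact h6.symm

lemma upper (d : ℕ) (hd : 4 ≤ d) (p q : ℂ) (N : Submodule ℂ (V d))
    (h : ∀ v ∈ N, ∀ h : ℂ[X], h.natDegree ≤ d - 4 →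
      B2 d (vec d ((X - C p) ^ 2 * (X - C q) ^ 2 * h)) v = 0) : Module.finrank ℂ N ≤ 4 := by
  have h1 : N ≤ (LinearMap.range (T d p q)).dualCoannihilator := by
    intro v hv
    rw [Submodule.mem_dualCoannihilator]
    rintro _ ⟨a, rfl⟩
    rw [T_apply]
    exact h v hv _ (pl_deg (d - 3) (d - 4) (by omega) a)
  have h2 := Submodule.finrank_mono h1
  have h3 := Subspace.finrank_add_finrank_dualCoannihilator_eq (LinearMap.range (T d p q))
  rw [LinearMap.finrank_range_of_inj (T_inj d hd p q), Module.finrank_fin_fun,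
    Module.finrank_fin_fun] at h3
  omega

lemma cop {p q : ℂ} (h : p ≠ q) : IsCoprime (X + C p) (X + C q) := by
  have h1 := isCoprime_X_sub_C_of_isUnit_sub (R := ℂ) (a := -p) (b := -q)
    (isUnit_iff_ne_zero.2 (by
      intro h2
      apply h
      linear_combination (-1 : ℂ) * h2))
  simpa using h1

lemma deg_one (a b p : ℂ) (d : ℕ) (hd : 4 ≤ d) (q : ℂ)
    (h : (X + C q) ^ (d - 1) ∣ C a * (X + C p) + C b) : a = 0 ∧ b = 0 := by
  have h1 : C a * (X + C p) + C b = 0 := by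
    by_contra hne
    have h2 := natDegree_le_of_dvd h hne
    rw [(monic_X_add_C q).natDegree_pow, natDegree_X_add_C] at h2
    have h3 : (C a * (X + C p) + C b).natDegree ≤ 1 := by
      compute_degree
    omega
  have h2 : (C a * (X + C p) + C b).coeff 1 = a := by
    simp
  rw [h1, coeff_zero] at h2
  have ha : a = 0 := h2.symm
  refine ⟨ha, ?_⟩
  rw [ha, C_0, zero_mul, zero_add] at h1
  exact C_eq_zero.1 h1

lemma indep (d : ℕ) (hd : 4 ≤ d) (p q : ℂ) (hpq : p ≠ q) (a b a' b' : ℂ)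
    (h : C a * (X + C p) ^ d + C b * (X + C p) ^ (d - 1) + C a' * (X + C q) ^ d +
      C b' * (X + C q) ^ (d - 1) = 0) : a = 0 ∧ b = 0 ∧ a' = 0 ∧ b' = 0 := by
  obtain ⟨e, rfl⟩ : ∃ e, d = e + 1 := ⟨d - 1, by omega⟩
  rw [Nat.add_sub_cancel] at h
  have h1 : (X + C p) ^ e * (C a * (X + C p) + C b) =
      (X + C q) ^ e * -(C a' * (X + C q) + C b') := by
    linear_combination h
  have h2 : (X + C q) ^ (e + 1 - 1) ∣ C a * (X + C p) + C b := by
    rw [Nat.add_sub_cancel]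
    have h4 : IsCoprime ((X + C q) ^ e) ((X + C p) ^ e) := (cop hpq).symm.pow
    exact h4.dvd_of_dvd_mul_left ⟨_, h1⟩
  have h3 : (X + C p) ^ (e + 1 - 1) ∣ C a' * (X + C q) + C b' := by
    rw [Nat.add_sub_cancel]
    have h4 : IsCoprime ((X + C p) ^ e) ((X + C q) ^ e) := (cop hpq).pow
    exact h4.dvd_of_dvd_mul_left ⟨-(C a * (X + C p) + C b), by linear_combination h1⟩
  obtain ⟨ha, hb⟩ := deg_one a b p (e + 1) hd q h2
  obtain ⟨ha', hb'⟩ := deg_one a' b' q (e + 1) hd p h3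
  exact ⟨ha, hb, ha', hb'⟩

lemma lower (d : ℕ) (hd : 4 ≤ d) (p q : ℂ) (hpq : p ≠ q) (N : Submodule ℂ (V d))
    (h1 : vec d ((X + C p) ^ d) ∈ N) (h2 : vec d ((X + C p) ^ (d - 1)) ∈ N)
    (h3 : vec d ((X + C q) ^ d) ∈ N) (h4 : vec d ((X + C q) ^ (d - 1)) ∈ N) :
    4 ≤ Module.finrank ℂ N := by
  set v : Fin 4 → N := ![⟨_, h1⟩, ⟨_, h2⟩, ⟨_, h3⟩, ⟨_, h4⟩] with hv
  have hli : LinearIndependent ℂ v := by
    rw [Fintype.linearIndependent_iff]
    intro g hg
    have h5 := congrArg (fun x : N => (x : V d)) hg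
    simp only [Fin.sum_univ_four, hv, Submodule.coe_add, Submodule.coe_smul,
      ZeroMemClass.coe_zero] at h5
    have h6 : g 0 • vec d ((X + C p) ^ d) + g 1 • vec d ((X + C p) ^ (d - 1)) +
        g 2 • vec d ((X + C q) ^ d) + g 3 • vec d ((X + C q) ^ (d - 1)) = 0 := h5
    rw [← vec_C_mul, ← vec_C_mul, ← vec_C_mul, ← vec_C_mul, ← vec_add, ← vec_add, ← vec_add] at h6
    have hdeg : ∀ (r : ℂ) (n : ℕ), n ≤ d → ((X + C r) ^ n).natDegree ≤ d := by
      intro r n hn
      rw [(monic_X_add_C r).natDegree_pow, natDegree_X_add_C]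
      omega
    have hdeg' : ∀ (c r : ℂ) (n : ℕ), n ≤ d → (C c * (X + C r) ^ n).natDegree ≤ d := fun c r n hn =>
      (natDegree_C_mul_le _ _).trans (hdeg r n hn)
    have h7 := PU_vec d _ ((natDegree_add_le_of_degree_le ((natDegree_add_le_of_degree_le
      ((natDegree_add_le_of_degree_le (hdeg' (g 0) p d le_rfl) (hdeg' (g 1) p (d - 1) (by omega)))))
      (hdeg' (g 2) q d le_rfl))) (hdeg' (g 3) q (d - 1) (by omega)))
    rw [h6] at h7
    have h8 : PU d (0 : V d) = 0 := by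
      unfold PU
      simp
    rw [h8] at h7
    obtain ⟨e0, e1, e2, e3⟩ := indep d hd p q hpq _ _ _ _ h7.symm
    intro i
    fin_cases i
    · exact e0
    · exact e1
    · exact e2
    · exact e3
  have := hli.fintype_card_le_finrank
  simpa using this

end PkgU2

open PkgU2 in
theorem pU2 : S_U2 := by
  intro d hd p q hpq N h1 h2 h3 h4 h5
  exact le_antisymm (upper d hd p q N h5) (lower d hd p q hpq N h1 h2 h3 h4)

end Pool.Agent.T2H23.ED
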