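import Pool.Agent.T2H23.ED.Stm

/-!
# Project ED, package V0: the order of the resultant at `θ = 0`
-/

set_option autoImplicit false

noncomputable section

open Polynomial

namespace Pool.Agent.T2H23.ED

namespace PkgV0

lemma coeff_fin {R : Type*} [CommRing R] (d : ℕ) (s : Fin (d + 1) → R) (n : ℕ) :
    (∑ k : Fin (d + 1), C (s k) * X ^ (k : ℕ)).coeff n =
      if h : n < d + 1 then s ⟨n, h⟩ else 0 := by
  rw [finsetSum_coeff]
  split_ifs with h
  · rw [Finset.sum_eq_single (⟨n, h⟩ : Fin (d + 1))]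
    · simp
    · intro j _ hj
      rw [coeff_C_mul, coeff_X_pow, if_neg, mul_zero]
      intro h'
      exact hj (Fin.ext h'.symm)
    · intro h'
      exact absurd (Finset.mem_univ _) h'
  · refine Finset.sum_eq_zero fun j _ => ?_
    rw [coeff_C_mul, coeff_X_pow, if_neg, mul_zero]
    intro h'
    exact h (h' ▸ j.2)

lemma ff_dvd (d : ℕ) (hd : 1 ≤ d) : X ∣ ff d d := by
  unfold ff
  have h1 : ((d : ℂ) / d) = 1 := div_self (by exact_mod_cast (by omega : d ≠ 0))
  refine dvd_sub (Dvd.dvd.mul_left (dvd_pow_self _ (by omega)) _) (Dvd.dvd.mul_left ?_ _)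
  rw [h1, C_1, one_mul, add_sub_cancel_left]

lemma gg_dvd (d k : ℕ) (hk : k ≤ d) : X ^ (k - 1) ∣ gg d k := by
  unfold gg
  refine dvd_sub (Dvd.dvd.mul_left (pow_dvd_pow _ (by omega)) _) (Dvd.dvd.mul_left ?_ _)
  exact dvd_sub (Dvd.intro_left _ rfl) (pow_dvd_pow _ (by omega))

lemma QA_dvd (d : ℕ) (hd : 1 ≤ d) : (X : (AA d)[X]) ∣ (QA d).coeff d := by
  unfold QA
  rw [coeff_fin, dif_pos (Nat.lt_succ_self d)]
  refine Dvd.dvd.mul_left ?_ _
  have h := map_dvd (MvPolynomial.C : ℂ →+* AA d) (ff_dvd d hd)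
  rwa [Polynomial.map_X] at h

lemma QB_dvd (d n : ℕ) : (X : (AA d)[X]) ^ (n - 1) ∣ (QB d).coeff n := by
  unfold QB
  rw [coeff_fin]
  split_ifs with h
  · refine Dvd.dvd.mul_left ?_ _
    have h := map_dvd (MvPolynomial.C : ℂ →+* AA d) (gg_dvd d n (by omega))
    rwa [Polynomial.map_pow, Polynomial.map_X] at h
  · exact dvd_zero _

/-- the weight of a column of the Sylvester matrix -/
def wt (d : ℕ) (j : Fin (d + d)) : ℕ := j.addCases (fun _ => 0) (fun j₁ => (j₁ : ℕ) - 1)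

lemma wt_left (d : ℕ) (j : Fin d) : wt d (Fin.castAdd d j) = 0 := by
  unfold wt
  rw [Fin.addCases_left]

lemma wt_right (d : ℕ) (j : Fin d) : wt d (Fin.natAdd d j) = (j : ℕ) - 1 := by
  unfold wt
  rw [Fin.addCases_right]

lemma entry (d : ℕ) (hd : 1 ≤ d) (i j : Fin (d + d)) :
    (X : (AA d)[X]) ^ ((i : ℕ) - d) ∣ X ^ (wt d j) * sylvester (QA d) (QB d) d d i j := by
  refine Fin.addCases (fun j₁ => ?_) (fun j₁ => ?_) j
  · rw [wt_left, pow_zero, one_mul]
    simp only [sylvester, Matrix.of_apply, Fin.addCases_left]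
    split_ifs with h
    · refine (pow_dvd_pow _ ?_).trans (QB_dvd d _)
      have h1 := h.1
      have h2 := j₁.2
      omega
    · exact dvd_zero _
  · rw [wt_right]
    simp only [sylvester, Matrix.of_apply, Fin.addCases_right]
    split_ifs with h
    · have h1 := h.1
      have h2 := h.2
      rcases Nat.lt_or_ge ((j₁ : ℕ) - 1) ((i : ℕ) - d) with h3 | h3
      · have h4 : (i : ℕ) - (j₁ : ℕ) = d := by omega
        have h5 : (i : ℕ) - d = ((j₁ : ℕ) - 1) + 1 := by omega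
        rw [h4, h5, pow_succ]
        exact mul_dvd_mul_left _ (QA_dvd d hd)
      · exact Dvd.dvd.mul_right (pow_dvd_pow _ h3) _
    · rw [mul_zero]
      exact dvd_zero _

lemma sums (d : ℕ) (hd : 1 ≤ d) :
    ∑ i : Fin (d + d), ((i : ℕ) - d) = ∑ j : Fin (d + d), wt d j + (d - 1) := by
  rw [Fin.sum_univ_add, Fin.sum_univ_add]
  simp only [wt_left, wt_right, Fin.val_castAdd, Fin.val_natAdd, Nat.add_sub_cancel_left]
  have h1 : ∑ x : Fin d, ((x : ℕ) - d) = 0 := Finset.sum_eq_zero fun x _ => by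
    have := x.2
    omega
  have h2 : ∑ x : Fin d, (x : ℕ) = ∑ x ∈ Finset.range d, x := Fin.sum_univ_eq_sum_range (fun x => x) d
  have h3 : ∑ x : Fin d, ((x : ℕ) - 1) = ∑ x ∈ Finset.range d, (x - 1) :=
    Fin.sum_univ_eq_sum_range (fun x => x - 1) d
  rw [h1, h2, h3]
  obtain ⟨e, rfl⟩ : ∃ e, d = e + 1 := ⟨d - 1, by omega⟩
  rw [Finset.sum_range_succ', Finset.sum_range_succ']
  simp only [Nat.add_sub_cancel, Finset.sum_add_distrib, Finset.sum_const, Finset.card_range,
    smul_eq_mul, mul_one]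
  simp

end PkgV0

open PkgV0 in
theorem pV0 : S_V0 := by
  classical
  intro d hd
  have hent := fun i j => entry d (by omega) i j
  choose M' hM' using hent
  have h1 := Matrix.det_mul_row (fun j : Fin (d + d) => (X : (AA d)[X]) ^ (wt d j))
    (sylvester (QA d) (QB d) d d)
  have h2 := Matrix.det_mul_column (fun i : Fin (d + d) => (X : (AA d)[X]) ^ ((i : ℕ) - d))
    (Matrix.of M')
  have h3 : (Matrix.of fun i j => (X : (AA d)[X]) ^ (wt d j) * sylvester (QA d) (QB d) d d i j) =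
      Matrix.of fun (i j : Fin (d + d)) =>
        (X : (AA d)[X]) ^ ((i : ℕ) - d) * (Matrix.of M') i j := by
    ext1 i j
    exact hM' i j
  rw [h3, h2, Finset.prod_pow_eq_pow_sum, Finset.prod_pow_eq_pow_sum, sums d (by omega), pow_add,
    mul_assoc] at h1
  have h4 := mul_left_cancel₀ (pow_ne_zero _ X_ne_zero) h1
  exact ⟨_, h4.symm⟩

end Pool.Agent.T2H23.ED
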