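import Pool.Agent.T2H23.ED.Stm

set_option autoImplicit false

noncomputable section

open Polynomial

namespace Pool.Agent.T2H23.ED

namespace PkgV1

lemma res_trick {R : Type*} [CommRing R] (d : ℕ) (A B : R[X]) (s c : R) (hA : A.natDegree ≤ d)
    (hB : B.natDegree ≤ d) :
    resultant (A - B) (C (2 * s) * (A + B) + C c * (A - B)) d d =
      (4 * s) ^ d * resultant A B d d := by
  have hAB : (A - B).natDegree ≤ d := (natDegree_sub_le _ _).trans (max_le hA hB)
  have h1 : resultant (A - B) (C (2 * s) * (A + B) + (A - B) * C c) d d =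
      resultant (A - B) (C (2 * s) * (A + B)) d d :=
    resultant_add_mul_right _ _ _ _ _ (by simp) hAB
  have h2 : resultant (A - B) (C (2 * s) * (A + B)) d d =
      (2 * s) ^ d * resultant (A - B) (A + B) d d := resultant_C_mul_right _ _ _ _ _
  have h3 : resultant (A - B) (C 2 * B + (A - B) * 1) d d = resultant (A - B) (C 2 * B) d d :=
    resultant_add_mul_right _ _ _ _ _ (by simp) hAB
  have h4 : resultant (A - B) (C 2 * B) d d = 2 ^ d * resultant (A - B) B d d :=
    resultant_C_mul_right _ _ _ _ _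
  have h5 : resultant (A + B * (-1)) B d d = resultant A B d d :=
    resultant_add_mul_left _ _ _ _ _ (by simp) hB
  have e1 : C (2 * s) * (A + B) + C c * (A - B) = C (2 * s) * (A + B) + (A - B) * C c := by ring
  have e2 : A + B = C 2 * B + (A - B) * 1 := by
    rw [show (C 2 : R[X]) = 2 from rfl]
    ring
  have e3 : A - B = A + B * (-1) := by ring
  have h6 : resultant (A - B) (A + B) d d = 2 ^ d * resultant A B d d := by
    calc resultant (A - B) (A + B) d d = resultant (A - B) (C 2 * B + (A - B) * 1) d d := by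
          rw [← e2]
      _ = 2 ^ d * resultant (A - B) B d d := by rw [h3, h4]
      _ = _ := by rw [← h5, ← e3]
  rw [e1, h1, h2, h6, show (4 : R) * s = (2 * s) * 2 by ring, mul_pow (2 * s)]
  ring

/-- a polynomial with given coefficients -/
def SS {R : Type*} [CommRing R] (d : ℕ) (x : Fin (d + 1) → R) (f : Fin (d + 1) → R[X]) : R[X][X] :=
  ∑ k : Fin (d + 1), C (C (x k) * f k) * X ^ (k : ℕ)

section
variable {R : Type*} [CommRing R] (d : ℕ) (x : Fin (d + 1) → R)

lemma SS_add (f g : Fin (d + 1) → R[X]) :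
    SS d x f + SS d x g = SS d x (fun k => f k + g k) := by
  unfold SS
  rw [← Finset.sum_add_distrib]
  refine Finset.sum_congr rfl fun k _ => ?_
  rw [mul_add, C_add, add_mul]

lemma SS_sub (f g : Fin (d + 1) → R[X]) :
    SS d x f - SS d x g = SS d x (fun k => f k - g k) := by
  unfold SS
  rw [← Finset.sum_sub_distrib]
  refine Finset.sum_congr rfl fun k _ => ?_
  rw [mul_sub, C_sub, sub_mul]

lemma SS_mul (r : R[X]) (f : Fin (d + 1) → R[X]) :
    C r * SS d x f = SS d x (fun k => r * f k) := by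
  unfold SS
  rw [Finset.mul_sum]
  refine Finset.sum_congr rfl fun k _ => ?_
  rw [← mul_assoc, ← C_mul]
  congr 2
  ring

lemma SS_deg (f : Fin (d + 1) → R[X]) : (SS d x f).natDegree ≤ d := by
  unfold SS
  refine natDegree_sum_le_of_forall_le _ _ fun i _ => ?_
  refine (natDegree_C_mul_X_pow_le _ _).trans ?_
  have := i.2
  omega

theorem gen [IsDomain R] [CharZero R] (F G a b : Fin (d + 1) → R[X]) (e : R[X])
    (m1 : ∀ k, F k - G k = (X - 1) * a k)
    (m2 : ∀ k, 2 * (X + 1) * (F k + G k) + e * (X - 1) * (F k - G k) = (X - 1) ^ 4 * b k) :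
    ((X : R[X]) - 1) ^ (5 * d) ∣ resultant (SS d x F) (SS d x G) d d := by
  have e1 : SS d x F - SS d x G = C (X - 1) * SS d x a := by
    rw [SS_sub, SS_mul]
    congr 1
    funext k
    exact m1 k
  have e2 : C (2 * (X + 1)) * (SS d x F + SS d x G) + C (e * (X - 1)) * (SS d x F - SS d x G) =
      C ((X - 1) ^ 4) * SS d x b := by
    rw [SS_sub, SS_add, SS_mul, SS_mul, SS_mul, SS_add]
    congr 1
    funext k
    exact m2 k
  have r := res_trick d (SS d x F) (SS d x G) (X + 1) (e * (X - 1)) (SS_deg d x F) (SS_deg d x G)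
  rw [e2, e1, resultant_C_mul_left, resultant_C_mul_right] at r
  have hp : Prime ((X : R[X]) - 1) := by
    have := prime_X_sub_C (1 : R)
    rwa [C_1] at this
  have hn : ¬ ((X : R[X]) - 1) ∣ (4 * (X + 1)) ^ d := by
    intro hdv
    have h5 := hp.dvd_of_dvd_pow hdv
    have h6 : ((4 : R[X]) * (X + 1)).eval 1 = 0 := by
      obtain ⟨q, hq⟩ := h5
      rw [hq]
      simp
    have h7 : ((4 : R[X]) * (X + 1)).eval 1 = 8 := by
      simp
      norm_num
    rw [h7] at h6
    norm_num at h6
  refine hp.pow_dvd_of_dvd_mul_left (5 * d) hn ?_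
  refine ⟨resultant (SS d x a) (SS d x b) d d, ?_⟩
  rw [← r, ← mul_assoc, ← pow_mul, ← pow_add]
  congr 2
  ring

end

end PkgV1

open PkgV1

theorem pV1 (hEXP : S_EXP) : S_V1 := by
  intro d hd
  have h := fun k : Fin (d + 1) => hEXP d k (by omega) (by have := k.2; omega)
  choose a b h1 h2 h3 h4 using h
  have m1 : ∀ k : Fin (d + 1), (ff d k).map (MvPolynomial.C : ℂ →+* AA d) -
      (gg d k).map MvPolynomial.C = (X - 1) * (a k).map MvPolynomial.C := by
    intro k
    rw [← Polynomial.map_sub, h1 k]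
    simp
  have m2 : ∀ k : Fin (d + 1), 2 * (X + 1) * ((ff d k).map (MvPolynomial.C : ℂ →+* AA d) +
      (gg d k).map MvPolynomial.C) + C (MvPolynomial.C ((d : ℂ) - 2)) * (X - 1) *
      ((ff d k).map (MvPolynomial.C : ℂ →+* AA d) -
      (gg d k).map MvPolynomial.C) = (X - 1) ^ 4 * (b k).map MvPolynomial.C := by
    intro k
    have := congrArg (Polynomial.map (MvPolynomial.C : ℂ →+* AA d)) (h2 k)
    simp only [Polynomial.map_add, Polynomial.map_mul, Polynomial.map_sub, Polynomial.map_pow,
      Polynomial.map_X, Polynomial.map_one, Polynomial.map_C, Polynomial.map_ofNat] at this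
    exact this
  exact gen d (fun k => (MvPolynomial.X k : AA d)) (fun k => (ff d k).map MvPolynomial.C)
    (fun k => (gg d k).map MvPolynomial.C) (fun k => (a k).map MvPolynomial.C)
    (fun k => (b k).map MvPolynomial.C) (C (MvPolynomial.C ((d : ℂ) - 2))) m1 m2

end Pool.Agent.T2H23.ED
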