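import Pool.Agent.T2H23.ED.Stm

/-!
# Packages VAL of project ED (helper34)
-/

set_option autoImplicit false

noncomputable section

open Polynomial

namespace Pool.Agent.T2H23.ED

namespace PkgVAL

lemma f0 (d : ℕ) : ff d 0 = (1 + X) ^ (d - 1) - C ((2 : ℂ) ^ (d - 1)) := by
  unfold ff
  simp
  ring

lemma g0 (d : ℕ) : gg d 0 = (1 + X) ^ (d - 1) - C ((2 : ℂ) ^ (d - 1)) * X ^ (d - 1) := by
  unfold gg
  simp
  ring

lemma fd (d : ℕ) (hd : 1 ≤ d) : ff d d = - (X * gg d 0) := by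
  obtain ⟨e, rfl⟩ : ∃ e, d = e + 1 := ⟨d - 1, by omega⟩
  have h : ((e + 1 : ℕ) : ℂ) ≠ 0 := by exact_mod_cast Nat.succ_ne_zero e
  rw [g0]
  unfold ff
  rw [div_self h, mul_div_assoc, div_self h]
  simp only [Nat.add_sub_cancel, C_1]
  have : (2 : ℂ) * 1 - 1 = 1 := by norm_num
  rw [this, mul_one, pow_succ]
  ring

lemma gd (d : ℕ) (hd : 1 ≤ d) : gg d d = - (X ^ (d - 1) * ff d 0) := by
  obtain ⟨e, rfl⟩ : ∃ e, d = e + 1 := ⟨d - 1, by omega⟩
  have h : ((e + 1 : ℕ) : ℂ) ≠ 0 := by exact_mod_cast Nat.succ_ne_zero e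
  rw [f0]
  unfold gg
  rw [div_self h, mul_div_assoc, div_self h]
  simp only [Nat.add_sub_cancel, C_1]
  have : (2 : ℂ) * 1 - 1 = 1 := by norm_num
  rw [this, mul_one, pow_succ]
  ring

lemma f0_0 (d : ℕ) : (ff d 0).eval 0 = 1 - 2 ^ (d - 1) := by
  rw [f0]
  simp

lemma g0_0 (d : ℕ) (hd : 2 ≤ d) : (gg d 0).eval 0 = 1 := by
  rw [g0]
  simp
  omega

lemma f1_0 (d : ℕ) : (ff d 1).eval 0 = 1 - 1 / d := by
  unfold ff
  simp

lemma g1_0 (d : ℕ) (hd : 2 ≤ d) : (gg d 1).eval 0 = - (1 / d) := by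
  unfold gg
  simp
  right
  omega

lemma f0_ne (d : ℕ) (hd : 2 ≤ d) : ff d 0 ≠ 0 := by
  intro h
  have h1 := f0_0 d
  rw [h, eval_zero] at h1
  have h2 : ((2 : ℂ)) ^ (d - 1) = 1 := by
    linear_combination h1
  have h3 : (2 : ℕ) ^ (d - 1) = 1 := by exact_mod_cast h2
  have : 1 < 2 ^ (d - 1) := Nat.one_lt_two_pow (by omega)
  omega

lemma gd_ne (d : ℕ) (hd : 2 ≤ d) : gg d d ≠ 0 := by
  rw [gd d (by omega)]
  exact neg_ne_zero.2 (mul_ne_zero (pow_ne_zero _ X_ne_zero) (f0_ne d hd))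

/-- the sums with three terms -/
lemma three (d : ℕ) (hd : 2 ≤ d) (x : ℂ) (w : ℕ → ℂ[X]) :
    (∑ k : Fin (d + 1), C (C ((fun i : Fin (d + 1) => if (i : ℕ) = 0 then (1 : ℂ) else
      if (i : ℕ) = 1 then x else if (i : ℕ) = d then 1 else 0) k) * w k) * X ^ (k : ℕ) : ℂ[X][X]) =
    C (w 0) + C (C x * w 1) * X + C (w d) * X ^ d := by
  rw [Fin.sum_univ_eq_sum_range (fun k : ℕ => (C (C (if k = 0 then (1 : ℂ) else
      if k = 1 then x else if k = d then 1 else 0) * w k) * X ^ k : ℂ[X][X])) (d + 1)]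
  obtain ⟨e, rfl⟩ : ∃ e, d = e + 2 := ⟨d - 2, by omega⟩
  rw [Finset.sum_range_succ, Finset.sum_range_succ', Finset.sum_range_succ']
  have h0 : ∑ k ∈ Finset.range e, (C (C (if k + 1 + 1 = 0 then (1 : ℂ) else
      if k + 1 + 1 = 1 then x else if k + 1 + 1 = e + 2 then 1 else 0) * w (k + 1 + 1)) *
        X ^ (k + 1 + 1) : ℂ[X][X]) = 0 := by
    apply Finset.sum_eq_zero
    intro k hk
    have := Finset.mem_range.1 hk
    rw [if_neg (by omega), if_neg (by omega), if_neg (by omega)]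
    simp
  rw [h0]
  simp
  ring

/-- the vector -/
def uu (d : ℕ) (x : ℂ) : V d := fun i : Fin (d + 1) => if (i : ℕ) = 0 then (1 : ℂ) else
      if (i : ℕ) = 1 then x else if (i : ℕ) = d then 1 else 0

lemma PA_uu (d : ℕ) (hd : 2 ≤ d) (x : ℂ) :
    PA d (uu d x) = C (ff d 0) + C (C x * ff d 1) * X + C (ff d d) * X ^ d :=
  three d hd x (ff d)

lemma PB_uu (d : ℕ) (hd : 2 ≤ d) (x : ℂ) :
    PB d (uu d x) = C (gg d 0) + C (C x * gg d 1) * X + C (gg d d) * X ^ d :=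
  three d hd x (gg d)

/-- the resultant -/
lemma RU_uu (hTRI : S_TRI) (d : ℕ) (hd : 2 ≤ d) (x : ℂ) : RU d (uu d x) =
    (-1) ^ d * (ff d 0 * gg d d - ff d d * gg d 0) ^ d -
      (ff d 0 * (C x * gg d 1) - (C x * ff d 1) * gg d 0) *
        ((C x * ff d 1) * gg d d - ff d d * (C x * gg d 1)) ^ (d - 1) := by
  unfold RU
  rw [PA_uu d hd, PB_uu d hd]
  exact hTRI d hd _ _ _ _ _ _ (gd_ne d hd)

end PkgVAL

open PkgVAL in
theorem pVAL (hTRI : S_TRI) : S_VAL := by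
  intro d hd
  have hα : ff d 0 * gg d d - ff d d * gg d 0 =
      X * (gg d 0 ^ 2 - X ^ (d - 2) * ff d 0 ^ 2) := by
    rw [fd d (by omega), gd d (by omega)]
    obtain ⟨e, rfl⟩ : ∃ e, d = e + 2 := ⟨d - 2, by omega⟩
    have h1 : e + 2 - 1 = e + 1 := by omega
    have h2 : e + 2 - 2 = e := by omega
    rw [h1, h2, pow_succ]
    ring
  have hβ : ff d 1 * gg d d - ff d d * gg d 1 =
      X * (gg d 0 * gg d 1 - X ^ (d - 2) * (ff d 0 * ff d 1)) := by
    rw [fd d (by omega), gd d (by omega)]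
    obtain ⟨e, rfl⟩ : ∃ e, d = e + 2 := ⟨d - 2, by omega⟩
    have h1 : e + 2 - 1 = e + 1 := by omega
    have h2 : e + 2 - 2 = e := by omega
    rw [h1, h2, pow_succ]
    ring
  have hXne : (X : ℂ[X]) ^ (d - 1) ≠ 0 := pow_ne_zero _ X_ne_zero
  have hd0 : ((d : ℕ) : ℂ) ≠ 0 := by
    have : d ≠ 0 := by omega
    exact_mod_cast this
  constructor
  · refine ⟨uu d 1, ?_⟩
    intro T hT
    rw [RU_uu hTRI d (by omega)] at hT
    simp only [C_1, one_mul] at hT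
    rw [hα, hβ, mul_pow X, mul_pow X] at hT
    have h1 : (X : ℂ[X]) ^ d = X ^ (d - 1) * X := by
      rw [← pow_succ]
      congr 1
      omega
    have h2 : (X : ℂ[X]) ^ (d - 1) * ((-1) ^ d * (X * (gg d 0 ^ 2 - X ^ (d - 2) * ff d 0 ^ 2) ^ d) -
        (ff d 0 * gg d 1 - ff d 1 * gg d 0) *
          (gg d 0 * gg d 1 - X ^ (d - 2) * (ff d 0 * ff d 1)) ^ (d - 1)) =
        X ^ (d - 1) * ((X - 1) ^ (5 * d) * T) := by
      rw [← mul_assoc (X ^ (d - 1)) ((X - 1) ^ (5 * d)) T, ← hT, h1]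
      ring
    have h3 := congrArg (fun P : ℂ[X] => P.eval 0) (mul_left_cancel₀ hXne h2)
    simp only [eval_sub, eval_mul, eval_pow, eval_X, eval_neg, eval_one, f0_0, f1_0,
      g0_0 d (by omega), g1_0 d (by omega)] at h3
    rw [zero_pow (by omega : d - 2 ≠ 0)] at h3
    intro hT0
    rw [hT0] at h3
    have h4 : (((1 : ℂ) - 2 ^ (d - 1)) * (-(1 / (d : ℂ))) - (1 - 1 / (d : ℂ)) * 1) *
        (1 * -(1 / (d : ℂ)) - 0 * ((1 - 2 ^ (d - 1)) * (1 - 1 / (d : ℂ)))) ^ (d - 1) = 0 := by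
      linear_combination -h3
    rcases mul_eq_zero.1 h4 with h5 | h5
    · field_simp at h5
      have h6 : ((2 : ℂ)) ^ (d - 1) = d := by
        linear_combination h5
      have h7 : (2 : ℕ) ^ (d - 1) = d := by exact_mod_cast h6
      have h8 : ∀ e : ℕ, e + 4 < 2 ^ (e + 3) := by
        intro e
        induction e with
        | zero => norm_num
        | succ e ih => rw [show e + 1 + 3 = (e + 3) + 1 by ring, pow_succ]; omega
      have h9 := h8 (d - 4)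
      rw [show d - 4 + 3 = d - 1 by omega] at h9
      omega
    · have h6 := (pow_eq_zero_iff (by omega : d - 1 ≠ 0)).1 h5
      simp at h6
      omega
  · refine ⟨uu d 0, ?_⟩
    intro T hT
    rw [RU_uu hTRI d (by omega)] at hT
    simp only [C_0, zero_mul, mul_zero, sub_zero] at hT
    rw [hα, mul_pow X] at hT
    have h1 : (X : ℂ[X]) ^ d = X ^ (d - 1) * X := by
      rw [← pow_succ]
      congr 1
      omega
    have h2 : (X : ℂ[X]) ^ (d - 1) * (X * ((-1) ^ d * (gg d 0 ^ 2 - X ^ (d - 2) * ff d 0 ^ 2) ^ d)) =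
        X ^ (d - 1) * ((X - 1) ^ (5 * d) * T) := by
      rw [← mul_assoc (X ^ (d - 1)) ((X - 1) ^ (5 * d)) T, ← hT, h1]
      ring
    have h3 := mul_left_cancel₀ hXne h2
    have h4 := congrArg (fun P : ℂ[X] => P.eval 0) h3
    have h5 := congrArg (fun P : ℂ[X] => (derivative P).eval 0) h3
    simp only [eval_sub, eval_mul, eval_pow, eval_X, eval_neg, eval_one, zero_mul, zero_sub] at h4
    have hT0 : T.eval 0 = 0 := by
      rcases mul_eq_zero.1 h4.symm with h6 | h6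
      · exact absurd h6 (pow_ne_zero _ (by norm_num))
      · exact h6
    refine ⟨hT0, ?_⟩
    intro hT1
    simp only [derivative_mul, derivative_X, one_mul, eval_add, eval_mul, eval_X, zero_mul,
      add_zero, hT0, mul_zero, hT1, eval_pow, eval_sub, eval_neg, eval_one, g0_0 d (by omega)] at h5
    rw [zero_pow (by omega : d - 2 ≠ 0)] at h5
    simp at h5

end Pool.Agent.T2H23.ED
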