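import Pool.Agent.T2H23.ED.CLS
import Pool.Agent.T2H23.ED.CNT
import Pool.Agent.T2H23.ED.CUR
import Pool.Agent.T2H23.ED.DEP
import Pool.Agent.T2H23.ED.EXC
import Pool.Agent.T2H23.ED.EXP
import Pool.Agent.T2H23.ED.FIN
import Pool.Agent.T2H23.ED.GEC
import Pool.Agent.T2H23.ED.GEN
import Pool.Agent.T2H23.ED.GEO
import Pool.Agent.T2H23.ED.GOOD
import Pool.Agent.T2H23.ED.K1
import Pool.Agent.T2H23.ED.K2
import Pool.Agent.T2H23.ED.K3
import Pool.Agent.T2H23.ED.L4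
import Pool.Agent.T2H23.ED.ONE
import Pool.Agent.T2H23.ED.PHI
import Pool.Agent.T2H23.ED.PR
import Pool.Agent.T2H23.ED.SCAL
import Pool.Agent.T2H23.ED.SQF
import Pool.Agent.T2H23.ED.SYM
import Pool.Agent.T2H23.ED.TRF
import Pool.Agent.T2H23.ED.TRI
import Pool.Agent.T2H23.ED.U1
import Pool.Agent.T2H23.ED.U2
import Pool.Agent.T2H23.ED.V0
import Pool.Agent.T2H23.ED.V1
import Pool.Agent.T2H23.ED.VAL

/-!
# Assembly of the project ED
-/

set_option autoImplicit false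

namespace Pool.Agent.T2H23.ED

theorem pAll : S_FIN := by
  have hL1 : S_L1 := pL1 pCH pMEM pSPAN
  have hL2 : S_L2 := pL2 pCH pMEM
  have hGEO : S_GEO := pGEO pCLS hL1 hL2 (pL4 pCH pMEM) (pL5 pCH pMEM) pPR
  have hGEC : S_GEC := pGEC pMEM hL2 pU1 pU2
  have hTT : S_TT := pTT pV0 (pV1 pEXP)
  have hGOOD : S_GOOD := pGOOD (pEXC pDEP)
  have hSYM : S_SYM := pSYM pSCAL
  have hGEN : S_GEN := pGEN hGOOD pK1 pK2 pK3 hSYM (pVAL pTRI) (pONE pTRI pEXP) pPAR pSQF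
  have hCNT : S_CNT := pCNT hGEO hGEC pK1 pK2 pK3 pK5
  exact pFIN hTT hGEN hCNT (pTRA (pPHI pSPAN) pTRF)

end Pool.Agent.T2H23.ED
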