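import Pool.Agent.T2H23.ED.Stm

/-! # Package CH : curves -/

set_option autoImplicit false
set_option linter.unusedVariables false

noncomputable section

open Polynomial

namespace Pool.Agent.T2H23.ED.PkgCH

open Pool.Agent.T2H23.ED

lemma aeval_eval {n : ℕ} (γ : Fin n → ℂ[X]) (P : MvPolynomial (Fin n) ℂ) (t : ℂ) :
    (MvPolynomial.aeval γ P).eval t = MvPolynomial.eval (fun i => (γ i).eval t) P := by
  induction P using MvPolynomial.induction_on with
  | C a => simp [MvPolynomial.aeval_C]
  | add p q hp hq => simp [hp, hq]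
  | mul_X p i hp => simp [hp]

lemma deriv_eval {n : ℕ} (γ : Fin n → ℂ[X]) (P : MvPolynomial (Fin n) ℂ) (t : ℂ) :
    (derivative (MvPolynomial.aeval γ P)).eval t =
      ∑ i, MvPolynomial.eval (fun i => (γ i).eval t) (MvPolynomial.pderiv i P) *
        (derivative (γ i)).eval t := by
  induction P using MvPolynomial.induction_on with
  | C a => simp [MvPolynomial.aeval_C]
  | add p q hp hq => simp [hp, hq, add_mul, Finset.sum_add_distrib]
  | mul_X p i hp =>
    rw [map_mul, MvPolynomial.aeval_X, derivative_mul, eval_add, eval_mul, eval_mul, hp,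
      aeval_eval]
    have h : ∀ j, MvPolynomial.eval (fun i => (γ i).eval t)
        (MvPolynomial.pderiv j (p * MvPolynomial.X i)) * (derivative (γ j)).eval t =
        MvPolynomial.eval (fun i => (γ i).eval t) (MvPolynomial.pderiv j p) *
          (derivative (γ j)).eval t * (γ i).eval t +
        (if j = i then MvPolynomial.eval (fun i => (γ i).eval t) p *
          (derivative (γ j)).eval t else 0) := by
      intro j
      rw [Derivation.leibniz]
      by_cases hj : j = i
      · subst hj
        simp [MvPolynomial.pderiv_X_self]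
        ring
      · simp [MvPolynomial.pderiv_X_of_ne (Ne.symm hj), hj]
        ring
    simp only [h, Finset.sum_add_distrib, Finset.sum_mul, Finset.sum_ite_eq', Finset.mem_univ,
      if_true]

lemma dP_apply {d : ℕ} (c v : V d) (P : MvPolynomial (Fin (d + 1)) ℂ) :
    dP c P v = ∑ i, MvPolynomial.eval c (MvPolynomial.pderiv i P) * v i := by
  simp [dP, LinearMap.sum_apply]

end Pool.Agent.T2H23.ED.PkgCH

namespace Pool.Agent.T2H23.ED

open PkgCH

theorem pCH : S_CH := by
  intro d γ hγ
  have h0 : ∀ P ∈ IX d, MvPolynomial.aeval γ P = 0 := by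
    intro P hP
    refine Polynomial.eq_zero_of_infinite_isRoot _ ?_
    refine Set.Infinite.mono (s := {t : ℂ | t ≠ 0}) ?_ ?_
    · intro t ht
      change (MvPolynomial.aeval γ P).eval t = 0
      rw [aeval_eval]
      exact hγ t ht P hP
    · exact (Set.finite_singleton (0 : ℂ)).infinite_compl
  constructor
  · intro P hP
    rw [← aeval_eval, h0 P hP, eval_zero]
  · intro P hP
    rw [dP_apply, ← deriv_eval, h0 P hP]
    simp

namespace PkgCH

/-- curves of coefficient vectors -/
lemma curve (hCH : S_CH) {d n : ℕ} (w : ℕ → ℂ[X])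
    (h : ∀ t : ℂ, t ≠ 0 → vec d (∑ j ∈ Finset.range (n + 2), C (t ^ j) * w j) ∈ Sec d) :
    vec d (w 0) ∈ Sec d ∧ vec d (w 1) ∈ Tan d (vec d (w 0)) := by
  set γ : Fin (d + 1) → ℂ[X] := fun i =>
    ∑ j ∈ Finset.range (n + 2), C ((w j).coeff i) * X ^ j with hγ
  have hev : ∀ t : ℂ, (fun i => (γ i).eval t) =
      vec d (∑ j ∈ Finset.range (n + 2), C (t ^ j) * w j) := by
    intro t
    funext i
    simp only [hγ, vec, eval_finsetSum, finsetSum_coeff, coeff_C_mul, eval_mul, eval_C, eval_pow,
      eval_X]
    exact Finset.sum_congr rfl fun j _ => mul_comm _ _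
  have h1 := hCH d γ fun t ht => by
    rw [hev]
    exact h t ht
  have hc : ∀ i k, (γ i).coeff k = if k < n + 2 then (w k).coeff i else 0 := by
    intro i k
    simp only [hγ, finsetSum_coeff, coeff_C_mul_X_pow]
    simp [Finset.sum_ite_eq]
  have e0 : (fun i => (γ i).eval 0) = vec d (w 0) := by
    funext i
    rw [← coeff_zero_eq_eval_zero, hc, if_pos (by omega)]
    rfl
  have e1 : (fun i => (derivative (γ i)).eval 0) = vec d (w 1) := by
    funext i
    rw [← coeff_zero_eq_eval_zero, coeff_derivative, hc, if_pos (by omega)]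
    simp [vec]
  rw [e0, e1] at h1
  exact h1

end PkgCH

end Pool.Agent.T2H23.ED
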