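import Pool.Agent.T2H23.ED.Stm

set_option autoImplicit false

noncomputable section

open Polynomial

namespace Pool.Agent.T2H23.ED

namespace PkgCLS

/-- normalized coefficients -/
def ee (d : ℕ) (c : V d) (i : ℕ) : ℂ := if h : i < d + 1 then c ⟨i, h⟩ / (d.choose i : ℂ) else 0

def XE (d i : ℕ) : MvPolynomial (Fin (d + 1)) ℂ :=
  if h : i < d + 1 then MvPolynomial.C ((d.choose i : ℂ)⁻¹) * MvPolynomial.X ⟨i, h⟩ else 0

lemma eval_XE (d i : ℕ) (c : V d) : MvPolynomial.eval c (XE d i) = ee d c i := by
  unfold XE ee
  split_ifs with h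
  · rw [map_mul, MvPolynomial.eval_C, MvPolynomial.eval_X, div_eq_mul_inv, mul_comm]
  · simp

/-- three by three determinant -/
def dt {R : Type*} [CommRing R] (a b c a' b' c' a'' b'' c'' : R) : R :=
  a * (b' * c'' - c' * b'') - b * (a' * c'' - c' * a'') + c * (a' * b'' - b' * a'')

def mp (d i j k : ℕ) : MvPolynomial (Fin (d + 1)) ℂ :=
  dt (XE d i) (XE d (i + 1)) (XE d (i + 2)) (XE d j) (XE d (j + 1)) (XE d (j + 2))
    (XE d k) (XE d (k + 1)) (XE d (k + 2))

lemma choose_ne (d i : ℕ) (h : i < d + 1) : (d.choose i : ℂ) ≠ 0 := by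
  have := Nat.choose_pos (show i ≤ d by omega)
  exact_mod_cast this.ne'

lemma ee_pw (d i : ℕ) (hi : i < d + 1) (l l' : ℂ × ℂ) : ee d (pw d l + pw d l') i =
    l.1 ^ (d - i) * l.2 ^ i + l'.1 ^ (d - i) * l'.2 ^ i := by
  unfold ee
  rw [dif_pos hi, Pi.add_apply]
  unfold pw
  have := choose_ne d i hi
  field_simp

lemma ee_pw' (d i s : ℕ) (hi : i ≤ d - 2) (hd : 2 ≤ d) (hs : s ≤ 2) (l l' : ℂ × ℂ) :
    ee d (pw d l + pw d l') (i + s) =
    (l.1 ^ (d - 2 - i) * l.2 ^ i) * (l.1 ^ (2 - s) * l.2 ^ s) +
    (l'.1 ^ (d - 2 - i) * l'.2 ^ i) * (l'.1 ^ (2 - s) * l'.2 ^ s) := by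
  rw [ee_pw d (i + s) (by omega)]
  have h1 : d - (i + s) = (d - 2 - i) + (2 - s) := by omega
  rw [h1, pow_add, pow_add, pow_add, pow_add]
  ring

lemma mp_mem (d i j k : ℕ) (hd : 2 ≤ d) (hi : i ≤ d - 2) (hj : j ≤ d - 2) (hk : k ≤ d - 2) :
    mp d i j k ∈ IX d := by
  intro l l'
  unfold mp dt
  simp only [map_add, map_sub, map_mul, eval_XE]
  have h0 := fun a ha => ee_pw' d a 0 ha hd (by norm_num) l l'
  have h1 := fun a ha => ee_pw' d a 1 ha hd (by norm_num) l l'
  have h2 := fun a ha => ee_pw' d a 2 ha hd (by norm_num) l l'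
  simp only [add_zero] at h0
  rw [h0 i hi, h1 i hi, h2 i hi, h0 j hj, h1 j hj, h2 j hj, h0 k hk, h1 k hk, h2 k hk]
  ring

lemma det_zero (d i j k : ℕ) (hd : 2 ≤ d) (hi : i ≤ d - 2) (hj : j ≤ d - 2) (hk : k ≤ d - 2)
    (c : V d) (hc : c ∈ Sec d) :
    dt (ee d c i) (ee d c (i + 1)) (ee d c (i + 2)) (ee d c j) (ee d c (j + 1)) (ee d c (j + 2))
    (ee d c k) (ee d c (k + 1)) (ee d c (k + 2)) = 0 := by
  have := hc _ (mp_mem d i j k hd hi hj hk)
  unfold mp dt at this
  simp only [map_add, map_sub, map_mul, eval_XE] at this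
  exact this

/-- a nonzero vector orthogonal to all rows -/
lemma exists_vec (m : ℕ) (e : ℕ → ℂ) (h : ∀ i ≤ m, ∀ j ≤ m, ∀ k ≤ m,
    dt (e i) (e (i + 1)) (e (i + 2)) (e j) (e (j + 1)) (e (j + 2))
      (e k) (e (k + 1)) (e (k + 2)) = 0) :
    ∃ x y z : ℂ, (x ≠ 0 ∨ y ≠ 0 ∨ z ≠ 0) ∧
      ∀ i ≤ m, x * e (i + 2) + y * e (i + 1) + z * e i = 0 := by
  by_cases hA : ∀ i ≤ m, ∀ j ≤ m, e i * e (j + 1) - e (i + 1) * e j = 0 ∧
      e i * e (j + 2) - e (i + 2) * e j = 0 ∧ e (i + 1) * e (j + 2) - e (i + 2) * e (j + 1) = 0
  · by_cases h0 : ∀ i ≤ m, e i = 0 ∧ e (i + 1) = 0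
    · -- all first two entries vanish
      refine ⟨0, 0, 1, Or.inr (Or.inr one_ne_zero), fun i hi => ?_⟩
      rw [(h0 i hi).1]; ring
    · push Not at h0
      obtain ⟨i₀, hi₀, h1⟩ := h0
      refine ⟨0, e i₀, -e (i₀ + 1), ?_, fun i hi => ?_⟩
      · by_cases h2 : e i₀ = 0
        · right; right; exact neg_ne_zero.2 (h1 h2)
        · right; left; exact h2
      · have := (hA i₀ hi₀ i hi).1
        linear_combination this
  · push Not at hA
    obtain ⟨i, hi, j, hj, hij⟩ := hA
    refine ⟨e i * e (j + 1) - e (i + 1) * e j, -(e i * e (j + 2) - e (i + 2) * e j),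
      e (i + 1) * e (j + 2) - e (i + 2) * e (j + 1), ?_, fun k hk => ?_⟩
    · by_cases h1 : e i * e (j + 1) - e (i + 1) * e j = 0
      · by_cases h2 : e i * e (j + 2) - e (i + 2) * e j = 0
        · right; right; exact hij h1 h2
        · right; left; exact neg_ne_zero.2 h2
      · left; exact h1
    · have := h i hi j hj k hk
      unfold dt at this
      linear_combination this

lemma quad (x y z : ℂ) (hz : z ≠ 0) : ∃ p q : ℂ, y = - z * (p + q) ∧ x = z * (p * q) := by
  obtain ⟨p, hp⟩ := IsAlgClosed.exists_root (C z * X ^ 2 + C y * X + C x : ℂ[X])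
    (by rw [degree_quadratic hz]; norm_num)
  rw [IsRoot, eval_add, eval_add, eval_mul, eval_mul, eval_C, eval_C, eval_C, eval_pow, eval_X] at hp
  refine ⟨p, - y / z - p, ?_, ?_⟩
  · field_simp; ring
  · have : z * (p * (- y / z - p)) = - (z * p ^ 2 + y * p) := by field_simp; ring
    rw [this]
    linear_combination hp

lemma coeff_PU (d : ℕ) (c : V d) (i : ℕ) : (PU d c).coeff i = ee d c i * (d.choose i : ℂ) := by
  unfold ee
  split_ifs with h
  · rw [div_mul_cancel₀ _ (choose_ne d i h)]
    exact PU_coeff d c ⟨i, h⟩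
  · rw [zero_mul]
    apply coeff_eq_zero_of_natDegree_lt
    have := PU_natDegree d c
    omega

end PkgCLS

open PkgCLS

theorem pCLS : S_CLS := by
  intro d hd c hc
  obtain ⟨x, y, z, hne, hrec⟩ := exists_vec (d - 2) (ee d c)
    (fun i hi j hj k hk => det_zero d i j k (by omega) hi hj hk c hc)
  have hE : ∀ j, j ≤ d - 2 → x * ee d c (d - j) + y * ee d c (d - (j + 1)) +
      z * ee d c (d - (j + 2)) = 0 := by
    intro j hj
    have := hrec (d - (j + 2)) (by omega)
    have h1 : d - (j + 2) + 2 = d - j := by omega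
    have h2 : d - (j + 2) + 1 = d - (j + 1) := by omega
    rw [h1, h2] at this
    exact this
  -- comparison of polynomials
  have hcmp : ∀ Q : ℂ[X], (∀ j ≤ d, Q.coeff (d - j) = ee d c (d - j) * (d.choose (d - j) : ℂ)) →
      Q.natDegree ≤ d → PU d c = Q := by
    intro Q hQ hdeg
    ext i
    by_cases hi : i ≤ d
    · have := hQ (d - i) (by omega)
      rw [show d - (d - i) = i by omega] at this
      rw [coeff_PU, this]
    · rw [coeff_eq_zero_of_natDegree_lt, coeff_eq_zero_of_natDegree_lt]
      · omega
      · have := PU_natDegree d c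
        omega
  have hdeg : ∀ (a p : ℂ) (k : ℕ), k ≤ d → (C a * (X + C p) ^ k : ℂ[X]).natDegree ≤ d := by
    intro a p k hk
    refine (natDegree_C_mul_le _ _).trans ?_
    refine (natDegree_pow_le).trans ?_
    rw [natDegree_X_add_C]
    omega
  by_cases hz : z = 0
  · by_cases hy : y = 0
    · -- fourth case
      right; right; right
      have hx : x ≠ 0 := by
        rcases hne with h | h | h
        · exact h
        · exact absurd hy h
        · exact absurd hz h
      have h0 : ∀ i, 2 ≤ i → i ≤ d → ee d c i = 0 := by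
        intro i hi1 hi2
        have := hE (d - i) (by omega)
        rw [show d - (d - i) = i by omega, hy, hz] at this
        have h2 : x * ee d c i = 0 := by linear_combination this
        exact (mul_eq_zero.1 h2).resolve_left hx
      refine ⟨ee d c 0, ee d c 1 * (d.choose 1 : ℂ), ?_⟩
      ext i
      rw [coeff_PU]
      rcases i with _ | _ | i
      · simp
      · simp
      · have h3 : (C (ee d c 0) + C (ee d c 1 * (d.choose 1 : ℂ)) * X : ℂ[X]).coeff (i + 2) = 0 := by
          rw [coeff_add, coeff_C_mul, coeff_X, coeff_C]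
          simp
        rw [h3]
        by_cases hi : i + 2 ≤ d
        · rw [h0 _ (by omega) hi, zero_mul]
        · rw [Nat.choose_eq_zero_of_lt (by omega), Nat.cast_zero, mul_zero]
    · -- second case
      right; left
      have h1 : ∀ j, j ≤ d - 1 → ee d c (d - j) = ee d c d * (- x / y) ^ j := by
        intro j
        induction j with
        | zero => intro _; simp
        | succ j ih =>
          intro hj
          have h2 := ih (by omega)
          have h3 := hE j (by omega)
          rw [hz, h2] at h3
          have h4 : y * ee d c (d - (j + 1)) = y * (ee d c d * (- x / y) ^ (j + 1)) := by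
            rw [pow_succ]
            have : y * (ee d c d * ((- x / y) ^ j * (- x / y))) =
                - x * (ee d c d * (- x / y) ^ j) := by
              field_simp
            rw [this]
            linear_combination h3
          exact mul_left_cancel₀ hy h4
      set p := - x / y with hp
      refine ⟨p, ee d c d, ee d c 0 - ee d c d * p ^ d, hcmp _ ?_ ?_⟩
      · intro j hj
        rw [coeff_add, coeff_C_mul, coeff_X_add_C_pow, show d - (d - j) = j by omega, coeff_C]
        by_cases hjd : j = d
        · subst hjd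
          simp
        · rw [if_neg (by omega), h1 j (by omega)]
          ring
      · refine (natDegree_add_le _ _).trans (max_le (hdeg _ _ _ le_rfl) ?_)
        rw [natDegree_C]; omega
  · obtain ⟨p, q, hy, hx⟩ := quad x y z hz
    have hrec' : ∀ j, j ≤ d - 2 → ee d c (d - (j + 2)) =
        (p + q) * ee d c (d - (j + 1)) - p * q * ee d c (d - j) := by
      intro j hj
      have := hE j hj
      rw [hx, hy] at this
      have h2 : z * ee d c (d - (j + 2)) =
          z * ((p + q) * ee d c (d - (j + 1)) - p * q * ee d c (d - j)) := by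
        linear_combination this
      exact mul_left_cancel₀ hz h2
    by_cases hpq : p = q
    · -- third case
      right; right; left
      subst hpq
      have h1 : ∀ j, j ≤ d → ee d c (d - j) = ee d c d * p ^ j +
          (ee d c (d - 1) - p * ee d c d) * (j * p ^ (j - 1)) := by
        intro j
        induction j using Nat.twoStepInduction with
        | zero => intro _; simp
        | one => intro _; simp; ring
        | more j ih1 ih2 =>
          intro hj
          rw [hrec' j (by omega), ih1 (by omega), ih2 (by omega)]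
          rcases j with _ | j
          · simp; ring
          · simp only [Nat.add_sub_cancel, Nat.cast_add, Nat.cast_one, Nat.cast_ofNat,
              show j + 1 + 1 - 1 = j + 1 by omega, show j + 1 + 2 - 1 = j + 2 by omega]
            ring
      refine ⟨p, ee d c d, (ee d c (d - 1) - p * ee d c d) * d, hcmp _ ?_ ?_⟩
      · intro j hj
        rw [coeff_add, coeff_C_mul, coeff_C_mul, coeff_X_add_C_pow, coeff_X_add_C_pow,
          show d - (d - j) = j by omega, h1 j hj]
        rcases j with _ | j
        · simp only [Nat.sub_zero, pow_zero, Nat.choose_self, Nat.cast_one, Nat.cast_zero]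
          rw [Nat.choose_eq_zero_of_lt (show d - 1 < d by omega)]
          simp
        · have h5 : d - 1 - (d - (j + 1)) = j := by omega
          rw [h5, Nat.add_sub_cancel]
          -- d * binom(d-1, d-1-j) = (j+1) binom(d, d-1-j)
          have h6 : d * (d - 1).choose (d - (j + 1)) = (j + 1) * d.choose (d - (j + 1)) := by
            have h7 : (d - 1).choose (d - (j + 1)) = (d - 1).choose j := by
              rw [← Nat.choose_symm (show j ≤ d - 1 by omega)]
              congr 1
              omega
            have h8 : d.choose (d - (j + 1)) = d.choose (j + 1) := Nat.choose_symm hj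
            rw [h7, h8]
            obtain ⟨m, rfl⟩ : ∃ m, d = m + 1 := ⟨d - 1, by omega⟩
            have := Nat.add_one_mul_choose_eq m j
            simp only [Nat.add_sub_cancel]
            linarith
          have h9 : (d : ℂ) * ((d - 1).choose (d - (j + 1)) : ℂ) =
              ((j : ℂ) + 1) * (d.choose (d - (j + 1)) : ℂ) := by exact_mod_cast h6
          push_cast
          linear_combination (ee d c (d - 1) - p * ee d c d) * p ^ j * h9
      · exact (natDegree_add_le _ _).trans (max_le (hdeg _ _ _ le_rfl) (hdeg _ _ _ (by omega)))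
    · -- first case
      left
      have hqp : q - p ≠ 0 := sub_ne_zero.2 (Ne.symm hpq)
      set a := (q * ee d c d - ee d c (d - 1)) / (q - p) with ha
      set b := (ee d c (d - 1) - p * ee d c d) / (q - p) with hb
      have h1 : ∀ j, j ≤ d → ee d c (d - j) = a * p ^ j + b * q ^ j := by
        intro j
        induction j using Nat.twoStepInduction with
        | zero =>
          intro _
          rw [ha, hb, Nat.sub_zero, pow_zero, pow_zero]
          field_simp
          ring
        | one =>
          intro _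
          rw [ha, hb, pow_one, pow_one]
          field_simp
          ring
        | more j ih1 ih2 =>
          intro hj
          rw [hrec' j (by omega), ih1 (by omega), ih2 (by omega)]
          ring
      refine ⟨p, q, a, b, hpq, hcmp _ ?_ ?_⟩
      · intro j hj
        rw [coeff_add, coeff_C_mul, coeff_C_mul, coeff_X_add_C_pow, coeff_X_add_C_pow,
          show d - (d - j) = j by omega, h1 j hj]
        ring
      · exact (natDegree_add_le _ _).trans (max_le (hdeg _ _ _ le_rfl) (hdeg _ _ _ le_rfl))

end Pool.Agent.T2H23.ED
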