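import Mathlib

/-!
# Project ED (MP_625b79_ag): definitions

The Euclidean distance degree of the secant variety of the rational normal curve is `(3 d^2 - 9 d + 2) / 2`.
-/

set_option autoImplicit false

noncomputable section

open Polynomial

namespace Pool.Agent.T2H23.ED

/-- coefficient vectors of binary forms `∑ c_i x^(d-i) y^i` of degree `d` -/
abbrev V (d : ℕ) : Type := Fin (d + 1) → ℂ

/-- the coefficient vector of `(α x + β y)^d`, `l = (α, β)` -/
def pw (d : ℕ) (l : ℂ × ℂ) : V d := fun i =>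
  (d.choose (i : ℕ) : ℂ) * l.1 ^ (d - (i : ℕ)) * l.2 ^ (i : ℕ)

/-- the Frobenius bilinear form -/
def B (d : ℕ) (c c' : V d) : ℂ := ∑ i : Fin (d + 1), c i * c' i / (d.choose (i : ℕ) : ℂ)

/-- the polynomials which vanish on all sums of two `d`-th powers -/
def IX (d : ℕ) : Set (MvPolynomial (Fin (d + 1)) ℂ) :=
  {P | ∀ l l' : ℂ × ℂ, MvPolynomial.eval (pw d l + pw d l') P = 0}

/-- the affine cone over the secant variety: the Zariski closure of the sums of two powers -/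
def Sec (d : ℕ) : Set (V d) := {c | ∀ P ∈ IX d, MvPolynomial.eval c P = 0}

/-- the differential of `P` at `c` -/
def dP {d : ℕ} (c : V d) (P : MvPolynomial (Fin (d + 1)) ℂ) : V d →ₗ[ℂ] ℂ :=
  ∑ i, MvPolynomial.eval c (MvPolynomial.pderiv i P) • LinearMap.proj i

/-- the Zariski tangent space of `Sec d` at `c` -/
def Tan (d : ℕ) (c : V d) : Submodule ℂ (V d) where
  carrier := {v | ∀ P ∈ IX d, dP c P v = 0}
  add_mem' := fun ha hb P hP => by rw [map_add, ha P hP, hb P hP, add_zero]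
  zero_mem' := fun P _ => map_zero _
  smul_mem' := fun r v hv P hP => by rw [map_smul, hv P hP, smul_zero]

/-- the critical points of the squared distance from `u` on the smooth locus -/
def Crit (d : ℕ) (u : V d) : Set (V d) :=
  {c | c ∈ Sec d ∧ Module.finrank ℂ (Tan d c) = 4 ∧ ∀ v ∈ Tan d c, B d (c - u) v = 0}

/-- the Frobenius form in isotropic coordinates -/
def B2 (d : ℕ) (c c' : V d) : ℂ :=
  ∑ i : Fin (d + 1), c i * c' (Fin.rev i) / (d.choose (i : ℕ) : ℂ)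

/-- the critical points in isotropic coordinates -/
def Crit2 (d : ℕ) (u : V d) : Set (V d) :=
  {c | c ∈ Sec d ∧ Module.finrank ℂ (Tan d c) = 4 ∧ ∀ v ∈ Tan d c, B2 d (c - u) v = 0}

/-- `P u` for all `u` outside a hypersurface -/
def Gen (d : ℕ) (P : V d → Prop) : Prop :=
  ∃ D : MvPolynomial (Fin (d + 1)) ℂ, D ≠ 0 ∧ ∀ u : V d, MvPolynomial.eval u D ≠ 0 → P u

/-- the polynomial in one variable with coefficient vector `c` -/
def PU (d : ℕ) (c : V d) : ℂ[X] := ∑ i : Fin (d + 1), C (c i) * X ^ (i : ℕ)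

/-- the coefficient vector of a polynomial -/
def vec (d : ℕ) (p : ℂ[X]) : V d := fun i => p.coeff i

/-- `u = a (X+p)^d + b (X+q)^d + (X-p)^2 (X-q)^2 h`, `deg h ≤ d - 4` -/
def DR (d : ℕ) (u : V d) (p q a b : ℂ) : Prop := ∃ h : ℂ[X], h.natDegree ≤ d - 4 ∧
  PU d u = C a * (X + C p) ^ d + C b * (X + C q) ^ d + (X - C p) ^ 2 * (X - C q) ^ 2 * h

/-- generic `u` -/
def Good (d : ℕ) (u : V d) : Prop := u 0 ≠ 0 ∧ u (Fin.last d) ≠ 0 ∧
  (∀ p q a b : ℂ, DR d u p q a b → p ≠ 0 ∧ q ≠ 0 ∧ p + q ≠ 0 ∧ a ≠ 0 ∧ b ≠ 0) ∧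
  (∀ (p a b : ℂ) (h : ℂ[X]), h.natDegree ≤ d - 4 →
    PU d u ≠ C a * (X + C p) ^ d + C b + (X - C p) ^ 2 * h) ∧
  (∀ (p a b : ℂ) (h : ℂ[X]), h.natDegree ≤ d - 4 →
    PU d u ≠ C a * (X + C p) ^ d + C b * (X + C p) ^ (d - 1) + (X - C p) ^ 4 * h)

/-- `f_k (θ)`; the variable `θ` is `X` -/
def ff (d k : ℕ) : ℂ[X] := C ((2 : ℂ) ^ (d - 1) * (2 * (k : ℂ) / d - 1)) * X ^ k -
  (1 + X) ^ (d - 1) * (C ((k : ℂ) / d) * (1 + X) - 1)

/-- `g_k (θ)` -/
def gg (d k : ℕ) : ℂ[X] := C ((2 : ℂ) ^ (d - 1) * (2 * (k : ℂ) / d - 1)) * X ^ (d - 1) -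
  (1 + X) ^ (d - 1) * (C ((k : ℂ) / d) * (1 + X) * X ^ (k - 1) - X ^ k)

/-- `A = ∑ u_k f_k(θ) p^k`: a polynomial in `p` over `ℂ[θ]` -/
def PA (d : ℕ) (u : V d) : ℂ[X][X] := ∑ k : Fin (d + 1), C (C (u k) * ff d k) * X ^ (k : ℕ)

/-- `B = ∑ u_k g_k(θ) p^k` -/
def PB (d : ℕ) (u : V d) : ℂ[X][X] := ∑ k : Fin (d + 1), C (C (u k) * gg d k) * X ^ (k : ℕ)

/-- the resultant of `A` and `B` with respect to `p`, a polynomial in `θ` -/
def RU (d : ℕ) (u : V d) : ℂ[X] := resultant (PA d u) (PB d u) d d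

/-- the value of `A` at `θ`, `p` -/
def vA (d : ℕ) (u : V d) (θ p : ℂ) : ℂ := ∑ k : Fin (d + 1), u k * (ff d k).eval θ * p ^ (k : ℕ)

/-- the value of `B` at `θ`, `p` -/
def vB (d : ℕ) (u : V d) (θ p : ℂ) : ℂ := ∑ k : Fin (d + 1), u k * (gg d k).eval θ * p ^ (k : ℕ)

/-- the ring of polynomials in the coefficients of `u` -/
abbrev AA (d : ℕ) : Type := MvPolynomial (Fin (d + 1)) ℂ

/-- the universal versions of `PA`, `PB`, `RU` (coefficients are polynomials in `u`) -/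
def QA (d : ℕ) : (AA d)[X][X] :=
  ∑ k : Fin (d + 1), C (C (MvPolynomial.X k) * (ff d k).map MvPolynomial.C) * X ^ (k : ℕ)

def QB (d : ℕ) : (AA d)[X][X] :=
  ∑ k : Fin (d + 1), C (C (MvPolynomial.X k) * (gg d k).map MvPolynomial.C) * X ^ (k : ℕ)

def RR (d : ℕ) : (AA d)[X] := resultant (QA d) (QB d) d d

/-- specialization of a polynomial over `AA d` -/
def sp {d : ℕ} (u : V d) (T : (AA d)[X]) : ℂ[X] := T.map (MvPolynomial.eval u)

/-! ### basic lemmas -/

lemma PU_coeff (d : ℕ) (c : V d) (i : Fin (d + 1)) : (PU d c).coeff i = c i := by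
  unfold PU
  rw [finsetSum_coeff, Finset.sum_eq_single i]
  · simp
  · intro j _ hj
    rw [coeff_C_mul, coeff_X_pow, if_neg, mul_zero]
    intro h
    exact hj (Fin.ext h.symm)
  · simp

lemma PU_natDegree (d : ℕ) (c : V d) : (PU d c).natDegree ≤ d := by
  unfold PU
  refine natDegree_sum_le_of_forall_le _ _ fun i _ => ?_
  refine (natDegree_C_mul_X_pow_le _ _).trans ?_
  have := i.2
  omega

lemma vec_PU (d : ℕ) (c : V d) : vec d (PU d c) = c := funext fun i => PU_coeff d c i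

lemma PU_vec (d : ℕ) (p : ℂ[X]) (hp : p.natDegree ≤ d) : PU d (vec d p) = p := by
  ext n
  by_cases hn : n < d + 1
  · have := PU_coeff d (vec d p) ⟨n, hn⟩
    simpa [vec] using this
  · rw [coeff_eq_zero_of_natDegree_lt, coeff_eq_zero_of_natDegree_lt]
    · omega
    · have := PU_natDegree d (vec d p)
      omega

lemma vec_add (d : ℕ) (p q : ℂ[X]) : vec d (p + q) = vec d p + vec d q := by
  funext i
  simp [vec]

lemma vec_sub (d : ℕ) (p q : ℂ[X]) : vec d (p - q) = vec d p - vec d q := by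
  funext i
  simp [vec]

lemma vec_C_mul (d : ℕ) (a : ℂ) (p : ℂ[X]) : vec d (C a * p) = a • vec d p := by
  funext i
  simp [vec]

lemma PU_add (d : ℕ) (c c' : V d) : PU d (c + c') = PU d c + PU d c' := by
  unfold PU
  rw [← Finset.sum_add_distrib]
  refine Finset.sum_congr rfl fun i _ => ?_
  rw [Pi.add_apply, C_add, add_mul]

lemma PU_sub (d : ℕ) (c c' : V d) : PU d (c - c') = PU d c - PU d c' := by
  unfold PU
  rw [← Finset.sum_sub_distrib]
  refine Finset.sum_congr rfl fun i _ => ?_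
  rw [Pi.sub_apply, C_sub, sub_mul]

lemma PU_smul (d : ℕ) (a : ℂ) (c : V d) : PU d (a • c) = C a * PU d c := by
  unfold PU
  rw [Finset.mul_sum]
  refine Finset.sum_congr rfl fun i _ => ?_
  rw [Pi.smul_apply, smul_eq_mul, C_mul, mul_assoc]

/-- `pw (s, t)` is the coefficient vector of `(s + t X)^d` -/
lemma pw_eq (d : ℕ) (l : ℂ × ℂ) : pw d l = vec d ((C l.1 + C l.2 * X) ^ d) := by
  funext i
  unfold vec pw
  have key : ∀ j : ℕ, (C l.2 * X) ^ j * C l.1 ^ (d - j) * ((d.choose j : ℕ) : ℂ[X]) =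
      C (l.2 ^ j * l.1 ^ (d - j) * (d.choose j : ℂ)) * X ^ j := by
    intro j
    simp only [C_mul, C_pow, C_eq_natCast, map_natCast]
    ring
  rw [add_comm (C l.1), add_pow, finsetSum_coeff, Finset.sum_congr rfl fun j _ => by rw [key j],
    Finset.sum_eq_single (i : ℕ)]
  · rw [coeff_C_mul_X_pow, if_pos rfl]
    ring
  · intro j _ hj
    rw [coeff_C_mul_X_pow, if_neg (fun h => hj h.symm)]
  · intro h
    exact absurd (Finset.mem_range.2 i.2) h

lemma pw_one (d : ℕ) (p : ℂ) : pw d (p, 1) = vec d ((X + C p) ^ d) := by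
  rw [pw_eq]
  congr 2
  simp [add_comm]

lemma pw_inf (d : ℕ) : pw d (1, 0) = vec d 1 := by
  rw [pw_eq]
  simp

lemma gen_and {d : ℕ} {P Q : V d → Prop} (hP : Gen d P) (hQ : Gen d Q) :
    Gen d fun u => P u ∧ Q u := by
  obtain ⟨D, hD, h⟩ := hP
  obtain ⟨E, hE, h'⟩ := hQ
  refine ⟨D * E, mul_ne_zero hD hE, fun u hu => ?_⟩
  rw [map_mul] at hu
  exact ⟨h u (left_ne_zero_of_mul hu), h' u (right_ne_zero_of_mul hu)⟩

lemma gen_mono {d : ℕ} {P Q : V d → Prop} (hP : Gen d P) (h : ∀ u, P u → Q u) : Gen d Q := by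
  obtain ⟨D, hD, h'⟩ := hP
  exact ⟨D, hD, fun u hu => h u (h' u hu)⟩

lemma B2_add_left (d : ℕ) (a b c : V d) : B2 d (a + b) c = B2 d a c + B2 d b c := by
  unfold B2
  rw [← Finset.sum_add_distrib]
  refine Finset.sum_congr rfl fun i _ => ?_
  rw [Pi.add_apply]
  ring

lemma B2_sub_left (d : ℕ) (a b c : V d) : B2 d (a - b) c = B2 d a c - B2 d b c := by
  unfold B2
  rw [← Finset.sum_sub_distrib]
  refine Finset.sum_congr rfl fun i _ => ?_
  rw [Pi.sub_apply]
  ring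

lemma B2_smul_left (d : ℕ) (r : ℂ) (a c : V d) : B2 d (r • a) c = r * B2 d a c := by
  unfold B2
  rw [Finset.mul_sum]
  refine Finset.sum_congr rfl fun i _ => ?_
  rw [Pi.smul_apply, smul_eq_mul]
  ring

/-- the values of `RU` are resultants of complex polynomials -/
lemma RU_eval (d : ℕ) (u : V d) (θ : ℂ) : (RU d u).eval θ =
    resultant ((PA d u).map (evalRingHom θ)) ((PB d u).map (evalRingHom θ)) d d := by
  unfold RU
  rw [resultant_map_map]
  rfl

lemma PA_eval (d : ℕ) (u : V d) (θ p : ℂ) :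
    ((PA d u).map (evalRingHom θ)).eval p = vA d u θ p := by
  unfold PA vA
  simp [Polynomial.map_sum, eval_finsetSum]

lemma PB_eval (d : ℕ) (u : V d) (θ p : ℂ) :
    ((PB d u).map (evalRingHom θ)).eval p = vB d u θ p := by
  unfold PB vB
  simp [Polynomial.map_sum, eval_finsetSum]

/-- specialization of `RR` -/
lemma sp_RR (d : ℕ) (u : V d) : sp u (RR d) = RU d u := by
  have hA : (QA d).map (mapRingHom (MvPolynomial.eval u)) = PA d u := by
    unfold QA PA
    simp [Polynomial.map_sum, Polynomial.map_map]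
    refine Finset.sum_congr rfl fun k _ => ?_
    congr 3
    convert Polynomial.map_id
    ext x
    · simp
  have hB : (QB d).map (mapRingHom (MvPolynomial.eval u)) = PB d u := by
    unfold QB PB
    simp [Polynomial.map_sum, Polynomial.map_map]
    refine Finset.sum_congr rfl fun k _ => ?_
    congr 3
    convert Polynomial.map_id
    ext x
    · simp
  unfold RU
  rw [← hA, ← hB, resultant_map_map]
  rfl

end Pool.Agent.T2H23.ED
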