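import Pool.Agent.T2H23.ED.Stm
import Pool.Agent.T2H23.ED.CH

/-! # Package L1 : tangent space at a multiple of a power -/

set_option autoImplicit false
set_option linter.unusedVariables false

noncomputable section

open Polynomial

namespace Pool.Agent.T2H23.ED

theorem pL1 (hCH : S_CH) (hMEM : S_MEM) (hSPAN : S_SPAN) : S_L1 := by
  intro d hd a l
  refine hSPAN d _ fun l' => ?_
  have h := PkgCH.curve hCH (d := d) (n := 0) (fun j => if j = 0 then PU d (a • pw d l) else PU d (pw d l'))
    fun t ht => by
      rw [Finset.sum_range_succ, Finset.sum_range_one]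
      simp only [if_true, one_ne_zero, if_false, pow_zero, pow_one, C_1, one_mul]
      rw [vec_add, vec_C_mul, vec_PU, vec_PU]
      exact hMEM d hd a t l l'
  simp only [if_true, one_ne_zero, if_false, vec_PU] at h
  exact h.2

end Pool.Agent.T2H23.ED
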