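import Pool.Agent.T2H23.ED.Stm
import Pool.Agent.T2H23.ED.CH

/-! # Package L2 : tangent vectors at a sum of two powers -/

set_option autoImplicit false
set_option linter.unusedVariables false

noncomputable section

open Polynomial

namespace Pool.Agent.T2H23.ED

theorem pL2 (hCH : S_CH) (hMEM : S_MEM) : S_L2 := by
  intro d hd a b l l' m ha
  have hd0 : (d : ℂ) ≠ 0 := by
    exact_mod_cast (by omega : d ≠ 0)
  set A : ℂ[X] := C l.1 + C l.2 * X with hA
  set N : ℂ[X] := C m.1 + C m.2 * X with hN
  have h := PkgCH.curve hCH (d := d) (n := d - 1)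
    (fun j => (if j = 0 then PU d (b • pw d l') else 0) +
      C (a * (d.choose j : ℂ)) * (N ^ j * A ^ (d - j)))
    fun t ht => by
      have hr : d - 1 + 2 = d + 1 := by omega
      rw [hr]
      have e1 : ∑ j ∈ Finset.range (d + 1), C (t ^ j) * ((if j = 0 then PU d (b • pw d l') else 0) +
          C (a * (d.choose j : ℂ)) * (N ^ j * A ^ (d - j))) =
          PU d (b • pw d l') + C a * (C (l.1 + t * m.1) + C (l.2 + t * m.2) * X) ^ d := by
        simp only [mul_add, Finset.sum_add_distrib]
        congr 1
        · rw [Finset.sum_eq_single 0]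
          · simp
          · intro j _ hj
            simp [hj]
          · intro h
            exact absurd (Finset.mem_range.2 (by omega)) h
        · have e2 : C (l.1 + t * m.1) + C (l.2 + t * m.2) * X = C t * N + A := by
            rw [hA, hN, C_add, C_add, C_mul, C_mul]
            ring
          rw [e2, add_pow, Finset.mul_sum]
          refine Finset.sum_congr rfl fun j _ => ?_
          have e4 : ((d.choose j : ℕ) : ℂ[X]) = C (d.choose j : ℂ) := (C_eq_natCast _).symm
          rw [mul_pow, C_pow, C_mul, e4]
          ring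
      rw [e1, vec_add, vec_C_mul, vec_PU]
      have e3 : vec d ((C (l.1 + t * m.1) + C (l.2 + t * m.2) * X) ^ d) =
          pw d (l.1 + t * m.1, l.2 + t * m.2) := (pw_eq d (l.1 + t * m.1, l.2 + t * m.2)).symm
      rw [e3, add_comm (b • pw d l')]
      exact hMEM d hd a b (l.1 + t * m.1, l.2 + t * m.2) l'
  simp only [if_true, one_ne_zero, if_false, zero_add, pow_zero, one_mul, pow_one,
    Nat.choose_zero_right, Nat.cast_one, mul_one, Nat.sub_zero, Nat.choose_one_right] at h
  have h0 : vec d (PU d (b • pw d l') + C a * A ^ d) = a • pw d l + b • pw d l' := by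
    rw [vec_add, vec_PU, vec_C_mul, hA, ← pw_eq, add_comm (b • pw d l')]
  rw [h0, vec_C_mul] at h
  have h1 := (Tan d (a • pw d l + b • pw d l')).smul_mem (a * d)⁻¹ h.2
  rw [smul_smul, inv_mul_cancel₀ (mul_ne_zero ha hd0), one_smul, mul_comm] at h1
  exact h1

end Pool.Agent.T2H23.ED
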