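import Pool.Agent.T2H23.ED.CUR

/-!
# Package L4 : tangent vectors at tangential points
-/

set_option autoImplicit false

noncomputable section

open Polynomial

namespace Pool.Agent.T2H23.ED

namespace PkgL4

open PkgCUR

/-- even and odd parts of `(K + Y)^n` as polynomials in `Y^2` -/
def EO (K : ℂ[X]) : ℕ → ℂ[X][X] × ℂ[X][X]
  | 0 => (1, 0)
  | n + 1 => (C K * (EO K n).1 + X * (EO K n).2, (EO K n).1 + C K * (EO K n).2)

lemma eo_eval (K : ℂ[X]) (h : ℂ) (n : ℕ) :
    (K + C h) ^ n = ((EO K n).1).eval (C (h ^ 2)) + C h * ((EO K n).2).eval (C (h ^ 2)) := by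
  induction n with
  | zero => simp [EO]
  | succ n ih =>
    rw [pow_succ, ih]
    simp only [EO, eval_add, eval_mul, eval_C, eval_X, C_pow]
    ring

lemma eo_coeff (K : ℂ[X]) (n : ℕ) : ((EO K n).1).coeff 0 = K ^ n ∧
    K * ((EO K n).2).coeff 0 = (n : ℂ[X]) * K ^ n ∧
    K ^ 2 * ((EO K n).1).coeff 1 = (n.choose 2 : ℂ[X]) * K ^ n ∧
    K ^ 3 * ((EO K n).2).coeff 1 = (n.choose 3 : ℂ[X]) * K ^ n := by
  induction n with
  | zero => simp [EO, coeff_one]
  | succ n ih =>
    obtain ⟨h1, h2, h3, h4⟩ := ih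
    have e1 : ((EO K (n + 1)).1).coeff 0 = K * ((EO K n).1).coeff 0 := by
      simp [EO, coeff_C_mul]
    have e2 : ((EO K (n + 1)).2).coeff 0 = ((EO K n).1).coeff 0 + K * ((EO K n).2).coeff 0 := by
      simp [EO, coeff_C_mul]
    have e3 : ((EO K (n + 1)).1).coeff 1 = K * ((EO K n).1).coeff 1 + ((EO K n).2).coeff 0 := by
      have : (X * (EO K n).2 : ℂ[X][X]).coeff 1 = ((EO K n).2).coeff 0 := by
        rw [show (1 : ℕ) = 0 + 1 from rfl, coeff_X_mul]
      simp [EO, this]
    have e4 : ((EO K (n + 1)).2).coeff 1 = ((EO K n).1).coeff 1 + K * ((EO K n).2).coeff 1 := by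
      simp [EO, coeff_C_mul]
    have c2 : ((n + 1).choose 2 : ℂ[X]) = (n : ℂ[X]) + (n.choose 2 : ℂ[X]) := by
      rw [Nat.choose_succ_succ' n 1, Nat.choose_one_right]
      push_cast
      ring
    have c3 : ((n + 1).choose 3 : ℂ[X]) = (n.choose 2 : ℂ[X]) + (n.choose 3 : ℂ[X]) := by
      rw [Nat.choose_succ_succ' n 2]
      push_cast
      ring
    refine ⟨?_, ?_, ?_, ?_⟩
    · rw [e1, h1, pow_succ]
      ring
    · rw [e2, h1, pow_succ]
      push_cast
      linear_combination K * h2
    · rw [e3, c2, pow_succ]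
      linear_combination K * h3 + K * h2
    · rw [e4, c3, pow_succ]
      linear_combination K * h3 + K * h4

lemma mem_tan (hCH : S_CH) (hMEM : S_MEM) (d : ℕ) (hd : 2 ≤ d) (p a b : ℂ) :
    vec d (C a * (X + C p) ^ d + C b * (X + C p) ^ (d - 1)) ∈ Sec d := by
  have hdc : (d : ℂ) ≠ 0 := by exact_mod_cast (by omega : d ≠ 0)
  set K : ℂ[X] := X + C p with hK
  obtain ⟨R, hR⟩ : ∃ R : ℂ[X][X], (C K + X) ^ d - (C K) ^ d = X * R := by
    have h := sub_dvd_pow_sub_pow (C K + X : ℂ[X][X]) (C K) d
    rw [add_sub_cancel_left] at h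
    exact h
  have hR0 : R.coeff 0 = C (d : ℂ) * K ^ (d - 1) := by
    have h1 : (X * R : ℂ[X][X]).coeff 1 = R.coeff 0 := by
      rw [show (1 : ℕ) = 0 + 1 from rfl, coeff_X_mul]
    have h2 : (X * R : ℂ[X][X]).coeff 1 = (derivative (X * R)).eval 0 := by
      rw [← coeff_zero_eq_eval_zero, coeff_derivative]
      simp
    rw [← h1, h2, ← hR]
    simp [derivative_pow]
  have h := (cur hCH d (C (C a * K ^ d) + C (C (b / d)) * R) (fun t ht => ?_)).1
  · have h3 : (C (C a * K ^ d) + C (C (b / d)) * R : ℂ[X][X]).coeff 0 =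
        C a * K ^ d + C b * K ^ (d - 1) := by
      rw [coeff_add, coeff_C_mul, coeff_C_zero, hR0, ← mul_assoc, ← C_mul, div_mul_cancel₀ _ hdc]
    rw [h3] at h
    exact h
  · have h4 : C t * R.eval (C t) = (K + C t) ^ d - K ^ d := by
      have := congrArg (eval (C t)) hR
      simp only [eval_sub, eval_pow, eval_add, eval_mul, eval_X, eval_C] at this
      exact this.symm
    have h5 : R.eval (C t) = C t⁻¹ * ((K + C t) ^ d - K ^ d) := by
      rw [← h4, ← mul_assoc, ← C_mul, inv_mul_cancel₀ ht, C_1, one_mul]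
    rw [eval_add, eval_mul, eval_C, eval_C, h5]
    have h6 : C a * K ^ d + C (b / d) * (C t⁻¹ * ((K + C t) ^ d - K ^ d)) =
        C (a - b / d * t⁻¹) * (X + C p) ^ d + C (b / d * t⁻¹) * (X + C (p + t)) ^ d := by
      rw [C_add, ← add_assoc, ← hK]
      simp only [C_sub, C_mul]
      ring
    rw [h6, vec_add, vec_C_mul, vec_C_mul, ← pw_one, ← pw_one]
    exact hMEM d (by omega) _ _ _ _

end PkgL4

open PkgCUR PkgL4 in
theorem pL4 (hCH : S_CH) (hMEM : S_MEM) : S_L4 := by
  intro d hd p a b hb
  have hdc : (d : ℂ) ≠ 0 := by exact_mod_cast (by omega : d ≠ 0)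
  set K : ℂ[X] := X + C p with hK
  have hK0 : K ≠ 0 := by
    rw [hK]
    exact X_add_C_ne_zero p
  set W := Tan d (vec d (C a * K ^ d + C b * K ^ (d - 1))) with hW
  have h0 : vec d (K ^ d) ∈ W := by
    have h := (cur hCH d (C (C a * K ^ d + C b * K ^ (d - 1)) + C (K ^ d) * X) (fun t _ => ?_)).2
    · simp only [coeff_add, coeff_C_mul, coeff_C_zero, coeff_X_zero, mul_zero, add_zero,
        coeff_C_succ, coeff_X_one, mul_one, zero_add] at h
      exact h
    · have := mem_tan hCH hMEM d (by omega) p (a + t) b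
      rw [C_add] at this
      simp only [eval_add, eval_C, eval_mul, eval_X]
      convert this using 2
      ring
  have h1 : vec d (K ^ (d - 1)) ∈ W := by
    have h := (cur hCH d (C (C a * K ^ d + C b * K ^ (d - 1)) + C (K ^ (d - 1)) * X)
      (fun t _ => ?_)).2
    · simp only [coeff_add, coeff_C_mul, coeff_C_zero, coeff_X_zero, mul_zero, add_zero,
        coeff_C_succ, coeff_X_one, mul_one, zero_add] at h
      exact h
    · have := mem_tan hCH hMEM d (by omega) p a (b + t)
      rw [C_add] at this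
      simp only [eval_add, eval_C, eval_mul, eval_X]
      convert this using 2
      ring
  have h2 : vec d (K ^ (d - 2)) ∈ W := by
    set G : ℂ[X][X] := C (C a) * (C K + X) ^ d + C (C b) * (C K + X) ^ (d - 1) with hG
    have g0 : G.coeff 0 = C a * K ^ d + C b * K ^ (d - 1) := by
      rw [coeff_zero_eq_eval_zero, hG]
      simp
    have g1 : G.coeff 1 = C (a * d) * K ^ (d - 1) + C (b * (d - 1 : ℕ)) * K ^ (d - 2) := by
      have h2 : G.coeff 1 = (derivative G).eval 0 := by
        rw [← coeff_zero_eq_eval_zero, coeff_derivative]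
        simp
      rw [h2, hG]
      simp only [derivative_add, derivative_mul, derivative_C, derivative_pow, derivative_X,
        eval_add, eval_mul, eval_pow, eval_C, eval_X, zero_mul, zero_add, add_zero, mul_one,
        eval_one, eval_natCast, C_mul, Nat.sub_sub, C_eq_natCast]
      simp
      ring
    have h := (cur hCH d G (fun t _ => ?_)).2
    · rw [g0, ← hW, g1, vec_add, vec_C_mul, vec_C_mul] at h
      have h3 := W.sub_mem h (W.smul_mem (a * d) h1)
      rw [add_sub_cancel_left] at h3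
      have h4 := W.smul_mem ((b * (d - 1 : ℕ))⁻¹) h3
      rw [smul_smul, inv_mul_cancel₀, one_smul] at h4
      · exact h4
      · refine mul_ne_zero hb ?_
        exact_mod_cast (by omega : d - 1 ≠ 0)
    · have := mem_tan hCH hMEM d (by omega) (p + t) a b
      rw [C_add, ← add_assoc, ← hK] at this
      rw [hG]
      simp only [eval_add, eval_C, eval_mul, eval_X, eval_pow]
      exact this
  have h3 : vec d (K ^ (d - 3)) ∈ W := by
    set G : ℂ[X][X] := C (C a) * (EO K d).1 + C (C (b / d)) * (EO K d).2 with hG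
    obtain ⟨e1, e2, e3, e4⟩ := eo_coeff K d
    have o0 : ((EO K d).2).coeff 0 = (d : ℂ[X]) * K ^ (d - 1) := by
      have : K * ((EO K d).2).coeff 0 = K * ((d : ℂ[X]) * K ^ (d - 1)) := by
        rw [e2]
        conv_lhs => rw [show d = (d - 1) + 1 by omega, pow_succ]
        rw [Nat.sub_add_cancel (by omega)]
        ring
      exact mul_left_cancel₀ hK0 this
    have o1 : ((EO K d).1).coeff 1 = (d.choose 2 : ℂ[X]) * K ^ (d - 2) := by
      have : K ^ 2 * ((EO K d).1).coeff 1 = K ^ 2 * ((d.choose 2 : ℂ[X]) * K ^ (d - 2)) := by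
        rw [e3, mul_left_comm, ← pow_add, show 2 + (d - 2) = d by omega]
      exact mul_left_cancel₀ (pow_ne_zero 2 hK0) this
    have o2 : ((EO K d).2).coeff 1 = (d.choose 3 : ℂ[X]) * K ^ (d - 3) := by
      have : K ^ 3 * ((EO K d).2).coeff 1 = K ^ 3 * ((d.choose 3 : ℂ[X]) * K ^ (d - 3)) := by
        rw [e4, mul_left_comm, ← pow_add, show 3 + (d - 3) = d by omega]
      exact mul_left_cancel₀ (pow_ne_zero 3 hK0) this
    have g0 : G.coeff 0 = C a * K ^ d + C b * K ^ (d - 1) := by
      rw [hG, coeff_add, coeff_C_mul, coeff_C_mul, e1, o0, ← mul_assoc, ← C_eq_natCast, ← C_mul,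
        div_mul_cancel₀ _ hdc]
    have g1 : G.coeff 1 = C (a * d.choose 2) * K ^ (d - 2) +
        C (b / d * d.choose 3) * K ^ (d - 3) := by
      rw [hG, coeff_add, coeff_C_mul, coeff_C_mul, o1, o2, C_mul, C_mul, C_eq_natCast,
        C_eq_natCast]
      ring
    have h := (cur hCH d G (fun s hs => ?_)).2
    · rw [g0, ← hW, g1, vec_add, vec_C_mul, vec_C_mul] at h
      have h5 := W.sub_mem h (W.smul_mem (a * d.choose 2) h2)
      rw [add_sub_cancel_left] at h5
      have h4 := W.smul_mem ((b / d * d.choose 3)⁻¹) h5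
      rw [smul_smul, inv_mul_cancel₀, one_smul] at h4
      · exact h4
      · refine mul_ne_zero (div_ne_zero hb hdc) ?_
        have : 0 < d.choose 3 := Nat.choose_pos hd
        exact_mod_cast this.ne'
    · obtain ⟨h, hh⟩ := IsAlgClosed.exists_pow_nat_eq s (n := 2) (by norm_num)
      have hh0 : h ≠ 0 := by
        rintro rfl
        rw [zero_pow (by norm_num)] at hh
        exact hs hh.symm
      have p1 := eo_eval K h d
      have p2 := eo_eval K (-h) d
      rw [neg_sq, hh] at p2
      rw [hh] at p1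
      have p3 : G.eval (C s) = C (a / 2 + b / (2 * d * h)) * (X + C (p + h)) ^ d +
          C (a / 2 - b / (2 * d * h)) * (X + C (p + -h)) ^ d := by
        rw [hG]
        simp only [eval_add, eval_mul, eval_C]
        rw [C_add (a := p) (b := h), C_add (a := p) (b := -h), ← add_assoc, ← add_assoc, ← hK, p1,
          p2]
        have q1 : a = (a / 2 + b / (2 * d * h)) + (a / 2 - b / (2 * d * h)) := by ring
        have q2 : b / d = (a / 2 + b / (2 * d * h)) * h + (a / 2 - b / (2 * d * h)) * (-h) := by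
          field_simp
          ring
        have q1' : C a = C (a / 2 + b / (2 * d * h)) + C (a / 2 - b / (2 * d * h)) := by
          rw [← C_add, ← q1]
        have q2' : C (b / d) = C (a / 2 + b / (2 * d * h)) * C h +
            C (a / 2 - b / (2 * d * h)) * C (-h) := by
          rw [← C_mul, ← C_mul, ← C_add, ← q2]
        rw [q1', q2']
        ring
      rw [p3, vec_add, vec_C_mul, vec_C_mul, ← pw_one, ← pw_one]
      exact hMEM d (by omega) _ _ _ _
  intro j hj
  interval_cases j
  · exact h0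
  · exact h1
  · exact h2
  · exact h3

end Pool.Agent.T2H23.ED
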