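import Pool.Agent.T2H23.ED.Stm
import Pool.Agent.T2H23.ED.CH

/-! # Package L5 : tangential points at infinity -/

set_option autoImplicit false
set_option linter.unusedVariables false

noncomputable section

open Polynomial

namespace Pool.Agent.T2H23.ED

namespace PkgL5

lemma pow_expand (d : ℕ) (t : ℂ) :
    (C (1 : ℂ) + C t * X) ^ d = 1 + ∑ j ∈ Finset.range d, C (t ^ (j + 1) * (d.choose (j + 1) : ℂ)) * X ^ (j + 1) := by
  rw [add_comm (C (1 : ℂ)), C_1, add_pow, Finset.sum_range_succ', add_comm]
  congr 1
  · simp
  · refine Finset.sum_congr rfl fun j _ => ?_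
    rw [one_pow, mul_one, mul_pow, ← C_pow, C_mul, ← C_eq_natCast]
    ring

lemma mem (hCH : S_CH) (hMEM : S_MEM) (d : ℕ) (hd : 2 ≤ d) (a b : ℂ) :
    vec d (C a + C b * X) ∈ Sec d := by
  have hd0 : (d : ℂ) ≠ 0 := by
    exact_mod_cast (by omega : d ≠ 0)
  have h := PkgCH.curve hCH (d := d) (n := d - 2)
    (fun j => (if j = 0 then C a else 0) + C (b / d * (d.choose (j + 1) : ℂ)) * X ^ (j + 1))
    fun t ht => by
      have hr : d - 2 + 2 = d := by omega
      rw [hr]
      have e1 : ∑ j ∈ Finset.range d, C (t ^ j) * ((if j = 0 then C a else 0) +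
          C (b / d * (d.choose (j + 1) : ℂ)) * X ^ (j + 1)) =
          C (a - b / (d * t)) + C (b / (d * t)) * (C (1 : ℂ) + C t * X) ^ d := by
        rw [pow_expand, mul_add, mul_one, ← add_assoc, ← C_add, sub_add_cancel]
        simp only [mul_add, Finset.sum_add_distrib]
        congr 1
        · rw [Finset.sum_eq_single 0]
          · simp
          · intro j _ hj
            simp [hj]
          · intro h
            exact absurd (Finset.mem_range.2 (by omega)) h
        · rw [Finset.mul_sum]
          refine Finset.sum_congr rfl fun j _ => ?_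
          rw [← mul_assoc, ← mul_assoc, ← C_mul, ← C_mul]
          congr 2
          field_simp
          ring
      rw [e1, vec_add, vec_C_mul]
      have e2 : vec d (C (a - b / (d * t))) = (a - b / (d * t)) • pw d (1, 0) := by
        rw [pw_inf, ← vec_C_mul, mul_one]
      have e3 : vec d ((C (1 : ℂ) + C t * X) ^ d) = pw d (1, t) := (pw_eq d (1, t)).symm
      rw [e2, e3]
      exact hMEM d (by omega) _ _ _ _
  have h1 := h.1
  have e4 : (if (0 : ℕ) = 0 then C a else 0) + C (b / d * (d.choose (0 + 1) : ℂ)) * X ^ (0 + 1) =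
      C a + C b * X := by
    rw [if_pos rfl, zero_add, pow_one, Nat.choose_one_right, div_mul_cancel₀ _ hd0]
  rw [e4] at h1
  exact h1

end PkgL5

theorem pL5 (hCH : S_CH) (hMEM : S_MEM) : S_L5 := by
  intro d hd a b
  have h := PkgCH.curve hCH (d := d) (n := 0) (fun j => if j = 0 then C a + C b * X else 1)
    fun t ht => by
      rw [Finset.sum_range_succ, Finset.sum_range_one]
      simp only [if_true, one_ne_zero, if_false, pow_zero, pow_one, C_1, one_mul, mul_one]
      have : C a + C b * X + C t = C (a + t) + C b * X := by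
        rw [C_add]
        ring
      rw [this]
      exact PkgL5.mem hCH hMEM d hd _ _
  simp only [if_true, one_ne_zero, if_false] at h
  exact h.2

end Pool.Agent.T2H23.ED
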