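import Pool.Agent.T2H23.ED.Stm

/-! # Package MEM : membership -/

set_option autoImplicit false
set_option linter.unusedVariables false

noncomputable section

open Polynomial

namespace Pool.Agent.T2H23.ED

namespace PkgMEM

lemma smul_pw (d : ℕ) (α : ℂ) (l : ℂ × ℂ) : α ^ d • pw d l = pw d (α * l.1, α * l.2) := by
  funext i
  have hi : d = (d - (i : ℕ)) + (i : ℕ) := by
    have := i.2
    omega
  simp only [pw, Pi.smul_apply, smul_eq_mul, mul_pow]
  have h : α ^ d = α ^ (d - (i : ℕ)) * α ^ (i : ℕ) := by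
    rw [← pow_add, ← hi]
  rw [h]
  ring

end PkgMEM

open PkgMEM

theorem pMEM : S_MEM := by
  intro d hd a b l l'
  obtain ⟨α, hα⟩ := IsAlgClosed.exists_pow_nat_eq a (show 0 < d by omega)
  obtain ⟨β, hβ⟩ := IsAlgClosed.exists_pow_nat_eq b (show 0 < d by omega)
  intro P hP
  rw [← hα, ← hβ, smul_pw, smul_pw]
  exact hP _ _

end Pool.Agent.T2H23.ED
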