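import Pool.Agent.T2H23.ED.Defs

/-!
# Project ED (MP_625b79_ag): the packages

Package `Y` = `theorem pY ... : S_Y` in `Pool/Agent/T2H23/ED/Y.lean` (import `Pool.Agent.T2H23.ED.Stm`, namespace
`Pool.Agent.T2H23.ED`, your lemmas in the namespace `Pool.Agent.T2H23.ED.PkgY`). Statements of other packages which
are needed are hypotheses (`theorem pTRA (h1 : S_PHI) (h2 : S_TRF) : S_TRA`). `Defs.lean` has basic lemmas
(`PU_vec`, `vec_PU`, `pw_eq`, `pw_one`, `pw_inf`, `B2_sub_left`, `RU_eval`, `PA_eval`, `sp_RR`, `gen_and`, ...).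

Overview. `Sec d` = closure of the sums of two `d`-th powers. In isotropic coordinates (PHI, TRF, TRA) the form is `B2`, a
form is a polynomial `PU d c` of degree `≤ d` and `B2 c ((X+p)^d) = c(p)`. A point `a (X+p)^d + b (X+q)^d` is critical iff
`c - u` has double roots at `p` and `q` (GEO). For generic `u` all critical points are of this kind (DEP, EXC, GOOD).
With `q = θ p` this becomes `A(θ, p) = B(θ, p) = 0` (K1); the resultant `RU` of `A`, `B` with respect to `p` is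
`X^(d-1) (X-1)^(5d) T` with `T` palindromic of degree `n = 3 d^2 - 9 d + 2` (V0, V1, SYM, VAL, ONE), and for generic `u` the
roots of `T` are simple (SQF). The critical points correspond to the pairs `{θ, 1/θ}` (CNT).
-/

set_option autoImplicit false

noncomputable section

open Polynomial

namespace Pool.Agent.T2H23.ED

/-! ## Part 1 : change of coordinates -/

/-- package SPAN : the powers span. (`d + 1` powers `(1 + z X)^d` for distinct `z`: Vandermonde; or: a linear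
functional `c ↦ ∑ λ_i c_i` which vanishes on all `pw (1, z)` gives the polynomial `∑ λ_i binom(d,i) z^i = 0`; use
`Submodule.dualAnnihilator` / `Submodule.exists_dual_map_eq_bot_of_notMem` or similar.) -/
def S_SPAN : Prop := ∀ (d : ℕ) (N : Submodule ℂ (V d)), (∀ l : ℂ × ℂ, pw d l ∈ N) → N = ⊤

/-- package PHI (uses SPAN) : `Φ c = vec d (∑ c_i (X + 1)^(d-i) (I (X - 1))^i)`; then
`Φ (pw (α, β)) = vec ((α (X+1) + β I (X-1))^d) = vec (((α - Iβ) + (α + Iβ) X)^d)`. The inverse is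
`c ↦ vec (∑ c_k ((1 + I X)/2)^(d-k) ((1 - I X)/2)^k)`, which maps `pw (s, t)` to `pw ((s+t)/2, I (s-t)/2)`: both compositions
are the identity on powers, hence everywhere (SPAN). The identity for the bilinear forms: both sides are bilinear, and
on powers `B (pw l) (pw l') = (l.1 l'.1 + l.2 l'.2)^d`, `B2 (pw (s,t)) (pw (s',t')) = (s t' + t s')^d` (binomial theorem), and
`(α - Iβ)(α' + Iβ') + (α + Iβ)(α' - Iβ') = 2 (α α' + β β')`. -/
def S_PHI : Prop := ∀ d : ℕ, ∃ Φ : V d ≃ₗ[ℂ] V d,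
  (∀ l : ℂ × ℂ, Φ (pw d l) = pw d (l.1 - Complex.I * l.2, l.1 + Complex.I * l.2)) ∧
  ∀ c c' : V d, B2 d (Φ c) (Φ c') = 2 ^ d * B d c c'

/-- package TRF : a linear equivalence which permutes the powers preserves `Sec` and the tangent spaces. (For a
polynomial `P` let `P^Φ = P (Φ x)`, `= bind₁` of the linear forms `∑_j Φ_ij X_j`: `eval c P^Φ = eval (Φ c) P`, so
`P ∈ IX ↔ P^Φ ∈ IX` (use that `g` is surjective, and `Φ.symm`), and `dP c P^Φ v = dP (Φ c) P (Φ v)` (chain rule: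
`MvPolynomial.induction_on`, or both sides are derivations in `P`). For the converse use `Q = P^(Φ⁻¹)`, `P = Q^Φ`.) -/
def S_TRF : Prop := ∀ (d : ℕ) (Φ : V d ≃ₗ[ℂ] V d) (g : ℂ × ℂ → ℂ × ℂ), Function.Surjective g →
  (∀ l, Φ (pw d l) = pw d (g l)) →
    (∀ c, c ∈ Sec d ↔ Φ c ∈ Sec d) ∧ ∀ c v, v ∈ Tan d c ↔ Φ v ∈ Tan d (Φ c)

/-- package TRA (uses PHI TRF) : transfer. `Φ` maps `Crit d u` onto `Crit2 d (Φ u)` (`Tan (Φ c) = map Φ (Tan c)` has the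
same finrank; `B2 (Φ c - Φ u) (Φ v) = 2^d B (c - u) v`), `D` is composed with `Φ` (the result is `≠ 0` since `Φ` is
surjective). -/
def S_TRA : Prop := ∀ d n : ℕ, Gen d (fun u => (Crit2 d u).Finite ∧ 2 * (Crit2 d u).ncard = n) →
  Gen d (fun u => (Crit d u).Finite ∧ 2 * (Crit d u).ncard = n)

/-! ## Part 2 : geometry -/

/-- package CH : curves. Let `P ∈ IX`. The polynomial `P ∘ γ ∈ ℂ[t]` (`aeval γ P`) vanishes at all `t ≠ 0`, so it is `0`;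
its value at `0` is `eval (γ 0) P` and its derivative at `0` is `dP (γ 0) P (γ' 0)` (chain rule, by
`MvPolynomial.induction_on`). -/
def S_CH : Prop := ∀ (d : ℕ) (γ : Fin (d + 1) → ℂ[X]),
  (∀ t : ℂ, t ≠ 0 → (fun i => (γ i).eval t) ∈ Sec d) →
    (fun i => (γ i).eval 0) ∈ Sec d ∧
    (fun i => (derivative (γ i)).eval 0) ∈ Tan d (fun i => (γ i).eval 0)

/-- package MEM : `a = α^d`, `a • pw l = pw (α l)`. -/
def S_MEM : Prop := ∀ (d : ℕ), 1 ≤ d → ∀ (a b : ℂ) (l l' : ℂ × ℂ), a • pw d l + b • pw d l' ∈ Sec d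

/-- package CLS : classification. Let `e i = c_i / binom(d,i)`. For `c = pw (s,t) + pw (s',t')`,
`e i = s^(d-i) t^i + s'^(d-i) t'^i`, so the 3 x 3 determinants with rows `(e i, e (i+1), e (i+2))`, for three indices
`i ≤ d - 2`, vanish (a sum of two matrices of rank one). They are polynomials in `c`, so they vanish on `Sec d`. So the
columns of the matrix of all rows `(e i, e (i+1), e (i+2))`, `i ≤ d - 2`, are dependent (rank `≤ 2`): there is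
`(x, y, z) ≠ 0` with `x e (i+2) + y e (i+1) + z e i = 0` for all `i ≤ d - 2`. Write `E j = e (d - j)`.
* `z ≠ 0`: `z E (j+2) + y E (j+1) + x E j = 0`; roots `p, q` of `z T^2 + y T + x`. If `p ≠ q`, `E j = a p^j + b q^j` (first
  case of the result); if `p = q`, `E j = a p^j + b' j p^(j-1)`, `PU c = a (X+p)^d + b' d (X+p)^(d-1)` (third case).
* `z = 0`, `y ≠ 0`: `E (j+1) = p E j` for `j ≤ d - 2`, so `E j = a p^j` for `j ≤ d - 1`, `E d` arbitrary (second case).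
* `z = y = 0`: `e i = 0` for `i ≥ 2` (fourth case). -/
def S_CLS : Prop := ∀ d : ℕ, 3 ≤ d → ∀ c ∈ Sec d,
  (∃ p q a b : ℂ, p ≠ q ∧ PU d c = C a * (X + C p) ^ d + C b * (X + C q) ^ d) ∨
  (∃ p a b : ℂ, PU d c = C a * (X + C p) ^ d + C b) ∨
  (∃ p a b : ℂ, PU d c = C a * (X + C p) ^ d + C b * (X + C p) ^ (d - 1)) ∨
  (∃ a b : ℂ, PU d c = C a + C b * X)

/-- package L1 (uses CH MEM SPAN) : the curve `a pw l + t pw l'` has the tangent vector `pw l'`. -/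
def S_L1 : Prop := ∀ d : ℕ, 1 ≤ d → ∀ (a : ℂ) (l : ℂ × ℂ), Tan d (a • pw d l) = ⊤

/-- package L2 (uses CH MEM) : the curve `a pw (l + t m) + b pw l'`; the derivative is `a d (l^(d-1) m)`. -/
def S_L2 : Prop := ∀ d : ℕ, 1 ≤ d → ∀ (a b : ℂ) (l l' m : ℂ × ℂ), a ≠ 0 →
  vec d ((C l.1 + C l.2 * X) ^ (d - 1) * (C m.1 + C m.2 * X)) ∈ Tan d (a • pw d l + b • pw d l')

/-- package L4 (uses CH MEM) : tangential points. (1) `vec (a (X+p)^d + b (X+p)^(d-1)) ∈ Sec d` for all `a, b, p`: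
limit for `t → 0` of `a (X+p)^d + b / (d t) ((X+p+t)^d - (X+p)^d)`, polynomial in `t` (CH). (2) curves `a + t`, `b + t`, `p + t`
in this family: `(X+p)^d`, `(X+p)^(d-1)`, `a d (X+p)^(d-1) + b (d-1) (X+p)^(d-2)` are tangent vectors. (3) the curve
`a ∑_j binom(d,2j) (X+p)^(d-2j) s^j + (b/d) ∑_j binom(d,2j+1) (X+p)^(d-2j-1) s^j`, which for `s = h^2 ≠ 0` is
`(a/2 + b/(2dh)) (X+p+h)^d + (a/2 - b/(2dh)) (X+p-h)^d ∈ Sec d`; the derivative at `s = 0` is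
`a binom(d,2) (X+p)^(d-2) + (b/d) binom(d,3) (X+p)^(d-3)`. -/
def S_L4 : Prop := ∀ d : ℕ, 3 ≤ d → ∀ p a b : ℂ, b ≠ 0 → ∀ j : ℕ, j ≤ 3 →
  vec d ((X + C p) ^ (d - j)) ∈ Tan d (vec d (C a * (X + C p) ^ d + C b * (X + C p) ^ (d - 1)))

/-- package L5 (uses CH MEM) : `vec (a + b X) ∈ Sec d` for all `a, b`: limit for `t → 0` of
`a + b / (d t) ((1 + t X)^d - 1)`, polynomial in `t` (CH); then the curve `(a + t) + b X`. -/
def S_L5 : Prop := ∀ d : ℕ, 2 ≤ d → ∀ a b : ℂ, vec d 1 ∈ Tan d (vec d (C a + C b * X))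

/-- package U1 : upper bound of the tangent space. For polynomials `α_i` of degree `≤ 2` and `β_j` of degree `≤ d - 2`
(`i, j = 0, 1, 2`) let `M_ij (c) = B2 (vec (α_i β_j)) c`, linear in `c`. `B2 (vec π) (pw (s,t)) = ∑_k π_k s^k t^(d-k)` is the
homogenization of `π` at `(s,t)`, multiplicative, so `M (pw l)` has rank `≤ 1` and `det M ∈ IX d`. Take
`α = ((X-p)(X-q), X-q, X-p)`, `β = ((X-p)(X-q) h, X-q, X-p)`. At `c = vec (a (X+p)^d + b (X+q)^d)`,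
`M_ij = a α_i(p) β_j(p) + b α_i(q) β_j(q)` is diagonal `(0, a (p-q)^2, b (p-q)^2)`, and the differential of `det M` at `c` is
`v ↦ M_00(v) a b (p-q)^4`, `M_00(v) = B2 (vec ((X-p)^2 (X-q)^2 h)) v`. -/
def S_U1 : Prop := ∀ d : ℕ, 4 ≤ d → ∀ p q a b : ℂ, p ≠ q → a ≠ 0 → b ≠ 0 →
  ∀ v ∈ Tan d (vec d (C a * (X + C p) ^ d + C b * (X + C q) ^ d)),
    ∀ h : ℂ[X], h.natDegree ≤ d - 4 → B2 d (vec d ((X - C p) ^ 2 * (X - C q) ^ 2 * h)) v = 0

/-- package U2 : linear algebra, dimension 4. `N` is contained in the kernel of the linear map `V d → ℂ^(d-3)`,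
`v ↦ (B2 (vec ((X-p)^2 (X-q)^2 X^j)) v)_j`, which is surjective (the `d - 3` vectors are independent and `B2` is
nondegenerate), so `finrank N ≤ 4`; the four vectors are independent (`d ≥ 3`): apply `B2 _` of `(X-q)^2`, `(X-p)(X-q)^2`,
`(X-p)^2`, `(X-p)^2 (X-q)`; see the pairing PR). -/
def S_U2 : Prop := ∀ d : ℕ, 4 ≤ d → ∀ p q : ℂ, p ≠ q → ∀ N : Submodule ℂ (V d),
  vec d ((X + C p) ^ d) ∈ N → vec d ((X + C p) ^ (d - 1)) ∈ N →
  vec d ((X + C q) ^ d) ∈ N → vec d ((X + C q) ^ (d - 1)) ∈ N →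
  (∀ v ∈ N, ∀ h : ℂ[X], h.natDegree ≤ d - 4 →
    B2 d (vec d ((X - C p) ^ 2 * (X - C q) ^ 2 * h)) v = 0) → Module.finrank ℂ N = 4

/-- package PR : the pairing. The coefficient of `X^(d-i)` in `(X+p)^(d-j)` is `binom(d-j, d-i) p^(i-j)`, and
`binom(d-j, d-i) / binom(d, i) = (i)_j / (d)_j` (descending factorials). -/
def S_PR : Prop := ∀ (d : ℕ) (c : V d),
  (∀ j : ℕ, j ≤ d → ∀ p : ℂ, (d.descFactorial j : ℂ) * B2 d c (vec d ((X + C p) ^ (d - j))) =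
    ((derivative^[j]) (PU d c)).eval p) ∧
  B2 d c (vec d 1) = (PU d c).coeff d ∧
  (1 ≤ d → (d : ℂ) * B2 d c (vec d X) = (PU d c).coeff (d - 1))

/-- package GEO (uses CLS L1 L2 L4 L5 PR) : critical points. By CLS `c` has one of four forms. If `c` is a multiple of a
power (`a = 0` or `b = 0`, see `pw_one`, `pw_inf`) then `Tan = ⊤` has dimension `d + 1 ≥ 5` (L1), excluded. First form: L2
with `l = (p, 1)`, `m = (p, 1), (1, 0)` and `l = (q, 1)`: `w = PU (c - u)` has double roots at `p` and `q` (PR), so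
`(X-p)^2 (X-q)^2` divides `w`. Second form: L2 also with `l = (1, 0)`, `m = (1, 0), (0, 1)`: the coefficients `d`, `d - 1` of
`w` vanish and `(X-p)^2` divides `w`. Third form (`b ≠ 0`): L4, `(X-p)^4` divides `w`. Fourth form: L5 gives
`w_d = 0`, so `u_d = 0`. -/
def S_GEO : Prop := ∀ d : ℕ, 4 ≤ d → ∀ u : V d, u (Fin.last d) ≠ 0 → ∀ c ∈ Crit2 d u,
  (∃ (p q a b : ℂ) (h : ℂ[X]), p ≠ q ∧ a ≠ 0 ∧ b ≠ 0 ∧ h.natDegree ≤ d - 4 ∧
    PU d c = C a * (X + C p) ^ d + C b * (X + C q) ^ d ∧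
    PU d u = C a * (X + C p) ^ d + C b * (X + C q) ^ d + (X - C p) ^ 2 * (X - C q) ^ 2 * h) ∨
  (∃ (p a b : ℂ) (h : ℂ[X]), h.natDegree ≤ d - 4 ∧
    PU d u = C a * (X + C p) ^ d + C b + (X - C p) ^ 2 * h) ∨
  (∃ (p a b : ℂ) (h : ℂ[X]), h.natDegree ≤ d - 4 ∧
    PU d u = C a * (X + C p) ^ d + C b * (X + C p) ^ (d - 1) + (X - C p) ^ 4 * h)

/-- package GEC (uses MEM L2 U1 U2) : the converse. `c ∈ Sec` by MEM, `finrank = 4` by U2 for `N = Tan d c` (L2 and U1),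
`c - u = - vec ((X-p)^2 (X-q)^2 h)` is orthogonal to `Tan d c` by U1. -/
def S_GEC : Prop := ∀ d : ℕ, 4 ≤ d → ∀ (u : V d) (p q a b : ℂ), p ≠ q → a ≠ 0 → b ≠ 0 →
  DR d u p q a b → vec d (C a * (X + C p) ^ d + C b * (X + C q) ^ d) ∈ Crit2 d u

/-- package K5 : the powers `(X+p)^d`, `(X+q)^d` of distinct points: four powers with distinct points are independent
(`d ≥ 3`). -/
def S_K5 : Prop := ∀ d : ℕ, 3 ≤ d → ∀ p q a b p' q' a' b' : ℂ, p ≠ q → p' ≠ q' → a ≠ 0 → b ≠ 0 →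
  a' ≠ 0 → b' ≠ 0 →
  C a * (X + C p) ^ d + C b * (X + C q) ^ d = C a' * (X + C p') ^ d + C b' * (X + C q') ^ d →
    (p = p' ∧ q = q' ∧ a = a' ∧ b = b') ∨ (p = q' ∧ q = p' ∧ a = b' ∧ b = a')

/-! ## Part 3 : generic exclusions -/

/-- package DEP : `d + 1` polynomials in `d` variables are algebraically dependent (transcendence degree; see
`MvPolynomial.trdeg...`, `AlgebraicIndependent`, `Algebra.trdeg`; or count dimensions: the monomials of degree `≤ k` in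
`d + 1` variables are mapped into a space of dimension `O(k^d)`). -/
def S_DEP : Prop := ∀ (d m : ℕ), m ≤ d → ∀ φ : Fin (d + 1) → MvPolynomial (Fin m) ℂ,
  ∃ D : MvPolynomial (Fin (d + 1)) ℂ, D ≠ 0 ∧
    ∀ z : Fin m → ℂ, MvPolynomial.eval (fun i => MvPolynomial.eval z (φ i)) D = 0

/-- package EXC (uses DEP) : the coefficients `0, ..., d` of `F_z + G_z ∑_(j ≤ d-4) h_j X^j` are polynomials in the
`3 + (d - 3) = d` variables `z, h`; take `D` from DEP (index the variables by `Fin 3 ⊕ Fin (d-3)`, `finSumFinEquiv`). -/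
def S_EXC : Prop := ∀ d : ℕ, 4 ≤ d → ∀ F G : Polynomial (MvPolynomial (Fin 3) ℂ),
  Gen d fun u => ∀ (z : Fin 3 → ℂ) (h : ℂ[X]), h.natDegree ≤ d - 4 →
    PU d u ≠ F.map (MvPolynomial.eval z) + G.map (MvPolynomial.eval z) * h

/-- package GOOD (uses EXC) : seven applications of EXC: `DR` with `p = 0`, `q = 0`, `q = -p`, `a = 0`, `b = 0`, and the two
last families; and `u 0 ≠ 0`, `u (last) ≠ 0`. -/
def S_GOOD : Prop := ∀ d : ℕ, 4 ≤ d → Gen d (Good d)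

/-- package PAR : the parametrization of the incidence variety by the variables `p, θ, a, b, h_0, ..., h_(d-4)`:
`τ = θ`, `φ_i` = the coefficient of `X^i` in `a (X+p)^d + b (X+θp)^d + (X-p)^2 (X-θp)^2 ∑ h_j X^j`. -/
def S_PAR : Prop := ∀ d : ℕ, 4 ≤ d → ∃ (N : ℕ) (φ : Fin (d + 1) → MvPolynomial (Fin N) ℂ)
  (τ g : MvPolynomial (Fin N) ℂ), g ≠ 0 ∧
  (∀ z : Fin N → ℂ, MvPolynomial.eval z g ≠ 0 → ∃ p a b : ℂ, p ≠ 0 ∧ MvPolynomial.eval z τ ≠ 0 ∧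
    MvPolynomial.eval z τ ≠ 1 ∧
    DR d (fun i => MvPolynomial.eval z (φ i)) p (MvPolynomial.eval z τ * p) a b) ∧
  ∀ (u : V d) (p θ a b : ℂ), DR d u p (θ * p) a b →
    ∃ z : Fin N → ℂ, (∀ i, MvPolynomial.eval z (φ i) = u i) ∧ MvPolynomial.eval z τ = θ

/-! ## Part 4 : the equations -/

/-- package K1 : let `q = θ p`, `s = p + q`, `m = d - 1`, `w(x) = PU u`. `DR` means that `w - a (X+p)^d - b (X+q)^d` has double
roots at `p` and `q` (degree `≤ d`; the quotient has degree `≤ d - 4`):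
(I) `w(p) = a (2p)^d + b s^d`, (II) `w'(p)/d = a (2p)^m + b s^m`, (III) `w(q) = a s^d + b (2q)^d`,
(IV) `w'(q)/d = a s^m + b (2q)^m`. And `p^m vA = (2p)^m (2 q w'(q)/d - w(q)) - s^m (s w'(p)/d - w(p))`,
`p^m vB = (2q)^m (2 p w'(p)/d - w(p)) - s^m (s w'(q)/d - w(q))` (compare coefficients of `u_k`).
(→) (III), (IV) give `2 q w'(q)/d - w(q) = a s^m (q-p)`, (I), (II) give `s w'(p)/d - w(p) = a (2p)^m (q-p)`: `vA = 0`; `vB` by
symmetry. (←) `s ≠ 0`: `a = (2 q w'(q)/d - w(q)) / (s^m (q-p))`, `b = (2 p w'(p)/d - w(p)) / (s^m (p-q))`. Then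
`s w'(p)/d - w(p) = a (2p)^m (q-p)` and `2p w'(p)/d - w(p) = b s^m (p-q)`; subtract: (II), then (I); the same at `q`.
`s = 0`: `2 p w'(p)/d = w(p)`, `2 q w'(q)/d = w(q)`; `a = w(p)/(2p)^d`, `b = w(q)/(2q)^d`. -/
def S_K1 : Prop := ∀ d : ℕ, 4 ≤ d → ∀ (u : V d) (p θ : ℂ), p ≠ 0 → θ ≠ 0 → θ ≠ 1 →
  ((∃ a b : ℂ, DR d u p (θ * p) a b) ↔ vA d u θ p = 0 ∧ vB d u θ p = 0)

/-- package K2 : a root `θ ≠ 0, 1` of the resultant gives a common root `p ≠ 0`. `f_d = - θ g_0`, `g_d = - θ^(d-1) f_0`,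
`f_0 = (1+θ)^(d-1) - 2^(d-1)`, `g_0 = (1+θ)^(d-1) - 2^(d-1) θ^(d-1)`. If `f_0(θ) = g_0(θ) = 0` then `|1 + θ| = 2`, `|θ| = 1`, so
`θ = 1`. So one of the two leading coefficients (degree `d`) is not zero; use `RU_eval`, `resultant_add_right_deg`,
`resultant_comm`, `resultant_eq_zero_iff`. `p ≠ 0` since `vA(θ, 0) = u_0 f_0(θ)`, `vB(θ, 0) = u_0 g_0(θ)`. -/
def S_K2 : Prop := ∀ d : ℕ, 4 ≤ d → ∀ (u : V d) (θ : ℂ), u 0 ≠ 0 → u (Fin.last d) ≠ 0 → θ ≠ 0 →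
  θ ≠ 1 → (RU d u).eval θ = 0 → ∃ p : ℂ, p ≠ 0 ∧ vA d u θ p = 0 ∧ vB d u θ p = 0

/-- package K3 : common roots are roots of the resultant, and two common roots give a double root. The transpose of
the Sylvester matrix (over `ℂ[θ]`) times the vector `(1, p, p^2, ...)` is the vector of `p^j A`, `p^j B`; at `θ` it is zero. For
`p ≠ p'` the vectors `(p^i)`, `(p'^i)` are independent: there is a constant invertible matrix with these first two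
columns, so two columns of a product are divisible by `X - θ`. -/
def S_K3 : Prop := ∀ d : ℕ, 1 ≤ d → ∀ (u : V d) (θ p : ℂ), vA d u θ p = 0 → vB d u θ p = 0 →
  (RU d u).eval θ = 0 ∧ ∀ p' : ℂ, p' ≠ p → vA d u θ p' = 0 → vB d u θ p' = 0 →
    (derivative (RU d u)).eval θ = 0

/-- package EXP : expansions at `θ = 1`. Put `θ = 1 + t`; `θ^k = 1 + k t + binom(k,2) t^2 + ... + binom(k,4) t^4 + t^5 (..)`,
`(1+θ)^m = 2^m (1 + t/2)^m` similarly, `binom(k,2) = k(k-1)/2` etc. as polynomials in `k` (`k = 0` separately in `g`). -/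
def S_EXP : Prop := ∀ d k : ℕ, 1 ≤ d → k ≤ d → ∃ a b : ℂ[X],
  ff d k - gg d k = (X - 1) * a ∧
  2 * (X + 1) * (ff d k + gg d k) + C ((d : ℂ) - 2) * (X - 1) * (ff d k - gg d k) =
    (X - 1) ^ 4 * b ∧
  (d : ℂ) * a.eval 1 = 2 ^ (d - 1) * (4 * (k : ℂ) ^ 2 - 4 * k * d + d * (d - 1)) ∧
  48 * b.eval 1 = 2 ^ (d - 1) * ((d : ℂ) * (d - 1) * (d - 2) * (d - 3)
    - (4 + 26 * d - 18 * d ^ 2 + 4 * d ^ 3) * k + (32 - 12 * d + 4 * d ^ 2) * k ^ 2 - 8 * k ^ 3)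

/-- package V0 : order at `θ = 0`. `X ∣ f_d` and `X^(k-1) ∣ g_k` (for `k = d`: `g_d = - X^(d-1) f_0`, so `X^(d-1) ∣ g_d`). In the
Sylvester matrix `M` (rows `i < 2d`; column `j < d`: coefficients of `p^j B`, column `d + j`: coefficients of `p^j A`):
`X^(i-d) ∣ M_ij` for the columns of `B` (natural subtraction) and `X^(i-d) ∣ X^(j-1) M_(i,d+j)` for those of `A`. So
`X^(∑_i (i-d)) ∣ X^(∑_(j<d) (j-1)) det M`, and `d(d-1)/2 - (d-1)(d-2)/2 = d - 1`. -/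
def S_V0 : Prop := ∀ d : ℕ, 3 ≤ d → (X : (AA d)[X]) ^ (d - 1) ∣ RR d

/-- package V1 (uses EXP) : order at `θ = 1`. `H = 2(θ+1)(A+B) + (d-2)(θ-1)(A-B)`. `Res(A-B, H) = Res(A-B, 2(θ+1)(A+B)) =
(2(θ+1))^d Res(A-B, A+B) = (2(θ+1))^d Res(A-B, 2B) = (4(θ+1))^d Res(A, B)` (all with formal degrees `d, d`:
`resultant_add_mul_right`, `resultant_add_mul_left`, `resultant_C_mul_right`). By EXP `A - B = (θ-1) A'`, `H = (θ-1)^4 H'`, so
`Res(A-B, H) = (θ-1)^(5d) Res(A', H')`; `θ - 1` is prime and does not divide `4 (θ+1)`. -/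
def S_V1 : Prop := ∀ d : ℕ, 3 ≤ d → ((X : (AA d)[X]) - 1) ^ (5 * d) ∣ RR d

/-- package SCAL : scaling (Sylvester matrix: rows `c^i`, columns `c^(-j)`; or see `resultant_scaleRoots`). -/
def S_SCAL : Prop := ∀ (d : ℕ) (c : ℂ) (P Q : ℂ[X]), c ≠ 0 → P.natDegree ≤ d → Q.natDegree ≤ d →
  resultant (P.comp (C c * X)) (Q.comp (C c * X)) d d = c ^ (d * d) * resultant P Q d d

/-- package SYM (uses SCAL) : `g_k(θ) = θ^(d-1+k) f_k(1/θ)`, `f_k(θ) = θ^(d-1+k) g_k(1/θ)` for `θ ≠ 0`, so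
`A_(1/θ)(p) = θ^(-(d-1)) B_θ(p/θ)` and conversely; so `RU(1/θ) = (-1)^d θ^(-(3d²-2d)) RU(θ)`. With
`RU = X^(d-1) (X-1)^(5d) T`: `θ^n T(1/θ) = T(θ)` for all `θ ≠ 0, 1`, `n = 3d² - 9d + 2`; so `deg T ≤ n` and `T` is
palindromic (compare with `T.reverse`/`Polynomial.reflect`: `θ^N T(1/θ) = (reflect N T)(θ)`, `N = deg T + n`). -/
def S_SYM : Prop := ∀ d n : ℕ, 4 ≤ d → n + 9 * d = 3 * d ^ 2 + 2 → ∀ (u : V d) (T : ℂ[X]),
  RU d u = X ^ (d - 1) * (X - 1) ^ (5 * d) * T → T.natDegree ≤ n ∧ T.coeff n = T.coeff 0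

/-- package TRI : trinomials. `α = a₀ b_d - a_d b₀`, `β = a₁ b_d - a_d b₁`. `b_d^d Res(A, B) = Res(b_d A - a_d B, B) =
Res(α + β X, B)` (formal degrees `d, d`) `= b_d^(d-1) Res(α + β X, B; 1, d) = b_d^(d-1) (b₀ β^d - b₁ α β^(d-1) + b_d (-α)^d)`
(`resultant_add_left_deg`, `resultant_X_sub_C_left` over the fraction field; `resultant_C_left` for `β = 0`), and
`b₀ β - b₁ α = - b_d (a₀ b₁ - a₁ b₀)`. -/
def S_TRI : Prop := ∀ d : ℕ, 2 ≤ d → ∀ a₀ a₁ a' b₀ b₁ b' : ℂ[X], b' ≠ 0 →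
  resultant (C a₀ + C a₁ * X + C a' * X ^ d) (C b₀ + C b₁ * X + C b' * X ^ d) d d =
    (-1) ^ d * (a₀ * b' - a' * b₀) ^ d - (a₀ * b₁ - a₁ * b₀) * (a₁ * b' - a' * b₁) ^ (d - 1)

/-- package VAL (uses TRI) : values at `θ = 0`. `f_d = - X g_0`, `g_d = - X^(d-1) f_0`; at `0`: `f_0 = 1 - 2^(d-1)`, `g_0 = 1`,
`f_1 = 1 - 1/d`, `g_1 = -1/d`. For `u = 1 + t + t^d` (`u 0 = u 1 = u d = 1`, else `0`) and TRI: `α = f_0 g_d - f_d g_0 =
X (g_0² - X^(d-2) f_0²)`, `β = f_1 g_d - f_d g_1 = X (..)` with `(..)(0) = g_0 g_1 = -1/d`, `(f_0 g_1 - f_1 g_0)(0) = 2^(d-1)/d - 1 ≠ 0`,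
so `RU = X^(d-1) (..)` with `(..)(0) ≠ 0`. For `u = 1 + t^d`: `RU = (-1)^d α^d = (-1)^d X^d (g_0² - X^(d-2) f_0²)^d`. -/
def S_VAL : Prop := ∀ d : ℕ, 4 ≤ d →
  (∃ u : V d, ∀ T : ℂ[X], RU d u = X ^ (d - 1) * (X - 1) ^ (5 * d) * T → T.eval 0 ≠ 0) ∧
  (∃ u : V d, ∀ T : ℂ[X], RU d u = X ^ (d - 1) * (X - 1) ^ (5 * d) * T →
    T.eval 0 = 0 ∧ (derivative T).eval 0 ≠ 0)

/-- package ONE (uses TRI EXP) : the value at `θ = 1` for `u = 1 + t^d`. `RU = (-1)^d α^d`, `α = f_0 g_d - f_d g_0`. With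
`a_k, b_k` from EXP: `4 (X+1) α = (X-1)^5 (a_0 b_d - a_d b_0)`; at `1`: `a_0 = a_d = 2^(d-1) (d-1)`,
`b_d - b_0 = - 2^(d-1) d(d-1)(d-2)/24 ≠ 0`. -/
def S_ONE : Prop := ∀ d : ℕ, 4 ≤ d → ∃ u : V d, ∀ T : ℂ[X],
  RU d u = X ^ (d - 1) * (X - 1) ^ (5 * d) * T → T.eval 1 ≠ 0

/-- package TT (uses V0 V1) : `X^(d-1)` and `(X-1)^(5d)` are coprime. -/
def S_TT : Prop := ∀ d : ℕ, 4 ≤ d →
  ∃ T : (AA d)[X], RR d = X ^ (d - 1) * (X - 1) ^ (5 * d) * T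

/-! ## Part 5 : simple roots -/

/-- package SQF : the irreducibility argument. `R = MvPolynomial (Fin e) ℂ`. Let `Ψ : R[θ] → ℂ[z]` be the ring hom
`u_i ↦ φ_i`, `θ ↦ τ`. `Ψ(T) g` vanishes at all points, so `Ψ(T) = 0`; `ker Ψ` is prime. (1) `T ≠ 0` (by the last hypothesis)
has an irreducible factor `P₀ ∈ ker Ψ`. (2) `ker Ψ ∩ R = 0`: if `a(φ(z)) = 0` for all `z`, then `a(u) = 0` for all `u` with
`D(u) ≠ 0`, so `a D = 0`. (3) every irreducible factor `P'` of `T` of positive degree is associated to `P₀`: otherwise they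
are coprime over the fraction field (Gauss lemma, `IsPrimitive`), so `x P' + y P₀ = C a`, `a ≠ 0`. Take `u` with
`a(u) D(u) lead(P')(u) ≠ 0` and a root `θ` of `P'_u`: then `T_u(θ) = 0`, `(u, θ) = (φ(z), τ(z))`, `P₀(u, θ) = Ψ(P₀)(z) = 0`,
so `a(u) = 0`, a contradiction. (4) So `T = C a * P₀^k` (up to a unit). If `k ≥ 2` then `T_(u₀)` has no simple root, a
contradiction; so `k = 1`. (5) `P₀` is irreducible over the fraction field (characteristic 0), so separable: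
`x P₀ + y P₀' = C b`, `b ≠ 0`; for `a(u) b(u) ≠ 0` all roots of `T_u` are simple. -/
def S_SQF : Prop := ∀ (e N : ℕ) (T : Polynomial (MvPolynomial (Fin e) ℂ))
  (φ : Fin e → MvPolynomial (Fin N) ℂ) (τ g : MvPolynomial (Fin N) ℂ), g ≠ 0 →
  (∀ z : Fin N → ℂ, MvPolynomial.eval z g ≠ 0 →
    (T.map (MvPolynomial.eval (fun i => MvPolynomial.eval z (φ i)))).eval
      (MvPolynomial.eval z τ) = 0) →
  (∃ D : MvPolynomial (Fin e) ℂ, D ≠ 0 ∧ ∀ u : Fin e → ℂ, MvPolynomial.eval u D ≠ 0 →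
    (∃ θ : ℂ, (T.map (MvPolynomial.eval u)).eval θ = 0) ∧
    ∀ θ : ℂ, (T.map (MvPolynomial.eval u)).eval θ = 0 →
      ∃ z : Fin N → ℂ, (∀ i, MvPolynomial.eval z (φ i) = u i) ∧ MvPolynomial.eval z τ = θ) →
  (∃ (u₀ : Fin e → ℂ) (θ₀ : ℂ), (T.map (MvPolynomial.eval u₀)).eval θ₀ = 0 ∧
    (derivative (T.map (MvPolynomial.eval u₀))).eval θ₀ ≠ 0) →
  ∃ D : MvPolynomial (Fin e) ℂ, D ≠ 0 ∧ ∀ u : Fin e → ℂ, MvPolynomial.eval u D ≠ 0 →
    ∀ θ : ℂ, (T.map (MvPolynomial.eval u)).eval θ = 0 →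
      (derivative (T.map (MvPolynomial.eval u))).eval θ ≠ 0

/-- package GEN (uses GOOD K1 K2 K3 SYM VAL ONE PAR SQF) : for generic `u`: `Good`, `T_u(0) ≠ 0`, `T_u(1) ≠ 0` (VAL, ONE:
`T(·, 0)`, `T(·, 1)` are nonzero elements of `AA d`), `deg T_u = n` (SYM: `T_u.coeff n = T_u(0) ≠ 0`), simple roots (SQF
applied to `T` and PAR: a root `θ` of `T_u` is `≠ 0, 1`, K2 gives `p`, K1 gives `DR`; conversely `DR` gives `vA = vB = 0` (K1),
`RU(θ) = 0` (K3), so `T_u(θ) = 0`). -/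
def S_GEN : Prop := ∀ d n : ℕ, 4 ≤ d → n + 9 * d = 3 * d ^ 2 + 2 → ∀ T : (AA d)[X],
  RR d = X ^ (d - 1) * (X - 1) ^ (5 * d) * T →
    Gen d fun u => Good d u ∧ (sp u T).natDegree = n ∧ (sp u T).eval 0 ≠ 0 ∧ (sp u T).eval 1 ≠ 0 ∧
      ∀ θ : ℂ, (sp u T).eval θ = 0 → (derivative (sp u T)).eval θ ≠ 0

/-- package CNT (uses GEO GEC K1 K2 K3 K5) : the count. `Z` = roots of `T`, `card = n`. `S` = the pairs `(p, q)`, `p ≠ q`, with
`DR d u p q a b` for some `a, b`. `(p, q) ↦ q / p` is a bijection `S → Z`: (K1, K3: it maps into `Z`; K2, K1: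
surjective; injective: two `p` for one `θ` would give a double root of `RU`, hence of `T`, K3). For `(p, q) ∈ S` the
numbers `a, b` are unique (`p + q ≠ 0`, `p ≠ q`: the difference has double roots at `p`, `q`). `(p, q) ↦ vec (a (X+p)^d + b (X+q)^d)`
maps `S` onto `Crit2` (GEO, GEC, `Good`) and every fibre has exactly the two elements `(p, q)`, `(q, p)` (K5). -/
def S_CNT : Prop := ∀ d n : ℕ, 4 ≤ d → ∀ (u : V d) (T : ℂ[X]),
  RU d u = X ^ (d - 1) * (X - 1) ^ (5 * d) * T → Good d u → T.natDegree = n → T.eval 0 ≠ 0 →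
  T.eval 1 ≠ 0 → (∀ θ : ℂ, T.eval θ = 0 → (derivative T).eval θ ≠ 0) →
    (Crit2 d u).Finite ∧ 2 * (Crit2 d u).ncard = n

/-- the final theorem (FIN: uses TT GEN CNT TRA) -/
def S_FIN : Prop := ∀ d : ℕ, 4 ≤ d → ∃ D : MvPolynomial (Fin (d + 1)) ℂ, D ≠ 0 ∧
  ∀ u : V d, MvPolynomial.eval u D ≠ 0 →
    (Crit d u).Finite ∧ 2 * (Crit d u).ncard + 9 * d = 3 * d ^ 2 + 2

end Pool.Agent.T2H23.ED
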